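import Pool.Agent.H398.Gam.Main

/-!
# Interfaces (statements to be proved), MP_13b5a2_al

All statements are `Prop`-valued definitions; each has a paper proof in its docstring.
-/

set_option autoImplicit false
set_option linter.unusedVariables false

open scoped TensorProduct

namespace Pool.Agent.H398.Gam

universe u v w

open Ob

/-- **T1. Existence of multiplicative characters.** See the help board text for the paper proof. -/
def S_existsChar : Prop :=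
  ∀ (R : Type w) [CommSemiring R] (c : R → ℝ),
    (∀ x, 0 ≤ c x) → c 1 = 1 → (∀ x y, c (x + y) = c x + c y) →
    (∀ x y, c (x * y) ≤ c x * c y) →
    ∀ (a : R) (g : ℝ), 0 < g → (∀ m : ℕ, g ^ m ≤ c (a ^ m)) →
      (∀ ε : ℝ, 0 < ε → ∃ m : ℕ, 0 < m ∧ c (a ^ m) ≤ (g + ε) ^ m) →
      ∃ φ : R → ℝ, (∀ x, 0 ≤ φ x) ∧ φ 1 = 1 ∧ (∀ x y, φ (x + y) = φ x + φ y) ∧
        (∀ x y, φ (x * y) = φ x * φ y) ∧ (∀ x, φ x ≤ c x) ∧ φ a = g

section

variable {k : Type u} [Field k] {G : Type v} [Group G]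

/-- `T` is a relative trace `Tr_1^G(θ)`: `T = ∑_g g θ g⁻¹`. -/
def IsTr [Fintype G] (A B : Ob k G) (T : A.V →ₗ[k] B.V) : Prop :=
  ∃ θ : A.V →ₗ[k] B.V, ∀ v, T v = ∑ g, B.ρ g (θ (A.ρ g⁻¹ v))

/-- The symmetric (`ε = 1`) or exterior (`ε = -1`) square, as a direct summand of `V ⊗ V`. -/
structure SQ (V : Ob k G) (ε : k) (Z : Ob k G) where
  I : Z.V →ₗ[k] (V.tens V).V
  P : (V.tens V).V →ₗ[k] Z.V
  hI : Eqv Z (V.tens V) I
  hP : Eqv (V.tens V) Z P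
  PI : ∀ z, P (I z) = z
  IP : ∀ v w : V.V, I (P (v ⊗ₜ[k] w : V.V ⊗[k] V.V)) =
    ((2 : k)⁻¹ • (v ⊗ₜ[k] w + ε • w ⊗ₜ[k] v) : V.V ⊗[k] V.V)

end

/-- **T2. Higman's criterion.** -/
def S_higman : Prop :=
  ∀ (k : Type u) [Field k] (G : Type v) [Group G] [Fintype G] (A : Ob k G),
    A.IsProj ↔ IsTr A A LinearMap.id

/-- **T5. The dimension of the core is additive.** -/
def S_additive : Prop :=
  ∀ (k : Type u) [Field k] (G : Type v) [Group G] [Fintype G] (A B : Ob k G),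
    (A.prod B).coreDim = A.coreDim + B.coreDim

/-- **T3a.** Splitting of `V ⊗ V`, and dimensions. -/
def S_sqExists : Prop :=
  ∀ (k : Type u) [Field k] (G : Type v) [Group G] (V : Ob k G) (ε : k), (2 : k) ≠ 0 → ε * ε = 1 →
    ∃ Z Z' : Ob k G, Nonempty (SQ V ε Z) ∧ Nonempty (SQ V (-ε) Z') ∧
      (V.tens V).Iso (Z.prod Z') ∧ (Z.dim : k) = 2⁻¹ * ((V.dim : k) ^ 2 + ε * V.dim) ∧
      (Z'.dim : k) = 2⁻¹ * ((V.dim : k) ^ 2 - ε * V.dim)

/-- **T3c.** `V ⊗ V^*` is a summand of `Z ⊗ Z^*`. -/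
def S_sqEnd : Prop :=
  ∀ (k : Type u) [Field k] (G : Type v) [Group G] (V Z : Ob k G) (ε : k), (2 : k) ≠ 0 →
    ε * ε = 1 → SQ V ε Z → (V.dim : k) ≠ -2 * ε → (V.dim : k) ≠ -ε →
    ∃ C : Ob k G, (Z.tens Z.dual).Iso ((V.tens V.dual).prod C)

/-- **T3d.** The traceless part of `V ⊗ V^*` is a summand of `Z ⊗ Z^*`. -/
def S_sqTraceless : Prop :=
  ∀ (k : Type u) [Field k] (G : Type v) [Group G] (V Z : Ob k G) (ε : k), (2 : k) ≠ 0 →
    ε * ε = 1 → SQ V ε Z → (V.dim : k) ≠ -2 * ε → (V.dim : k) ≠ 0 →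
    ∃ T C : Ob k G, (V.tens V.dual).Iso ((one k G).prod T) ∧ (Z.tens Z.dual).Iso (T.prod C)

/-- **T3e.** `V` is a summand of `V^* ⊗ Z`. -/
def S_sqContract : Prop :=
  ∀ (k : Type u) [Field k] (G : Type v) [Group G] (V Z : Ob k G) (ε : k), (2 : k) ≠ 0 →
    ε * ε = 1 → SQ V ε Z → (V.dim : k) ≠ -ε →
    ∃ C : Ob k G, (V.dual.tens Z).Iso (V.prod C)

end Pool.Agent.H398.Gam
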