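import Pool.Agent.H398.Gam.Iface

/-!
# The dimension of the core is additive (T5)
-/

set_option autoImplicit false
set_option linter.unusedVariables false
set_option linter.unusedSectionVars false

open scoped TensorProduct

namespace Pool.Agent.H404.GAM

open Pool.Agent.H398.Gam Pool.Agent.H398.Gam.Ob

universe u v

variable {k : Type u} [Field k] {G : Type v} [Group G] [Fintype G]

/-! ### relative traces -/

theorem tr_add {A B : Ob k G} {S T : A.V →ₗ[k] B.V} (hS : IsTr A B S) (hT : IsTr A B T) :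
    IsTr A B (S + T) := by
  obtain ⟨θ, hθ⟩ := hS
  obtain ⟨η, hη⟩ := hT
  refine ⟨θ + η, fun v => ?_⟩
  simp only [LinearMap.add_apply, map_add, Finset.sum_add_distrib, ← hθ, ← hη]

theorem tr_comp_left {A B C : Ob k G} {S : B.V →ₗ[k] C.V} {T : A.V →ₗ[k] B.V} (hS : Eqv B C S)
    (hT : IsTr A B T) : IsTr A C (S ∘ₗ T) := by
  obtain ⟨θ, hθ⟩ := hT
  refine ⟨S ∘ₗ θ, fun v => ?_⟩
  rw [LinearMap.comp_apply, hθ, map_sum]
  refine Finset.sum_congr rfl fun g _ => ?_
  rw [hS]
  rfl

theorem tr_comp_right {A B C : Ob k G} {S : A.V →ₗ[k] B.V} {T : B.V →ₗ[k] C.V} (hS : Eqv A B S)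
    (hT : IsTr B C T) : IsTr A C (T ∘ₗ S) := by
  obtain ⟨θ, hθ⟩ := hT
  refine ⟨θ ∘ₗ S, fun v => ?_⟩
  rw [LinearMap.comp_apply, hθ]
  refine Finset.sum_congr rfl fun g _ => ?_
  rw [LinearMap.comp_apply, hS]

theorem tr_eqv {A B : Ob k G} {T : A.V →ₗ[k] B.V} (hT : IsTr A B T) : Eqv A B T := by
  obtain ⟨θ, hθ⟩ := hT
  intro h v
  rw [hθ, hθ, map_sum]
  refine (Fintype.sum_equiv (Equiv.mulLeft h) _ _ fun g => ?_).symm
  rw [Equiv.coe_mulLeft, mul_inv_rev]
  have e1 : A.ρ (g⁻¹ * h⁻¹) (A.ρ h v) = A.ρ g⁻¹ v := by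
    rw [← Module.End.mul_apply, ← map_mul, mul_assoc, inv_mul_cancel, mul_one]
  have e2 : ∀ w, B.ρ (h * g) w = B.ρ h (B.ρ g w) := fun w => by
    rw [map_mul, Module.End.mul_apply]
  rw [e1, e2]

theorem eqv_comp {A B C : Ob k G} {S : B.V →ₗ[k] C.V} {T : A.V →ₗ[k] B.V} (hS : Eqv B C S)
    (hT : Eqv A B T) : Eqv A C (S ∘ₗ T) := by
  intro g v
  rw [LinearMap.comp_apply, hT, hS]
  rfl

theorem eqv_add {A B : Ob k G} {S T : A.V →ₗ[k] B.V} (hS : Eqv A B S) (hT : Eqv A B T) :
    Eqv A B (S + T) := by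
  intro g v
  rw [LinearMap.add_apply, hT, hS, LinearMap.add_apply, map_add]

theorem eqv_id (A : Ob k G) : Eqv A A LinearMap.id := fun g v => rfl

theorem eqv_pow {A : Ob k G} {e : A.V →ₗ[k] A.V} (he : Eqv A A e) (n : ℕ) : Eqv A A (e ^ n) := by
  induction n with
  | zero => exact eqv_id A
  | succ n ih =>
    rw [pow_succ]
    exact eqv_comp ih he

theorem eqv_smul {A B : Ob k G} {S : A.V →ₗ[k] B.V} (hS : Eqv A B S) (c : k) :
    Eqv A B (c • S) := by
  intro g v
  rw [LinearMap.smul_apply, hS, LinearMap.smul_apply, map_smul]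

theorem eqv_aeval {A : Ob k G} {e : Module.End k A.V} (he : Eqv A A e) (q : Polynomial k) :
    Eqv A A (Polynomial.aeval e q) := by
  induction q using Polynomial.induction_on' with
  | add p q hp hq =>
    rw [map_add]
    exact eqv_add hp hq
  | monomial n a =>
    rw [Polynomial.aeval_monomial]
    have h1 : (algebraMap k (Module.End k A.V)) a * e ^ n = a • (e ^ n) := by
      rw [Algebra.smul_def]
    rw [h1]
    exact eqv_smul (eqv_pow he n) a

theorem eqv_inl (A B : Ob k G) : Eqv A (A.prod B) (LinearMap.inl k A.V B.V) := by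
  intro g v
  show ((A.ρ g v, 0) : A.V × B.V) = (A.ρ g v, B.ρ g 0)
  rw [map_zero]

theorem eqv_inr (A B : Ob k G) : Eqv B (A.prod B) (LinearMap.inr k A.V B.V) := by
  intro g v
  show ((0, B.ρ g v) : A.V × B.V) = (A.ρ g 0, B.ρ g v)
  rw [map_zero]

theorem eqv_fst (A B : Ob k G) : Eqv (A.prod B) A (LinearMap.fst k A.V B.V) := fun g v => rfl

theorem eqv_snd (A B : Ob k G) : Eqv (A.prod B) B (LinearMap.snd k A.V B.V) := fun g v => rfl

/-! ### Fitting's lemma -/

theorem fitting {A : Ob k G} {e : Module.End k A.V} (he : IsTr A A e) :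
    ∃ π : Module.End k A.V, IsTr A A π ∧ (∀ v, π (π v) = π v) ∧ (π = 0 → IsNilpotent e) := by
  have hee := tr_eqv he
  set p := e.charpoly with hp
  have hp0 : p ≠ 0 := e.charpoly_monic.ne_zero
  have hpe : Polynomial.aeval e p = 0 := e.aeval_self_charpoly
  obtain ⟨q, hq1, hq2⟩ := Polynomial.exists_eq_pow_rootMultiplicity_mul_and_not_dvd p hp0 0
  rw [Polynomial.C_0, sub_zero] at hq1 hq2
  set n := Polynomial.rootMultiplicity 0 p with hn
  have hcop : IsCoprime (Polynomial.X ^ (n + 1) : Polynomial k) q :=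
    ((Polynomial.irreducible_X.coprime_iff_not_dvd).2 hq2).pow_left
  obtain ⟨a, b, hab⟩ := hcop
  refine ⟨Polynomial.aeval e (a * Polynomial.X ^ (n + 1)), ?_, ?_, ?_⟩
  · have h1 : Polynomial.aeval e (a * Polynomial.X ^ (n + 1)) =
        (Polynomial.aeval e (a * Polynomial.X ^ n)) ∘ₗ e := by
      rw [pow_succ, ← mul_assoc, map_mul, Polynomial.aeval_X]
      rfl
    rw [h1]
    exact tr_comp_left (eqv_aeval hee _) he
  · intro v
    have h1 : Polynomial.aeval e (a * Polynomial.X ^ (n + 1)) *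
        Polynomial.aeval e (a * Polynomial.X ^ (n + 1)) =
        Polynomial.aeval e (a * Polynomial.X ^ (n + 1)) := by
      have h2 : (a * Polynomial.X ^ (n + 1)) * (a * Polynomial.X ^ (n + 1)) =
          a * Polynomial.X ^ (n + 1) - (a * b * Polynomial.X) * p := by
        have h3 : a * Polynomial.X ^ (n + 1) = 1 - b * q := by rw [← hab]; ring
        calc (a * Polynomial.X ^ (n + 1)) * (a * Polynomial.X ^ (n + 1))
            = (a * Polynomial.X ^ (n + 1)) * (1 - b * q) := by rw [← h3]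
          _ = a * Polynomial.X ^ (n + 1) - (a * b * Polynomial.X) * (Polynomial.X ^ n * q) := by
              ring
          _ = _ := by rw [← hq1]
      rw [← map_mul, h2, map_sub, map_mul _ _ p, hpe, mul_zero, sub_zero]
    have h2 := congrArg (fun f : Module.End k A.V => f v) h1
    exact h2
  · intro h0
    refine ⟨n, ?_⟩
    have h1 : Polynomial.aeval e (b * q) = 1 := by
      have := congrArg (Polynomial.aeval e) hab
      rw [map_add, h0, zero_add, map_one] at this
      exact this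
    have h2 : Polynomial.aeval e (Polynomial.X ^ n * (b * q)) = 0 := by
      have h3 : (Polynomial.X ^ n * (b * q) : Polynomial k) = b * p := by
        rw [hq1]
        ring
      rw [h3, map_mul, hpe, mul_zero]
    rw [map_mul, h1, mul_one, map_pow, Polynomial.aeval_X] at h2
    exact h2

/-- all relative traces are nilpotent -/
def Red (X : Ob k G) : Prop := ∀ T : Module.End k X.V, IsTr X X T → IsNilpotent T

theorem nil_fix {V : Type*} [AddCommGroup V] [Module k V] {T : Module.End k V}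
    (hT : IsNilpotent T) {v : V} (h : T v = v) : v = 0 := by
  obtain ⟨n, hn⟩ := hT
  have h1 : ∀ m : ℕ, (T ^ m) v = v := by
    intro m
    induction m with
    | zero => simp
    | succ m ih => rw [pow_succ, Module.End.mul_apply, h, ih]
  have := h1 n
  rw [hn] at this
  simpa using this.symm

theorem red_of_fix {X : Ob k G}
    (h : ∀ j : Module.End k X.V, IsTr X X j → ∀ v, j v = v → v = 0) : Red X := by
  intro e he
  obtain ⟨π, h1, h2, h3⟩ := fitting he
  apply h3
  apply LinearMap.ext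
  intro v
  exact h π h1 (π v) (h2 v)

theorem proj_iff (H : S_higman.{u, v}) (P : Ob k G) : P.IsProj ↔ IsTr P P LinearMap.id :=
  H k G P

theorem proj_prod (H : S_higman.{u, v}) {P Q : Ob k G} (hP : P.IsProj) (hQ : Q.IsProj) :
    (P.prod Q).IsProj := by
  rw [proj_iff H] at hP hQ ⊢
  have h1 := tr_comp_left (eqv_inl P Q) (tr_comp_right (eqv_fst P Q) hP)
  have h2 := tr_comp_left (eqv_inr P Q) (tr_comp_right (eqv_snd P Q) hQ)
  have h3 := tr_add h1 h2
  have h4 : LinearMap.inl k P.V Q.V ∘ₗ LinearMap.id ∘ₗ LinearMap.fst k P.V Q.V +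
      LinearMap.inr k P.V Q.V ∘ₗ LinearMap.id ∘ₗ LinearMap.snd k P.V Q.V =
      (LinearMap.id : (P.prod Q).V →ₗ[k] (P.prod Q).V) := by
    apply LinearMap.ext
    rintro ⟨x, y⟩
    simp
  rw [← h4]
  exact h3

/-- a minimal object is reduced -/
theorem red_of_min (H : S_higman.{u, v}) {X : Ob k G}
    (hmin : ∀ C Q : Ob k G, Q.IsProj → X.Iso (C.prod Q) → X.dim ≤ C.dim) : Red X := by
  intro e he
  obtain ⟨π, h1, h2, h3⟩ := fitting he
  apply h3
  have hπ := tr_eqv h1
  have hinv : ∀ g, LinearMap.range π ≤ (LinearMap.range π).comap (X.ρ g) := by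
    rintro g _ ⟨w, rfl⟩
    exact ⟨X.ρ g w, hπ g w⟩
  set R : Ob k G := ⟨LinearMap.range π, X.ρ.subrepresentation (LinearMap.range π) hinv⟩ with hR
  set S : R.V →ₗ[k] X.V := (LinearMap.range π).subtype with hS
  set T : X.V →ₗ[k] R.V := π.codRestrict (LinearMap.range π) (fun v => ⟨v, rfl⟩) with hT
  have hSe : Eqv R X S := fun g v => rfl
  have hST : ∀ w, S (T w) = π w := fun w => rfl
  have hSinj : Function.Injective S := Subtype.val_injective
  have hTe : Eqv X R T := by
    intro g v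
    apply hSinj
    rw [hSe, hST, hST, hπ]
  have hTS : ∀ r, T (S r) = r := by
    intro r
    apply hSinj
    rw [hST]
    obtain ⟨w, hw⟩ : ∃ w, π w = S r := r.2
    rw [← hw, h2]
  have hproj : R.IsProj := by
    rw [proj_iff H]
    have h4 : T ∘ₗ π ∘ₗ S = (LinearMap.id : R.V →ₗ[k] R.V) := by
      apply LinearMap.ext
      intro r
      show T (π (S r)) = r
      rw [← hST, hTS, hTS]
    rw [← h4]
    exact tr_comp_left hTe (tr_comp_right hSe h1)
  obtain ⟨C, -, -, -, -, -, -, -, hiso⟩ := compl R X S T hSe hTe hTS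
  have h5 := hmin C R hproj (hiso.trans (prod_comm R C))
  have h6 := dim_eq_of_iso hiso
  rw [dim_prod] at h6
  have h7 : R.dim = 0 := by omega
  have h8 : Subsingleton R.V := by
    have h9 : Module.finrank k R.V = 0 := h7
    exact Module.finrank_zero_iff.1 h9
  apply LinearMap.ext
  intro v
  rw [← hST, Subsingleton.elim (T v) 0, map_zero]
  rfl

theorem red_prod {X Y : Ob k G} (hX : Red X) (hY : Red Y) : Red (X.prod Y) := by
  apply red_of_fix
  rintro j hj ⟨x, y⟩ hfix
  set a : Module.End k X.V := LinearMap.fst k X.V Y.V ∘ₗ j ∘ₗ LinearMap.inl k X.V Y.V with ha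
  set b : Y.V →ₗ[k] X.V := LinearMap.fst k X.V Y.V ∘ₗ j ∘ₗ LinearMap.inr k X.V Y.V with hb
  set c : X.V →ₗ[k] Y.V := LinearMap.snd k X.V Y.V ∘ₗ j ∘ₗ LinearMap.inl k X.V Y.V with hc
  set d : Module.End k Y.V := LinearMap.snd k X.V Y.V ∘ₗ j ∘ₗ LinearMap.inr k X.V Y.V with hd
  have ta : IsTr X X a := tr_comp_left (eqv_fst X Y) (tr_comp_right (eqv_inl X Y) hj)
  have tb : IsTr Y X b := tr_comp_left (eqv_fst X Y) (tr_comp_right (eqv_inr X Y) hj)
  have tc : IsTr X Y c := tr_comp_left (eqv_snd X Y) (tr_comp_right (eqv_inl X Y) hj)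
  have td : IsTr Y Y d := tr_comp_left (eqv_snd X Y) (tr_comp_right (eqv_inr X Y) hj)
  have hsplit : j (x, y) = j (LinearMap.inl k X.V Y.V x) + j (LinearMap.inr k X.V Y.V y) := by
    rw [← map_add]
    simp
  have e1 : x = a x + b y := by
    have := congrArg Prod.fst (hfix.symm.trans hsplit)
    exact this
  have e2 : y = c x + d y := by
    have := congrArg Prod.snd (hfix.symm.trans hsplit)
    exact this
  obtain ⟨n, hn⟩ := hX a ta
  -- the inverse of `1 - a`
  have hu : ∀ m : ℕ, ∃ w : Module.End k X.V, Eqv X X w ∧ x = (a ^ m) x + w (b y) := by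
    intro m
    induction m with
    | zero =>
      refine ⟨0, fun g v => ?_, ?_⟩
      · simp
      · simp
    | succ m ih =>
      obtain ⟨w, hw1, hw2⟩ := ih
      refine ⟨w + a ^ m, eqv_add hw1 (eqv_pow (tr_eqv ta) m), ?_⟩
      have h4 : (a ^ m) x = (a ^ (m + 1)) x + (a ^ m) (b y) := by
        conv_lhs => rw [e1]
        rw [map_add, pow_succ, Module.End.mul_apply]
      rw [LinearMap.add_apply]
      calc x = (a ^ m) x + w (b y) := hw2
        _ = _ := by rw [h4]; abel
  obtain ⟨w, hw1, hw2⟩ := hu n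
  rw [hn, LinearMap.zero_apply, zero_add] at hw2
  have ht : IsTr Y Y (c ∘ₗ w ∘ₗ b + d) :=
    tr_add (tr_comp_right (eqv_comp hw1 (tr_eqv tb)) tc) td
  have hy : y = 0 := by
    refine nil_fix (hY _ ht) ?_
    show c (w (b y)) + d y = y
    rw [← hw2, ← e2]
  have hx : x = 0 := by
    rw [hw2, hy, map_zero, map_zero]
  rw [hx, hy]
  rfl

/-- a reduced retract of `C ⊕ P` embeds into `C` -/
theorem dim_le_of_retract (H : S_higman.{u, v}) {X C P : Ob k G} (hX : Red X) (hP : P.IsProj)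
    (i : X.V →ₗ[k] (C.prod P).V) (p : (C.prod P).V →ₗ[k] X.V) (hi : Eqv X (C.prod P) i)
    (hp : Eqv (C.prod P) X p) (hpi : ∀ x, p (i x) = x) : X.dim ≤ C.dim := by
  rw [proj_iff H] at hP
  have h1 : IsTr X X (p ∘ₗ (LinearMap.inr k C.V P.V ∘ₗ (LinearMap.id ∘ₗ
      (LinearMap.snd k C.V P.V ∘ₗ i)))) :=
    tr_comp_left hp (tr_comp_left (eqv_inr C P) (tr_comp_right
      (eqv_comp (eqv_snd C P) hi) hP))
  have hinj : Function.Injective (LinearMap.fst k C.V P.V ∘ₗ i) := by
    rw [← LinearMap.ker_eq_bot, LinearMap.ker_eq_bot']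
    intro x hx
    refine nil_fix (hX _ h1) ?_
    show p (0, (i x).2) = x
    have h2 : ((0, (i x).2) : C.V × P.V) = i x := by
      have h3 : (i x).1 = 0 := hx
      exact Prod.ext h3.symm rfl
    rw [h2, hpi]
  exact LinearMap.finrank_le_finrank_of_injective hinj

/-! ### the core -/

theorem exists_zero (H : S_higman.{u, v}) (A : Ob k G) :
    ∃ Z : Ob k G, Z.IsProj ∧ A.Iso (A.prod Z) := by
  refine ⟨⟨PUnit.{u + 1}, Representation.trivial k G PUnit.{u + 1}⟩, ?_, ?_⟩
  · rw [proj_iff H]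
    exact ⟨0, fun v => Subsingleton.elim (α := PUnit.{u + 1}) _ _⟩
  · refine Iso.mk' (LinearEquiv.prodUnique (R := k) (M := A.V) (M₂ := PUnit.{u + 1})).symm ?_
    intro g v
    rfl

theorem core_le {A B P : Ob k G} (hP : P.IsProj) (h : A.Iso (B.prod P)) :
    A.coreDim ≤ B.dim := Nat.sInf_le ⟨B, P, hP, h, rfl⟩

theorem core_mem (H : S_higman.{u, v}) (A : Ob k G) :
    ∃ B P : Ob k G, P.IsProj ∧ A.Iso (B.prod P) ∧ B.dim = A.coreDim := by
  obtain ⟨Z, hZ1, hZ2⟩ := exists_zero H A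
  have hne : {n : ℕ | ∃ B P : Ob k G, P.IsProj ∧ A.Iso (B.prod P) ∧ B.dim = n}.Nonempty :=
    ⟨A.dim, A, Z, hZ1, hZ2, rfl⟩
  exact Nat.sInf_mem hne

theorem four (A B C D : Ob k G) : ((A.prod B).prod (C.prod D)).Iso ((A.prod C).prod (B.prod D)) :=
  Iso.mk' (LinearEquiv.prodProdProdComm k A.V B.V C.V D.V) (fun g v => rfl)

theorem red_core (H : S_higman.{u, v}) {A B P : Ob k G} (hP : P.IsProj) (h : A.Iso (B.prod P))
    (hd : B.dim = A.coreDim) : Red B := by
  apply red_of_min H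
  intro C Q hQ hiso
  rw [hd]
  have h1 : A.Iso (C.prod (Q.prod P)) :=
    h.trans ((Iso.prod_congr hiso (Iso.refl P)).trans (prod_assoc C Q P))
  exact core_le (proj_prod H hQ hP) h1

/-- **T5.** -/
theorem proof_additive (H : S_higman.{u, v}) : S_additive.{u, v} := by
  intro k _ G _ _ A B
  obtain ⟨A0, P, hP, hA, hdA⟩ := core_mem H A
  obtain ⟨B0, Q, hQ, hB, hdB⟩ := core_mem H B
  obtain ⟨C, P2, hP2, hC, hdC⟩ := core_mem H (A.prod B)
  have hAB : (A.prod B).Iso ((A0.prod B0).prod (P.prod Q)) :=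
    (Iso.prod_congr hA hB).trans (four A0 P B0 Q)
  have hdim : (A0.prod B0).dim = A.coreDim + B.coreDim := by rw [dim_prod, hdA, hdB]
  apply le_antisymm
  · rw [← hdim]
    exact core_le (proj_prod H hP hQ) hAB
  · rw [← hdim, ← hdC]
    have hred : Red (A0.prod B0) := red_prod (red_core H hP hA hdA) (red_core H hQ hB hdB)
    obtain ⟨e, he⟩ := (hAB.symm.trans hC).exists_equiv
    have he' : ∀ g v, e.symm ((C.prod P2).ρ g v) =
        ((A0.prod B0).prod (P.prod Q)).ρ g (e.symm v) := by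
      intro g v
      apply e.injective
      rw [he, e.apply_symm_apply, e.apply_symm_apply]
    refine dim_le_of_retract H hred hP2
      (e.toLinearMap ∘ₗ LinearMap.inl k (A0.prod B0).V (P.prod Q).V)
      (LinearMap.fst k (A0.prod B0).V (P.prod Q).V ∘ₗ e.symm.toLinearMap) ?_ ?_ ?_
    · exact eqv_comp (fun g v => he g v) (eqv_inl _ _)
    · exact eqv_comp (eqv_fst _ _) (fun g v => he' g v)
    · intro x
      simp

end Pool.Agent.H404.GAM
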