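import Pool.Agent.H398.Gam.Iface

/-!
# GAM T3e: `V` is a direct summand of `V^* ⊗ Z` (by helper967 for helper398)
-/

set_option autoImplicit false
set_option linter.unusedVariables false

open scoped TensorProduct

namespace Pool.Agent.H967.Gam

open Pool.Agent.H398.Gam Pool.Agent.H398.Gam.Ob

universe u v

section

variable {k : Type u} [Field k] {G : Type v} [Group G]

/-- contraction of the second factor -/
noncomputable def ctr (V : Ob k G) (ξ : Module.Dual k V.V) : V.V ⊗[k] V.V →ₗ[k] V.V :=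
  (TensorProduct.rid k V.V).toLinearMap ∘ₗ (LinearMap.lTensor V.V ξ)

theorem ctr_tmul (V : Ob k G) (ξ : Module.Dual k V.V) (v w : V.V) :
    ctr V ξ (v ⊗ₜ[k] w) = ξ w • v := by
  unfold ctr
  rw [LinearMap.comp_apply, LinearMap.lTensor_tmul]
  exact TensorProduct.rid_tmul v (ξ w)

theorem ctr_add (V : Ob k G) (ξ η : Module.Dual k V.V) (x : V.V ⊗[k] V.V) :
    ctr V (ξ + η) x = ctr V ξ x + ctr V η x := by
  unfold ctr
  rw [LinearMap.lTensor_add, LinearMap.comp_apply, LinearMap.add_apply, map_add]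
  rfl

theorem ctr_smul (V : Ob k G) (c : k) (ξ : Module.Dual k V.V) (x : V.V ⊗[k] V.V) :
    ctr V (c • ξ) x = c • ctr V ξ x := by
  unfold ctr
  rw [LinearMap.lTensor_smul, LinearMap.comp_apply, LinearMap.smul_apply, map_smul]
  rfl

theorem ctr_eqv (V : Ob k G) (g : G) (ξ : Module.Dual k V.V) (x : V.V ⊗[k] V.V) :
    ctr V (V.dual.ρ g ξ) ((V.tens V).ρ g x) = V.ρ g (ctr V ξ x) := by
  have h : (ctr V (V.dual.ρ g ξ) ∘ₗ (V.tens V).ρ g : V.V ⊗[k] V.V →ₗ[k] V.V) =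
      V.ρ g ∘ₗ ctr V ξ := by
    apply TensorProduct.ext'
    intro v w
    show ctr V (V.dual.ρ g ξ) (V.ρ g v ⊗ₜ[k] V.ρ g w) = V.ρ g (ctr V ξ (v ⊗ₜ[k] w))
    rw [ctr_tmul, ctr_tmul, map_smul]
    have h2 : (V.dual.ρ g ξ) (V.ρ g w) = ξ w := by
      show ξ (V.ρ g⁻¹ (V.ρ g w)) = ξ w
      rw [Representation.inv_self_apply]
    rw [h2]
  exact congrArg (fun T => T x) h

/-- the map `V^* ⊗ Z → V` -/
noncomputable def TT {V Z : Ob k G} {ε : k} (Q : SQ V ε Z) :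
    Module.Dual k V.V ⊗[k] Z.V →ₗ[k] V.V :=
  TensorProduct.lift (LinearMap.mk₂ k (fun ξ z => ctr V ξ (Q.I z))
    (fun ξ η z => ctr_add V ξ η _) (fun c ξ z => ctr_smul V c ξ _)
    (fun ξ z z' => by rw [map_add]; exact map_add (ctr V ξ) _ _)
    (fun c ξ z => by rw [map_smul]; exact map_smul (ctr V ξ) _ _))

theorem TT_tmul {V Z : Ob k G} {ε : k} (Q : SQ V ε Z) (ξ : Module.Dual k V.V) (z : Z.V) :
    TT Q (ξ ⊗ₜ[k] z) = ctr V ξ (Q.I z) := rfl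

theorem TT_eqv {V Z : Ob k G} {ε : k} (Q : SQ V ε Z) : Eqv (V.dual.tens Z) V (TT Q) := by
  intro g x
  have h : (TT Q ∘ₗ (V.dual.tens Z).ρ g : Module.Dual k V.V ⊗[k] Z.V →ₗ[k] V.V) =
      V.ρ g ∘ₗ TT Q := by
    apply TensorProduct.ext'
    intro ξ z
    show TT Q (V.dual.ρ g ξ ⊗ₜ[k] Z.ρ g z) = V.ρ g (TT Q (ξ ⊗ₜ[k] z))
    rw [TT_tmul, TT_tmul, Q.hI g z]
    exact ctr_eqv V g ξ (Q.I z)
  exact congrArg (fun T => T x) h

/-- the map `V → Hom (V, Z)` -/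
noncomputable def SS {V Z : Ob k G} {ε : k} (Q : SQ V ε Z) : V.V →ₗ[k] V.V →ₗ[k] Z.V :=
  TensorProduct.curry Q.P

theorem SS_apply {V Z : Ob k G} {ε : k} (Q : SQ V ε Z) (v w : V.V) :
    SS Q v w = Q.P (v ⊗ₜ[k] w : V.V ⊗[k] V.V) := rfl

/-- `V^* ⊗ Z = Hom (V, Z)` -/
noncomputable def ee (V Z : Ob k G) : Module.Dual k V.V ⊗[k] Z.V ≃ₗ[k] (V.V →ₗ[k] Z.V) :=
  dualTensorHomEquivOfBasis (Module.finBasis k V.V)

theorem ee_tmul (V Z : Ob k G) (ξ : Module.Dual k V.V) (z : Z.V) (w : V.V) :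
    ee V Z (ξ ⊗ₜ[k] z) w = ξ w • z := rfl

theorem ee_eqv (V Z : Ob k G) (g : G) (x : Module.Dual k V.V ⊗[k] Z.V) (w : V.V) :
    ee V Z ((V.dual.tens Z).ρ g x) w = Z.ρ g (ee V Z x (V.ρ g⁻¹ w)) := by
  have h : ((LinearMap.applyₗ w) ∘ₗ (ee V Z).toLinearMap ∘ₗ (V.dual.tens Z).ρ g :
      Module.Dual k V.V ⊗[k] Z.V →ₗ[k] Z.V) =
      Z.ρ g ∘ₗ (LinearMap.applyₗ (V.ρ g⁻¹ w)) ∘ₗ (ee V Z).toLinearMap := by
    apply TensorProduct.ext'
    intro ξ z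
    show ee V Z (V.dual.ρ g ξ ⊗ₜ[k] Z.ρ g z) w = Z.ρ g (ee V Z (ξ ⊗ₜ[k] z) (V.ρ g⁻¹ w))
    rw [ee_tmul, ee_tmul, map_smul]
    rfl
  exact congrArg (fun T => T x) h

theorem ee_symm (V Z : Ob k G) (f : V.V →ₗ[k] Z.V) : (ee V Z).symm f =
    ∑ j, (Module.finBasis k V.V).coord j ⊗ₜ[k] f (Module.finBasis k V.V j) := by
  rw [LinearEquiv.symm_apply_eq]
  apply (Module.finBasis k V.V).ext
  intro i
  rw [map_sum, LinearMap.sum_apply]
  simp only [ee_tmul, Module.Basis.coord_apply, Module.Basis.repr_self]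
  rw [Finset.sum_eq_single i]
  · rw [Finsupp.single_eq_same, one_smul]
  · intro j _ hj
    rw [Finsupp.single_eq_of_ne hj, zero_smul]
  · intro h
    exact absurd (Finset.mem_univ i) h

theorem T_S {V Z : Ob k G} {ε : k} (Q : SQ V ε Z) (v : V.V) :
    TT Q ((ee V Z).symm (SS Q v)) = ((2 : k)⁻¹ * ((V.dim : k) + ε)) • v := by
  rw [ee_symm, map_sum]
  have h1 : ∀ j, TT Q ((Module.finBasis k V.V).coord j ⊗ₜ[k]
      SS Q v (Module.finBasis k V.V j)) =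
      (2 : k)⁻¹ • (v + ε • ((Module.finBasis k V.V).repr v j • Module.finBasis k V.V j)) := by
    intro j
    rw [TT_tmul, SS_apply, Q.IP]
    refine (map_smul (ctr V _) _ _).trans ?_
    congr 1
    refine (map_add (ctr V _) _ _).trans ?_
    rw [ctr_tmul]
    congr 1
    · rw [Module.Basis.coord_apply, Module.Basis.repr_self, Finsupp.single_eq_same, one_smul]
    · refine (map_smul (ctr V _) _ _).trans ?_
      rw [ctr_tmul, Module.Basis.coord_apply]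
  rw [Finset.sum_congr rfl fun j _ => h1 j, ← Finset.smul_sum, Finset.sum_add_distrib,
    ← Finset.smul_sum, Module.Basis.sum_repr, Finset.sum_const, Finset.card_univ,
    Fintype.card_fin, mul_smul, add_smul, Nat.cast_smul_eq_nsmul]
  rfl

end

theorem proof_sqContract : S_sqContract.{u, v} := by
  intro k _ G _ V Z ε h2 hε Q hd
  have hc : (2 : k)⁻¹ * ((V.dim : k) + ε) ≠ 0 :=
    mul_ne_zero (inv_ne_zero h2) fun h => hd (eq_neg_of_add_eq_zero_left h)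
  have hS : Eqv V (V.dual.tens Z) ((ee V Z).symm.toLinearMap ∘ₗ SS Q) := by
    intro g v
    apply (ee V Z).injective
    show ee V Z ((ee V Z).symm (SS Q (V.ρ g v))) =
      ee V Z ((V.dual.tens Z).ρ g ((ee V Z).symm (SS Q v)))
    rw [LinearEquiv.apply_symm_apply]
    apply LinearMap.ext
    intro w
    rw [ee_eqv, LinearEquiv.apply_symm_apply, SS_apply, SS_apply]
    have h3 := Q.hP g (v ⊗ₜ[k] V.ρ g⁻¹ w : V.V ⊗[k] V.V)
    rw [← h3]
    show Q.P (V.ρ g v ⊗ₜ[k] w : V.V ⊗[k] V.V) =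
      Q.P (V.ρ g v ⊗ₜ[k] V.ρ g (V.ρ g⁻¹ w) : V.V ⊗[k] V.V)
    rw [Representation.self_inv_apply]
  have hT : Eqv (V.dual.tens Z) V (((2 : k)⁻¹ * ((V.dim : k) + ε))⁻¹ • TT Q) := by
    intro g x
    show ((2 : k)⁻¹ * ((V.dim : k) + ε))⁻¹ • TT Q ((V.dual.tens Z).ρ g x) =
      V.ρ g (((2 : k)⁻¹ * ((V.dim : k) + ε))⁻¹ • TT Q x)
    rw [TT_eqv Q g x, map_smul]
  obtain ⟨C, -, -, -, -, -, -, -, h⟩ := Ob.compl V (V.dual.tens Z)
    ((ee V Z).symm.toLinearMap ∘ₗ SS Q) (((2 : k)⁻¹ * ((V.dim : k) + ε))⁻¹ • TT Q) hS hT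
    (fun v => by
      show ((2 : k)⁻¹ * ((V.dim : k) + ε))⁻¹ • TT Q ((ee V Z).symm (SS Q v)) = v
      rw [T_S, smul_smul, inv_mul_cancel₀ hc, one_smul])
  exact ⟨C, h⟩

end Pool.Agent.H967.Gam
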