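import Pool.Agent.H398.Gam.Iface

/-!
# `V ⊗ V^*` and its traceless part are summands of `Z ⊗ Z^*`, `Z` the symmetric or exterior square

Proof by the trace over the second factor.
-/

set_option autoImplicit false
set_option linter.unusedSectionVars false

open scoped TensorProduct

namespace Pool.Agent.H935.Gam

open Pool.Agent.H398.Gam Ob

universe u v

section lin

variable {k : Type u} [Field k] {V Z : Type u} [AddCommGroup V] [Module k V] [AddCommGroup Z]
  [Module k Z] {J : Type} [Fintype J] [DecidableEq J] (b : Module.Basis J k V)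

/-- contraction of the second factor -/
noncomputable def con (φ : Module.Dual k V) : V ⊗[k] V →ₗ[k] V :=
  (TensorProduct.rid k V).toLinearMap ∘ₗ LinearMap.lTensor V φ

theorem con_tmul (φ : Module.Dual k V) (v w : V) : con φ (v ⊗ₜ[k] w) = φ w • v := by
  simp [con]

theorem con_add (φ ψ : Module.Dual k V) (x : V ⊗[k] V) : con (φ + ψ) x = con φ x + con ψ x := by
  simp [con, LinearMap.lTensor_add]

theorem con_smul (c : k) (φ : Module.Dual k V) (x : V ⊗[k] V) : con (c • φ) x = c • con φ x := by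
  simp [con, LinearMap.lTensor_smul]

/-- contraction and the group action -/
theorem con_map (φ : Module.Dual k V) (g : V →ₗ[k] V) (x : V ⊗[k] V) :
    con φ (TensorProduct.map g g x) = g (con (φ ∘ₗ g) x) := by
  induction x using TensorProduct.induction_on with
  | zero => simp
  | tmul a b => rw [TensorProduct.map_tmul, con_tmul, con_tmul, map_smul]; rfl
  | add x y hx hy => rw [map_add, map_add, hx, hy, map_add, map_add]

/-- the canonical element of `V^* ⊗ V` is invariant -/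
theorem canon {X : Type u} [AddCommGroup X] [Module k X] (Φ : Module.Dual k V →ₗ[k] V →ₗ[k] X)
    (g h : V →ₗ[k] V) (hgh : ∀ v, h (g v) = v) :
    ∑ j, Φ (b.coord j ∘ₗ g) (h (b j)) = ∑ j, Φ (b.coord j) (b j) := by
  have h1 : ∀ j, b.coord j ∘ₗ g = ∑ l, b.coord j (g (b l)) • b.coord l := by
    intro j
    apply b.ext
    intro m
    simp [Finsupp.single_apply]
  calc ∑ j, Φ (b.coord j ∘ₗ g) (h (b j))
      = ∑ j, ∑ l, b.coord j (g (b l)) • Φ (b.coord l) (h (b j)) := by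
        refine Finset.sum_congr rfl fun j _ => ?_
        rw [h1 j, map_sum, LinearMap.sum_apply]
        refine Finset.sum_congr rfl fun l _ => ?_
        rw [map_smul, LinearMap.smul_apply]
    _ = ∑ l, Φ (b.coord l) (h (∑ j, b.coord j (g (b l)) • b j)) := by
        rw [Finset.sum_comm]
        refine Finset.sum_congr rfl fun l _ => ?_
        rw [map_sum, map_sum]
        refine Finset.sum_congr rfl fun j _ => ?_
        rw [map_smul, map_smul]
    _ = ∑ l, Φ (b.coord l) (b l) := by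
        refine Finset.sum_congr rfl fun l _ => ?_
        have h2 : ∑ j, b.coord j (g (b l)) • b j = g (b l) := b.sum_repr (g (b l))
        rw [h2, hgh]

/-- trace of `I Y P` over the second factor -/
noncomputable def ptr (I : Z →ₗ[k] V ⊗[k] V) (P : V ⊗[k] V →ₗ[k] Z) :
    (Z →ₗ[k] Z) →ₗ[k] (V →ₗ[k] V) where
  toFun Y := ∑ j, (con (b.coord j) ∘ₗ I) ∘ₗ Y ∘ₗ (P ∘ₗ (TensorProduct.mk k V V).flip (b j))
  map_add' Y Y' := by
    rw [← Finset.sum_add_distrib]
    refine Finset.sum_congr rfl fun j _ => ?_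
    rw [LinearMap.add_comp, LinearMap.comp_add]
  map_smul' c Y := by
    rw [RingHom.id_apply, Finset.smul_sum]
    refine Finset.sum_congr rfl fun j _ => ?_
    rw [LinearMap.smul_comp, LinearMap.comp_smul]

theorem ptr_apply (I : Z →ₗ[k] V ⊗[k] V) (P : V ⊗[k] V →ₗ[k] Z) (Y : Z →ₗ[k] Z) (v : V) :
    ptr b I P Y v = ∑ j, con (b.coord j) (I (Y (P (v ⊗ₜ[k] b j)))) := by
  change (∑ j, (con (b.coord j) ∘ₗ I) ∘ₗ Y ∘ₗ (P ∘ₗ (TensorProduct.mk k V V).flip (b j))) v = _
  rw [LinearMap.sum_apply]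
  rfl

/-- `X ↦ P (X ⊗ 1) I` -/
noncomputable def FF (I : Z →ₗ[k] V ⊗[k] V) (P : V ⊗[k] V →ₗ[k] Z) :
    (V →ₗ[k] V) →ₗ[k] (Z →ₗ[k] Z) where
  toFun X := P ∘ₗ (LinearMap.rTensor V X) ∘ₗ I
  map_add' X X' := by
    rw [LinearMap.rTensor_add, LinearMap.add_comp, LinearMap.comp_add]
  map_smul' c X := by
    rw [RingHom.id_apply, LinearMap.rTensor_smul, LinearMap.smul_comp, LinearMap.comp_smul]

theorem FF_apply (I : Z →ₗ[k] V ⊗[k] V) (P : V ⊗[k] V →ₗ[k] Z) (X : V →ₗ[k] V) (z : Z) :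
    FF I P X z = P (LinearMap.rTensor V X (I z)) := rfl

/-- the composition -/
theorem ptr_FF (I : Z →ₗ[k] V ⊗[k] V) (P : V ⊗[k] V →ₗ[k] Z) {ε : k} (hε : ε * ε = 1)
    (hE : ∀ v w : V, I (P (v ⊗ₜ[k] w)) = (2 : k)⁻¹ • (v ⊗ₜ[k] w + ε • w ⊗ₜ[k] v))
    (X : V →ₗ[k] V) (v : V) :
    ptr b I P (FF I P X) v =
      ((2 : k)⁻¹ * (2 : k)⁻¹) • (((Fintype.card J : k) + 2 * ε) • X v + LinearMap.trace k V X • v) := by
  have h1 : ∀ j, con (b.coord j) (I (FF I P X (P (v ⊗ₜ[k] b j)))) =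
      ((2 : k)⁻¹ * (2 : k)⁻¹) • (X v + ε • (b.coord j (X v) • b j) + ε • X (b.coord j v • b j) +
        b.coord j (X (b j)) • v) := by
    intro j
    have e1 : LinearMap.rTensor V X (I (P (v ⊗ₜ[k] b j))) =
        (2 : k)⁻¹ • (X v ⊗ₜ[k] b j + ε • X (b j) ⊗ₜ[k] v) := by
      rw [hE]
      simp only [map_smul, map_add, LinearMap.rTensor_tmul]
    rw [FF_apply, e1]
    simp only [map_smul, map_add]
    rw [hE, hE]
    simp only [map_smul, map_add, con_tmul, smul_add, smul_smul]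
    have h2 : b.coord j (b j) = 1 := by simp
    rw [h2]
    have h3 : (2 : k)⁻¹ * (ε * ((2 : k)⁻¹ * ε * b.coord j (X (b j)))) =
        (2 : k)⁻¹ * (2 : k)⁻¹ * b.coord j (X (b j)) := by
      linear_combination ((2 : k)⁻¹ * (2 : k)⁻¹ * b.coord j (X (b j))) * hε
    rw [h3]
    module
  have hX : ∀ w : V, ∑ j, b.coord j w • b j = w := fun w => b.sum_repr w
  have hX2 : ∑ j, X (b.coord j v • b j) = X v := by rw [← map_sum, hX]
  have htr : ∑ j, b.coord j (X (b j)) = LinearMap.trace k V X := by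
    rw [LinearMap.trace_eq_matrix_trace k b X, Matrix.trace]
    refine Finset.sum_congr rfl fun j _ => ?_
    rw [Matrix.diag_apply, LinearMap.toMatrix_apply, Module.Basis.coord_apply]
  rw [ptr_apply, Finset.sum_congr rfl fun j _ => h1 j, ← Finset.smul_sum,
    Finset.sum_add_distrib, Finset.sum_add_distrib, Finset.sum_add_distrib, ← Finset.smul_sum,
    ← Finset.smul_sum, hX, hX2, ← Finset.sum_smul, htr, Finset.sum_const,
    Finset.card_univ, ← Nat.cast_smul_eq_nsmul k]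
  module

end lin

variable {k : Type u} [Field k] {G : Type v} [Group G]

/-- `V ⊗ V^*` is `Hom (V, V)` -/
theorem tens_dual_iso (V : Ob k G) : (V.tens V.dual).Iso (Ob.hom V V) := by
  refine (tens_comm _ _).trans ?_
  refine Iso.tens_mk (C := Ob.hom V V) (dualTensorHomEquiv k V.V V.V) (fun g a b => ?_)
  apply LinearMap.ext
  intro v
  have h1 : ∀ (φ : Module.Dual k V.V) (x y : V.V),
      dualTensorHomEquiv k V.V V.V (φ ⊗ₜ[k] x) y = φ y • x := fun φ x y =>
    dualTensorHom_apply φ y x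
  refine (h1 _ _ _).trans ?_
  refine Eq.trans ?_ (congrArg (V.ρ g) (h1 a b (V.ρ g⁻¹ v))).symm
  rw [map_smul]
  rfl

theorem hom_ρ (V : Ob k G) (g : G) (X : (Ob.hom V V).V) (v : V.V) :
    (Ob.hom V V).ρ g X v = V.ρ g (X (V.ρ g⁻¹ v)) := rfl

theorem inv_ρ (V : Ob k G) (g : G) (v : V.V) : V.ρ g⁻¹ (V.ρ g v) = v := by
  rw [← Module.End.mul_apply, ← map_mul, inv_mul_cancel, map_one]
  rfl

theorem ρ_inv (V : Ob k G) (g : G) (v : V.V) : V.ρ g (V.ρ g⁻¹ v) = v := by
  rw [← Module.End.mul_apply, ← map_mul, mul_inv_cancel, map_one]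
  rfl

/-- equivariance of `FF` -/
theorem FF_eqv {V Z : Ob k G} {ε : k} (q : SQ V ε Z) :
    Eqv (Ob.hom V V) (Ob.hom Z Z) (FF q.I q.P) := by
  intro g X
  apply LinearMap.ext
  intro z
  rw [hom_ρ, FF_apply, FF_apply, q.hI, ← q.hP]
  congr 1
  generalize (q.I z) = x
  induction x using TensorProduct.induction_on with
  | zero => simp
  | tmul a b =>
    rw [tens_ρ_tmul, LinearMap.rTensor_tmul, LinearMap.rTensor_tmul, tens_ρ_tmul, ρ_inv]
    rfl
  | add x y hx hy => rw [map_add, map_add, map_add, map_add, hx, hy]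

/-- equivariance of `ptr` -/
theorem ptr_eqv {V Z : Ob k G} {ε : k} (q : SQ V ε Z) {J : Type} [Fintype J] [DecidableEq J]
    (b : Module.Basis J k V.V) : Eqv (Ob.hom Z Z) (Ob.hom V V) (ptr b q.I q.P) := by
  intro g Y
  apply LinearMap.ext
  intro v
  rw [hom_ρ, ptr_apply, ptr_apply, map_sum]
  let Φ : Module.Dual k V.V →ₗ[k] V.V →ₗ[k] V.V :=
    LinearMap.mk₂ k (fun φ w => V.ρ g (con φ (q.I (Y (q.P (V.ρ g⁻¹ v ⊗ₜ[k] w))))))
      (fun φ ψ w => by rw [con_add, map_add]) (fun c φ w => by rw [con_smul, map_smul])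
      (fun φ w w' => by rw [TensorProduct.tmul_add]; simp only [map_add])
      (fun c φ w => by rw [TensorProduct.tmul_smul]; simp only [map_smul])
  have h := canon b Φ (V.ρ g) (V.ρ g⁻¹) (fun v => inv_ρ V g v)
  refine Eq.trans ?_ h
  refine Finset.sum_congr rfl fun j _ => ?_
  change con (b.coord j) (q.I (Z.ρ g (Y (Z.ρ g⁻¹ (q.P (v ⊗ₜ[k] b j)))))) =
    V.ρ g (con (b.coord j ∘ₗ V.ρ g) (q.I (Y (q.P (V.ρ g⁻¹ v ⊗ₜ[k] V.ρ g⁻¹ (b j))))))
  rw [q.hI, ← con_map, ← q.hP]
  rfl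

/-- the trace is invariant -/
theorem trace_inv (V : Ob k G) (g : G) (X : V.V →ₗ[k] V.V) :
    LinearMap.trace k V.V ((Ob.hom V V).ρ g X) = LinearMap.trace k V.V X := by
  have h1 : (Ob.hom V V).ρ g X = V.ρ g ∘ₗ (X ∘ₗ V.ρ g⁻¹) := rfl
  rw [h1, LinearMap.trace_comp_comm', LinearMap.comp_assoc]
  congr 1
  apply LinearMap.ext
  intro v
  change X (V.ρ g⁻¹ (V.ρ g v)) = X v
  rw [inv_ρ]

theorem hom_id (V : Ob k G) (g : G) : (Ob.hom V V).ρ g (LinearMap.id : V.V →ₗ[k] V.V) =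
    LinearMap.id := by
  apply LinearMap.ext
  intro v
  exact ρ_inv V g v

theorem trace_id (V : Ob k G) : LinearMap.trace k V.V LinearMap.id = (V.dim : k) :=
  LinearMap.trace_id k V.V

/-- the basic identity -/
theorem key {V Z : Ob k G} {ε : k} (hε : ε * ε = 1) (q : SQ V ε Z) (X : V.V →ₗ[k] V.V) :
    ptr (Module.finBasis k V.V) q.I q.P (FF q.I q.P X) =
      ((2 : k)⁻¹ * (2 : k)⁻¹) • (((V.dim : k) + 2 * ε) • X +
        LinearMap.trace k V.V X • LinearMap.id) := by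
  apply LinearMap.ext
  intro v
  have h := ptr_FF (Module.finBasis k V.V) q.I q.P hε q.IP X v
  rw [Fintype.card_fin] at h
  exact h

theorem proof_sqEnd : S_sqEnd.{u, v} := by
  intro k _ G _ V Z ε h2 hε q hd1 hd2
  have hd1' : (V.dim : k) + 2 * ε ≠ 0 := fun h => hd1 (by linear_combination h)
  have hd2' : (V.dim : k) + ε ≠ 0 := fun h => hd2 (by linear_combination h)
  set d : k := (V.dim : k) with hd
  set H := ptr (Module.finBasis k V.V) q.I q.P with hH
  let T : (Ob.hom Z Z).V →ₗ[k] (Ob.hom V V).V :=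
    (4 * (d + 2 * ε)⁻¹) • H + (LinearMap.toSpanSingleton k (V.V →ₗ[k] V.V) LinearMap.id) ∘ₗ
      ((-(4 * (d + 2 * ε)⁻¹ * (2 * (d + ε))⁻¹)) • (LinearMap.trace k V.V ∘ₗ H))
  have hT : ∀ Y, T Y = (4 * (d + 2 * ε)⁻¹) • H Y +
      ((-(4 * (d + 2 * ε)⁻¹ * (2 * (d + ε))⁻¹)) * LinearMap.trace k V.V (H Y)) •
        (LinearMap.id : V.V →ₗ[k] V.V) := fun Y => rfl
  obtain ⟨C, -, -, -, -, -, -, -, hiso⟩ := compl (Ob.hom V V) (Ob.hom Z Z) (FF q.I q.P) T
    (FF_eqv q) (fun g Y => by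
      rw [hT, hT, ptr_eqv q _ g Y, trace_inv, map_add, map_smul, map_smul, hom_id])
    (fun X => by
      rw [hT, hH, key hε q X, map_smul, map_add, map_smul, map_smul, trace_id]
      apply LinearMap.ext
      intro v
      simp only [LinearMap.add_apply, LinearMap.smul_apply, LinearMap.id_apply, smul_eq_mul]
      rw [← hd]
      match_scalars
      · field_simp
        norm_num
      · field_simp
        ring)
  exact ⟨C, (tens_dual_iso Z).trans (hiso.trans
    (Iso.prod_congr (tens_dual_iso V).symm (Iso.refl C)))⟩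

theorem proof_sqTraceless : S_sqTraceless.{u, v} := by
  intro k _ G _ V Z ε h2 hε q hd1 hd2
  have hd1' : (V.dim : k) + 2 * ε ≠ 0 := fun h => hd1 (by linear_combination h)
  set d : k := (V.dim : k) with hd
  set H := ptr (Module.finBasis k V.V) q.I q.P with hH
  let S0 : (one k G).V →ₗ[k] (Ob.hom V V).V :=
    LinearMap.toSpanSingleton k (V.V →ₗ[k] V.V) LinearMap.id
  let T0 : (Ob.hom V V).V →ₗ[k] (one k G).V := d⁻¹ • LinearMap.trace k V.V
  have hS0 : ∀ c, S0 c = (c : k) • (LinearMap.id : V.V →ₗ[k] V.V) := fun c => rfl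
  have hT0 : ∀ X, T0 X = d⁻¹ * LinearMap.trace k V.V X := fun X => rfl
  obtain ⟨T, I, P, hI, hP, hPI, hIP, hTI, hiso⟩ := compl (one k G) (Ob.hom V V) S0 T0
    (fun g c => by
      rw [hS0, hS0, map_smul, hom_id]
      rfl)
    (fun g X => by
      rw [hT0, trace_inv]
      rfl)
    (fun c => by
      rw [hT0, hS0, map_smul, trace_id, smul_eq_mul, ← hd]
      field_simp)
  have htr : ∀ c, LinearMap.trace k V.V (I c) = 0 := by
    intro c
    have h := hTI c
    rw [hT0] at h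
    exact (mul_eq_zero.1 h).resolve_left (inv_ne_zero hd2)
  obtain ⟨C, -, -, -, -, -, -, -, hiso'⟩ := compl T (Ob.hom Z Z) (FF q.I q.P ∘ₗ I)
    ((4 * (d + 2 * ε)⁻¹) • (P ∘ₗ H))
    (fun g c => by
      rw [LinearMap.comp_apply, hI, FF_eqv q]
      rfl)
    (fun g Y => by
      rw [LinearMap.smul_apply, LinearMap.comp_apply, ptr_eqv q _ g Y, hP, ← map_smul]
      rfl)
    (fun c => by
      rw [LinearMap.comp_apply, LinearMap.smul_apply, LinearMap.comp_apply, hH, key hε q, htr,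
        zero_smul, add_zero, map_smul, map_smul, hPI, smul_smul, smul_smul, ← hd]
      have h3 : 4 * (d + 2 * ε)⁻¹ * ((2 : k)⁻¹ * (2 : k)⁻¹ * (d + 2 * ε)) = 1 := by
        field_simp
        norm_num
      rw [show (4 * (d + 2 * ε)⁻¹ * ((2 : k)⁻¹ * (2 : k)⁻¹) * (d + 2 * ε)) = 1 from by
        rw [← h3]; ring, one_smul])
  exact ⟨T, C, (tens_dual_iso V).trans hiso, (tens_dual_iso Z).trans hiso'⟩

end Pool.Agent.H935.Gam
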