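import Pool.Agent.H398.Gam.Iface

/-!
# Splitting of the tensor square and dimensions
-/

set_option autoImplicit false

open scoped TensorProduct

namespace Pool.Agent.H729.GAM

open Pool.Agent.H398.Gam Pool.Agent.H398.Gam.Ob

universe u v

variable {k : Type u} [Field k] {G : Type v} [Group G]

/-- the trace of the swap -/
theorem trace_swap (V : Type u) [AddCommGroup V] [Module k V] [FiniteDimensional k V] :
    LinearMap.trace k (V ⊗[k] V) (TensorProduct.comm k V V).toLinearMap =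
      (Module.finrank k V : k) := by
  classical
  let b := Module.finBasis k V
  rw [LinearMap.trace_eq_matrix_trace k (b.tensorProduct b)]
  unfold Matrix.trace
  simp only [Matrix.diag_apply, LinearMap.toMatrix_apply]
  rw [Fintype.sum_prod_type]
  have h : ∀ i j, (b.tensorProduct b).repr ((TensorProduct.comm k V V).toLinearMap
      ((b.tensorProduct b) (i, j))) (i, j) = if i = j then (1 : k) else 0 := by
    intro i j
    rw [Module.Basis.tensorProduct_apply]
    simp only [LinearEquiv.coe_coe, TensorProduct.comm_tmul,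
      Module.Basis.tensorProduct_repr_tmul_apply, Module.Basis.repr_self, smul_eq_mul]
    rw [Finsupp.single_apply, Finsupp.single_apply]
    by_cases hij : i = j
    · simp [hij]
    · simp [hij]
  simp only [h]
  simp

/-- the range of an equivariant idempotent -/
theorem split (W : Ob k G) (E : W.V →ₗ[k] W.V) (hE : Eqv W W E) (hEE : ∀ w, E (E w) = E w) :
    ∃ (Z : Ob k G) (I : Z.V →ₗ[k] W.V) (P : W.V →ₗ[k] Z.V), Eqv Z W I ∧ Eqv W Z P ∧
      (∀ z, P (I z) = z) ∧ (∀ w, I (P w) = E w) ∧ (Z.dim : k) = LinearMap.trace k W.V E := by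
  have hinv : ∀ g, LinearMap.range E ≤ (LinearMap.range E).comap (W.ρ g) := by
    rintro g _ ⟨w, rfl⟩
    exact ⟨W.ρ g w, hE g w⟩
  obtain ⟨Z, I, P, hinj, hI, hIP, hsurj⟩ : ∃ (Z : Ob k G) (I : Z.V →ₗ[k] W.V)
      (P : W.V →ₗ[k] Z.V), Function.Injective I ∧ Eqv Z W I ∧ (∀ w, I (P w) = E w) ∧
      ∀ z, ∃ w, I z = E w :=
    ⟨⟨LinearMap.range E, W.ρ.subrepresentation (LinearMap.range E) hinv⟩,
      (LinearMap.range E).subtype, LinearMap.codRestrict (LinearMap.range E) E fun w => ⟨w, rfl⟩,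
      Subtype.val_injective, fun g v => rfl, fun w => rfl, fun z => by
        obtain ⟨w, hw⟩ := z.2
        exact ⟨w, hw.symm⟩⟩
  have hPI : ∀ z, P (I z) = z := by
    intro z
    apply hinj
    obtain ⟨w, hw⟩ := hsurj z
    rw [hIP, hw, hEE]
  have hP : Eqv W Z P := by
    intro g v
    apply hinj
    rw [hI, hIP, hIP, hE]
  refine ⟨Z, I, P, hI, hP, hPI, hIP, ?_⟩
  have e1 : I ∘ₗ P = E := LinearMap.ext fun w => hIP w
  have e2 : P ∘ₗ I = LinearMap.id := LinearMap.ext fun z => hPI z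
  rw [← e1, ← LinearMap.trace_comp_comm' I P, e2, LinearMap.trace_id]
  rfl

/-- the idempotent `(1 + ε swap) / 2` -/
noncomputable def Em (V : Ob k G) (ε : k) : (V.tens V).V →ₗ[k] (V.tens V).V :=
  (2 : k)⁻¹ • (LinearMap.id + ε • (TensorProduct.comm k V.V V.V).toLinearMap)

theorem Em_apply (V : Ob k G) (ε : k) (x : V.V ⊗[k] V.V) :
    Em V ε x = (2 : k)⁻¹ • (x + ε • TensorProduct.comm k V.V V.V x) := rfl

theorem comm_comm (V : Ob k G) (x : V.V ⊗[k] V.V) :
    TensorProduct.comm k V.V V.V (TensorProduct.comm k V.V V.V x) = x := by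
  have h : (TensorProduct.comm k V.V V.V).toLinearMap ∘ₗ
      (TensorProduct.comm k V.V V.V).toLinearMap = LinearMap.id :=
    TensorProduct.ext' fun _ _ => rfl
  exact congrArg (fun T => T x) h

theorem Em_Em (V : Ob k G) (ε : k) (h2 : (2 : k) ≠ 0) (hε : ε * ε = 1) (x : V.V ⊗[k] V.V) :
    Em V ε (Em V ε x) = Em V ε x := by
  rw [Em_apply, Em_apply, map_smul, map_add, map_smul, comm_comm]
  have h : ∀ y : V.V ⊗[k] V.V, (2 : k)⁻¹ • ((2 : k)⁻¹ • (x + ε • y) +
      ε • (2 : k)⁻¹ • (y + ε • x)) = (2 : k)⁻¹ • (x + ε • y) := by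
    intro y
    have e1 : (2 : k)⁻¹ • ((2 : k)⁻¹ • (x + ε • y) + ε • (2 : k)⁻¹ • (y + ε • x)) =
        ((2 : k)⁻¹ * (2 : k)⁻¹ * (1 + ε * ε)) • x +
          ((2 : k)⁻¹ * (2 : k)⁻¹ * 2 * ε) • y := by
      module
    have e2 : (2 : k)⁻¹ * (2 : k)⁻¹ * (1 + ε * ε) = (2 : k)⁻¹ := by
      rw [hε]
      field_simp
      norm_num
    have e3 : (2 : k)⁻¹ * (2 : k)⁻¹ * 2 * ε = (2 : k)⁻¹ * ε := by
      field_simp
    rw [e1, e2, e3]
    module
  exact h _

theorem Em_eqv (V : Ob k G) (ε : k) : Eqv (V.tens V) (V.tens V) (Em V ε) := by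
  intro g x
  have h : (TensorProduct.comm k V.V V.V).toLinearMap ∘ₗ (V.tens V).ρ g =
      (V.tens V).ρ g ∘ₗ (TensorProduct.comm k V.V V.V).toLinearMap :=
    TensorProduct.ext' fun _ _ => rfl
  have h1 : TensorProduct.comm k V.V V.V ((V.tens V).ρ g x) =
      (V.tens V).ρ g (TensorProduct.comm k V.V V.V x) := congrArg (fun T => T x) h
  rw [Em_apply, Em_apply, h1, map_smul, map_add, map_smul]

theorem trace_Em (V : Ob k G) (ε : k) :
    LinearMap.trace k (V.tens V).V (Em V ε) = 2⁻¹ * ((V.dim : k) ^ 2 + ε * V.dim) := by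
  unfold Em
  rw [map_smul, map_add, map_smul, LinearMap.trace_id]
  have h := trace_swap (k := k) V.V
  have h2 : Module.finrank k (V.tens V).V = V.dim * V.dim := dim_tens V V
  rw [h2]
  have h3 : LinearMap.trace k (V.tens V).V (TensorProduct.comm k V.V V.V).toLinearMap =
      (V.dim : k) := h
  rw [h3, smul_eq_mul, smul_eq_mul]
  push_cast
  ring

theorem proof_sqExists : S_sqExists.{u, v} := by
  intro k _ G _ V ε h2 hε
  have hε' : (-ε) * (-ε) = 1 := by rw [neg_mul_neg, hε]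
  obtain ⟨Z, I, P, hI, hP, hPI, hIP, hd⟩ := split (V.tens V) (Em V ε) (Em_eqv V ε)
    (Em_Em V ε h2 hε)
  obtain ⟨Z', I', P', hI', hP', hPI', hIP', hd'⟩ := split (V.tens V) (Em V (-ε)) (Em_eqv V (-ε))
    (Em_Em V (-ε) h2 hε')
  have hsum : ∀ x : V.V ⊗[k] V.V, Em V ε x + Em V (-ε) x = x := by
    intro x
    rw [Em_apply, Em_apply]
    have e : (2 : k)⁻¹ • (x + ε • TensorProduct.comm k V.V V.V x) +
        (2 : k)⁻¹ • (x + -ε • TensorProduct.comm k V.V V.V x) = ((2 : k)⁻¹ * 2) • x := by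
      module
    rw [e, inv_mul_cancel₀ h2, one_smul]
  have hI0 : Function.Injective I := Function.LeftInverse.injective hPI
  have hI0' : Function.Injective I' := Function.LeftInverse.injective hPI'
  have h1 : ∀ z', P (I' z') = 0 := by
    intro z'
    apply hI0
    rw [hIP, map_zero]
    have e1 := hsum (I' z')
    rw [← hIP' (I' z'), hPI'] at e1
    exact add_eq_right.mp e1
  have h1' : ∀ z, P' (I z) = 0 := by
    intro z
    apply hI0'
    rw [hIP', map_zero]
    have e1 := hsum (I z)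
    rw [← hIP (I z), hPI] at e1
    exact add_eq_left.mp e1
  refine ⟨Z, Z', ⟨⟨I, P, hI, hP, hPI, ?_⟩⟩, ⟨⟨I', P', hI', hP', hPI', ?_⟩⟩, ?_, ?_, ?_⟩
  · intro v w
    rw [hIP]
    rfl
  · intro v w
    rw [hIP']
    rfl
  · refine Iso.mk' (LinearEquiv.ofLinearMap (P.prod P') (I.coprod I') ?_ ?_) ?_
    · apply LinearMap.ext
      rintro ⟨a, c⟩
      simp [hPI, hPI', h1, h1']
    · apply LinearMap.ext
      intro w
      change I (P w) + I' (P' w) = w
      rw [hIP, hIP']
      exact hsum w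
    · intro g v
      change ((P ((V.tens V).ρ g v), P' ((V.tens V).ρ g v)) : Z.V × Z'.V) =
        (Z.ρ g (P v), Z'.ρ g (P' v))
      rw [hP, hP']
  · rw [hd, trace_Em]
  · rw [hd', trace_Em]
    ring

end Pool.Agent.H729.GAM
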