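import Pool.Agent.H398.Gam.Final
import Pool.Agent.H398.Gam.PfAdditive
import Pool.Agent.H398.Gam.PfChar
import Pool.Agent.H398.Gam.PfSqExists
import Pool.Agent.H398.Gam.PfSqEnd
import Pool.Agent.H398.Gam.PfSqContract
import Pool.Agent.H398.Gam.PfHigman

set_option autoImplicit false
set_option linter.unusedVariables false
set_option linter.unusedSimpArgs false
set_option linter.unusedSectionVars false

open scoped TensorProduct
open Filter Topology

namespace Pool.Agent.H398.Gam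

universe u v

open Ob

theorem hH : S_higman.{u, v} := Pool.Agent.H284.GAM.proof_higman
theorem hA : S_additive.{u, v} := Pool.Agent.H404.GAM.proof_additive hH
theorem hE : S_existsChar.{u} := Pool.Agent.H195.Gam.proof_existsChar
theorem hS : S_sqExists.{u, v} := Pool.Agent.H729.GAM.proof_sqExists
theorem hR : S_sqEnd.{u, v} := Pool.Agent.H935.Gam.proof_sqEnd
theorem hT : S_sqTraceless.{u, v} := Pool.Agent.H935.Gam.proof_sqTraceless
theorem hC : S_sqContract.{u, v} := Pool.Agent.H967.Gam.proof_sqContract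

variable {k : Type u} [Field k] {G : Type v} [Group G]

theorem l_even [CharP k 2] (n l : ℕ) (hn : Even n) (h1 : 1 ≤ l) (h0 : qn (n : k) l = 0)
    (hm : ∀ j, 1 ≤ j → j < l → qn (n : k) j ≠ 0) : l = 2 := by
  have hn0 : (n : k) = 0 := (CharP.cast_eq_zero_iff k 2 n).mpr hn.two_dvd
  rw [hn0] at h0 hm
  apply first_zero_unique (0 : k) l 2 h1 h0 hm (by norm_num)
  · simp [qn]
  · intro j hj1 hj2
    have : j = 1 := by omega
    rw [this]
    simp [qn]

theorem l_odd [CharP k 2] (n l : ℕ) (hn : Odd n) (h1 : 1 ≤ l) (h0 : qn (n : k) l = 0)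
    (hm : ∀ j, 1 ≤ j → j < l → qn (n : k) j ≠ 0) : l = 3 := by
  have hn0 : (n : k) = 1 := by
    obtain ⟨m, rfl⟩ := hn
    have : ((2 * m : ℕ) : k) = 0 := (CharP.cast_eq_zero_iff k 2 _).mpr ⟨m, rfl⟩
    rw [Nat.cast_add, this, zero_add, Nat.cast_one]
  rw [hn0] at h0 hm
  apply first_zero_unique (1 : k) l 3 h1 h0 hm (by norm_num)
  · simp [qn]
  · intro j hj1 hj2
    have : j = 1 ∨ j = 2 := by omega
    rcases this with h | h
    · rw [h]; simp [qn]
    · rw [h]; simp [qn]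

theorem cases_two (p : ℕ) [hp : Fact p.Prime] [CharP k p] (n l i : ℕ) (h1 : 1 ≤ l)
    (h0 : qn (n : k) l = 0) (hm : ∀ j, 1 ≤ j → j < l → qn (n : k) j ≠ 0) :
    (p = 2 → Even n → ∃ i' : ℕ, l * p ^ i = 2 ^ i') ∧
      (p = 2 → Odd n → ∃ i' : ℕ, l * p ^ i = 3 * 2 ^ i') := by
  constructor
  · rintro rfl hn
    refine ⟨i + 1, ?_⟩
    rw [l_even (k := k) n l hn h1 h0 hm, pow_succ]
    ring
  · rintro rfl hn
    exact ⟨i, by rw [l_odd (k := k) n l hn h1 h0 hm]⟩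

/-- A value `2 cos (π / n)`, `n ≥ 4`, with the restriction on `n` which we can prove. -/
def IsVal (p d n : ℕ) : Prop :=
  4 ≤ n ∧ (p ≠ 2 → ∃ i : ℕ, n = p ^ i) ∧ (p = 2 → Even d → ∃ i : ℕ, n = 2 ^ i) ∧
    (p = 2 → Odd d → ∃ i : ℕ, n = 3 * 2 ^ i)

theorem valueAll (p : ℕ) [hp : Fact p.Prime] [CharP k p] (φ : PosChar k G)
    (M : Ob k G) (s : ℝ) (hs1 : 1 < s) (hs2 : s < 2) (hs : φ.f M * φ.f M.dual = s ^ 2) :
    ∃ n : ℕ, IsVal p M.dim n ∧ s = 2 * Real.cos (Real.pi / n) := by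
  obtain ⟨l, i, a1, a2, a3, a4, a5⟩ := value p φ M s hs1.le hs2 hs
  have h4 := four_le_of_one_lt _ a4 s hs1 a5
  obtain ⟨c1, c2⟩ := cases_two (k := k) p M.dim l i a1 a2 a3
  refine ⟨l * p ^ i, ⟨h4, ?_, c1, c2⟩, a5⟩
  intro hp2
  obtain ⟨-, j, hj4, hj⟩ := valueOdd hS hR hT p hp2 φ M s hs1 hs2 hs
  refine ⟨j, cos_inj _ _ (by omega) (by omega) ?_⟩
  rw [← a5, ← hj]

variable [Fintype G]

theorem gamma_tensDual_lt (M : Ob k G) (hM : ¬ M.IsProj) (h : M.gamma < 2) :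
    (M.tens M.dual).gamma < 4 := by
  have h1 := gamma_tens_le hH M M.dual hM (dual_not_isProj hH M hM)
  rw [gamma_dual hH] at h1
  have h2 := gamma_pos hH M hM
  nlinarith

/-- `γ(M ⊗ M^*)` for all `M`. -/
theorem part1 (p : ℕ) [hp : Fact p.Prime] [CharP k p] (M : Ob k G) (hM : ¬ M.IsProj)
    (h1 : 1 < (M.tens M.dual).gamma) (h4 : (M.tens M.dual).gamma < 4) :
    ∃ n : ℕ, IsVal p M.dim n ∧ (M.tens M.dual).gamma = (2 * Real.cos (Real.pi / n)) ^ 2 := by
  have hMM := tens_dual_not_isProj hH M hM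
  obtain ⟨φ, hφ, hv⟩ := exists_posChar hH hA hE _ hMM
  have hsq := Real.sq_sqrt (show (0 : ℝ) ≤ (M.tens M.dual).gamma by linarith)
  obtain ⟨n, hn, hval⟩ := valueAll p φ M (Real.sqrt (M.tens M.dual).gamma)
    (by
      rw [show (1 : ℝ) = Real.sqrt 1 by rw [Real.sqrt_one]]
      exact Real.sqrt_lt_sqrt (by norm_num) h1)
    (by
      rw [show (2 : ℝ) = Real.sqrt 4 by
        rw [show (4 : ℝ) = 2 ^ 2 by norm_num, Real.sqrt_sq (by norm_num)]]
      exact Real.sqrt_lt_sqrt (by linarith) h4)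
    (by rw [hsq, ← hv, φ.tens])
  exact ⟨n, hn, by rw [← hval, hsq]⟩

/-- `γ(M)` for stably self-dual `M`. -/
theorem part2 (p : ℕ) [hp : Fact p.Prime] [CharP k p] (M : Ob k G)
    (hsd : ∃ P Q : Ob k G, P.IsProj ∧ Q.IsProj ∧ (M.prod P).Iso (M.dual.prod Q))
    (h1 : 1 < M.gamma) (h2 : M.gamma < 2) :
    ∃ n : ℕ, IsVal p M.dim n ∧ M.gamma = 2 * Real.cos (Real.pi / n) := by
  have hM : ¬ M.IsProj := by
    intro h
    rw [gamma_isProj hH M h] at h1
    linarith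
  obtain ⟨φ, hv, hvv⟩ := selfDual_value hH hA hE p M hM hsd h2
  exact valueAll p φ M M.gamma h1 h2 hvv

/-- `γ(M)` for all `M`, `p` odd, granted that endotrivial modules have `γ = 1`. -/
theorem part4 (p : ℕ) [hp : Fact p.Prime] [CharP k p] (hp2 : p ≠ 2) (M : Ob k G)
    (hend : ∀ L : Ob k G, L.Endotrivial → L.gamma = 1) (h1 : 1 < M.gamma) (h2 : M.gamma < 2) :
    ∃ i : ℕ, 4 ≤ p ^ i ∧ M.gamma = 2 * Real.cos (Real.pi / (p ^ i : ℕ)) := by
  have hM : ¬ M.IsProj := by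
    intro h
    rw [gamma_isProj hH M h] at h1
    linarith
  have h4 := gamma_tensDual_lt M hM h2
  rcases structure_odd hH hA hE hS hR hT hC p hp2 M hM h4 with h | ⟨L, P, hL, hP, hiso⟩
  · rw [hend M h] at h1
    exact absurd h1 (lt_irrefl _)
  · obtain ⟨φ, hφ, hv⟩ := exists_posChar hH hA hE _ hM
    have hLn : ¬ L.IsProj := by
      intro h
      have := gamma_isProj hH L h
      rw [hend L hL] at this
      exact one_ne_zero this
    have a1 : φ.f L ≤ 1 := by rw [← hend L hL]; exact good_le_gamma hH φ hφ L hLn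
    have a2 : φ.f L.dual ≤ 1 := by
      rw [← hend L hL, ← gamma_dual hH L]
      exact good_le_gamma hH φ hφ L.dual (dual_not_isProj hH L hLn)
    obtain ⟨X, hX, hLX⟩ := hL
    have a3 := φ.iso _ _ hLX
    rw [φ.tens, φ.prod, φ.one, good_proj hH φ hφ X hX, add_zero] at a3
    have b0 := φ.nonneg L
    have b0' := φ.nonneg L.dual
    have a4 : φ.f L = 1 := by nlinarith
    have a5 := φ.iso _ _ hiso
    rw [φ.tens, φ.prod, good_proj hH φ hφ P hP, a4, mul_one, add_zero] at a5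
    exact (valueOdd hS hR hT p hp2 φ M M.gamma h1 h2 (by rw [a5, hv]; ring)).2

end Pool.Agent.H398.Gam
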