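import Pool.Agent.H398.Gam.Assemble

set_option autoImplicit false
set_option linter.unusedVariables false
set_option linter.unusedSimpArgs false
set_option linter.unusedSectionVars false

open scoped TensorProduct
open Filter Topology

namespace Pool.Agent.H398.Gam

universe u v

open Ob

variable {k : Type u} [Field k] {G : Type v} [Group G] [Fintype G]

/-- If `γ(M ⊗ M^*) = 1` then `M` is endotrivial. -/
theorem endo_of_gamma_one (p : ℕ) [hp : Fact p.Prime] [CharP k p] (M : Ob k G)
    (h1 : (M.tens M.dual).gamma = 1) : M.Endotrivial := by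
  have hM : ¬ M.IsProj := by
    intro h
    rw [gamma_isProj hH _ (isProj_tens hH h _)] at h1
    exact zero_ne_one h1
  have hMM := tens_dual_not_isProj hH M hM
  obtain ⟨φ, hφ, hv⟩ := exists_posChar hH hA hE _ hMM
  rw [h1, φ.tens] at hv
  obtain ⟨l, i, a1, a2, a3, a4, a5⟩ := value p φ M 1 le_rfl (by norm_num) (by rw [hv]; norm_num)
  have h3 : l * p ^ i = 3 := by
    apply cos_inj _ _ (by omega) (by norm_num)
    rw [← a5]
    push_cast
    rw [Real.cos_pi_div_three]
    norm_num
  have hl1 : l ≠ 1 := by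
    rintro rfl
    exact one_ne_zero a2
  have hl3 : l = 3 := by
    have hd : l ∣ 3 := ⟨p ^ i, h3.symm⟩
    rcases (Nat.dvd_prime Nat.prime_three).mp hd with h | h
    · exact absurd h hl1
    · exact h
  have hδ : (M.dim : k) ≠ 0 := by
    intro h0
    rw [hl3, h0] at a2
    have : qn (0 : k) 3 = -1 := by simp [qn]
    rw [this] at a2
    exact one_ne_zero (neg_eq_zero.mp a2)
  obtain ⟨X, -, hX⟩ := step (Stage.first (mm M)) (by
      simp only [Fintype.card_fin]
      exact hδ)
  have hXiso : (M.tens M.dual).Iso ((one k G).prod X) := by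
    have a1 : M.Iso (ofMat (mm M)) := M.mat_iso _
    have a2 : M.dual.Iso (ofMat (dualMat (mm M))) := M.mat_dual_iso _
    exact (Iso.tens_congr a1 a2).trans ((ext_iso _ _).trans hX)
  refine ⟨X, ?_, hXiso⟩
  apply isProj_of_null hH hA hE X
  intro ψ hψ
  have b1 := ψ.iso _ _ hXiso
  rw [ψ.prod, ψ.one] at b1
  have b2 := good_le_gamma hH ψ hψ _ hMM
  rw [h1] at b2
  have b3 := ψ.nonneg X
  linarith

/-- The value of `γ(M)` in terms of `γ(L)`. -/
theorem gamma_of_twist (p : ℕ) [hp : Fact p.Prime] [CharP k p] (hp2 : p ≠ 2) (M L P : Ob k G)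
    (hM : ¬ M.IsProj) (hL : L.Endotrivial) (hP : P.IsProj) (hiso : (M.dual.tens L).Iso (M.prod P))
    (hL1 : L.gamma = 1) : (M.tens M.dual).gamma = M.gamma ^ 2 := by
  obtain ⟨φ, hφ, hv⟩ := exists_posChar hH hA hE _ hM
  have hLn : ¬ L.IsProj := by
    intro h
    have := gamma_isProj hH L h
    rw [hL1] at this
    exact one_ne_zero this
  have a1 : φ.f L ≤ 1 := by rw [← hL1]; exact good_le_gamma hH φ hφ L hLn
  have a2 : φ.f L.dual ≤ 1 := by
    rw [← hL1, ← gamma_dual hH L]
    exact good_le_gamma hH φ hφ L.dual (dual_not_isProj hH L hLn)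
  obtain ⟨X, hX, hLX⟩ := hL
  have a3 := φ.iso _ _ hLX
  rw [φ.tens, φ.prod, φ.one, good_proj hH φ hφ X hX, add_zero] at a3
  have b0 := φ.nonneg L
  have b0' := φ.nonneg L.dual
  have a4 : φ.f L = 1 := by nlinarith
  have a5 := φ.iso _ _ hiso
  rw [φ.tens, φ.prod, good_proj hH φ hφ P hP, a4, mul_one, add_zero] at a5
  have a6 := good_le_gamma hH φ hφ _ (tens_dual_not_isProj hH M hM)
  rw [φ.tens, a5, hv] at a6
  have a7 := gamma_tens_le hH M M.dual hM (dual_not_isProj hH M hM)
  rw [gamma_dual hH] at a7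
  nlinarith

/-- The theorem for odd `p`. -/
theorem odd_main (p : ℕ) [hp : Fact p.Prime] [CharP k p] (hp2 : p ≠ 2) (M : Ob k G)
    (hM : ¬ M.IsProj) (h2 : M.gamma < 2) :
    M.Endotrivial ∨ ∃ (i : ℕ) (L P : Ob k G), 4 ≤ p ^ i ∧ L.Endotrivial ∧ P.IsProj ∧
      (M.dual.tens L).Iso (M.prod P) ∧
      (M.tens M.dual).gamma = (2 * Real.cos (Real.pi / (p ^ i : ℕ))) ^ 2 ∧
      (L.gamma = 1 → M.gamma = 2 * Real.cos (Real.pi / (p ^ i : ℕ))) := by
  by_cases hE' : M.Endotrivial
  · exact Or.inl hE'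
  · right
    have h4 := gamma_tensDual_lt M hM h2
    rcases structure_odd hH hA hE hS hR hT hC p hp2 M hM h4 with h | ⟨L, P, hL, hP, hiso⟩
    · exact absurd h hE'
    · have hMM := tens_dual_not_isProj hH M hM
      have hg1 : 1 < (M.tens M.dual).gamma := by
        rcases (gamma_pos hH _ hMM).lt_or_eq with h | h
        · exact h
        · exact absurd (endo_of_gamma_one p M h.symm) hE'
      obtain ⟨n, hn, hval⟩ := part1 p M hM hg1 h4
      obtain ⟨i, hi⟩ := hn.2.1 hp2
      have hn4 := hn.1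
      rw [hi] at hval hn4
      refine ⟨i, L, P, hn4, hL, hP, hiso, hval, fun hL1 => ?_⟩
      have h5 := gamma_of_twist p hp2 M L P hM hL hP hiso hL1
      rw [hval] at h5
      have h6 := gamma_pos hH M hM
      have h7 : 0 ≤ 2 * Real.cos (Real.pi / (p ^ i : ℕ)) := by
        have h8 : (4 : ℝ) ≤ (p ^ i : ℕ) := by exact_mod_cast hn4
        have hpi := Real.pi_pos
        have h9 : Real.pi / (p ^ i : ℕ) ≤ Real.pi / 2 := by
          apply div_le_div_of_nonneg_left hpi.le (by norm_num) (by linarith)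
        have h10 : 0 ≤ Real.cos (Real.pi / (p ^ i : ℕ)) :=
          Real.cos_nonneg_of_neg_pi_div_two_le_of_le (by
            have : 0 ≤ Real.pi / (p ^ i : ℕ) := by positivity
            linarith) h9
        linarith
      exact ((sq_eq_sq₀ h7 (by linarith)).mp h5).symm

theorem tensDual_main (p : ℕ) [hp : Fact p.Prime] [CharP k p] (M : Ob k G) (hM : ¬ M.IsProj)
    (h4 : (M.tens M.dual).gamma < 4) : M.Endotrivial ∨
      ∃ n : ℕ, IsVal p M.dim n ∧ (M.tens M.dual).gamma = (2 * Real.cos (Real.pi / n)) ^ 2 := by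
  have hMM := tens_dual_not_isProj hH M hM
  rcases (gamma_pos hH _ hMM).lt_or_eq with h | h
  · exact Or.inr (part1 p M hM h h4)
  · exact Or.inl (endo_of_gamma_one p M h.symm)

end Pool.Agent.H398.Gam
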