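import Pool.Agent.H398.Gam.Defs

set_option autoImplicit false
set_option linter.unusedVariables false

open scoped TensorProduct

namespace Pool.Agent.H398.Gam

universe u v

variable {k : Type u} [Field k] {G : Type v} [Group G]

namespace Ob

/-- Equivariance of a linear map. -/
def Eqv (A B : Ob k G) (T : A.V →ₗ[k] B.V) : Prop := ∀ g v, T (A.ρ g v) = B.ρ g (T v)

variable {A B C D : Ob k G}

theorem Iso.mk' (e : A.V ≃ₗ[k] B.V) (h : ∀ g v, e (A.ρ g v) = B.ρ g (e v)) : A.Iso B :=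
  ⟨Representation.Equiv.mk e (fun g => LinearMap.ext fun v => h g v)⟩

theorem Iso.exists_equiv (h : A.Iso B) : ∃ e : A.V ≃ₗ[k] B.V, ∀ g v, e (A.ρ g v) = B.ρ g (e v) := by
  obtain ⟨e⟩ := h
  exact ⟨e.toLinearEquiv, fun g v => Representation.IntertwiningMap.isIntertwining _ _ e.toIntertwiningMap g v⟩

theorem Iso.refl (A : Ob k G) : A.Iso A := Iso.mk' (LinearEquiv.refl k A.V) (fun _ _ => rfl)

theorem Iso.symm (h : A.Iso B) : B.Iso A := by
  obtain ⟨e, he⟩ := h.exists_equiv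
  refine Iso.mk' e.symm (fun g v => ?_)
  apply e.injective
  rw [he]; simp

theorem Iso.trans (h : A.Iso B) (h' : B.Iso C) : A.Iso C := by
  obtain ⟨e, he⟩ := h.exists_equiv
  obtain ⟨e', he'⟩ := h'.exists_equiv
  exact Iso.mk' (e.trans e') (fun g v => by simp [he, he'])

theorem Iso.prod_congr (h : A.Iso B) (h' : C.Iso D) : (A.prod C).Iso (B.prod D) := by
  obtain ⟨e, he⟩ := h.exists_equiv
  obtain ⟨e', he'⟩ := h'.exists_equiv
  refine Iso.mk' (LinearEquiv.prodCongr e e') (fun g v => ?_)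
  obtain ⟨a, b⟩ := v
  change (e (A.ρ g a), e' (C.ρ g b)) = (B.ρ g (e a), D.ρ g (e' b))
  rw [he, he']

theorem tens_ext {X : Type*} [AddCommMonoid X] [Module k X] {S T : (A.tens B).V →ₗ[k] X}
    (h : ∀ (a : A.V) (b : B.V), S (a ⊗ₜ[k] b : A.V ⊗[k] B.V) = T (a ⊗ₜ[k] b : A.V ⊗[k] B.V)) :
    S = T := TensorProduct.ext' h

theorem tens_ρ_tmul (g : G) (a : A.V) (b : B.V) :
    (A.tens B).ρ g (a ⊗ₜ[k] b : A.V ⊗[k] B.V) = (A.ρ g a ⊗ₜ[k] B.ρ g b : A.V ⊗[k] B.V) := rfl

theorem Iso.tens_mk {C : Ob k G} (e : (A.tens B).V ≃ₗ[k] C.V)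
    (h : ∀ g a b, e (A.ρ g a ⊗ₜ[k] B.ρ g b : A.V ⊗[k] B.V) = C.ρ g (e (a ⊗ₜ[k] b : A.V ⊗[k] B.V))) :
    (A.tens B).Iso C := by
  refine Iso.mk' e (fun g v => ?_)
  have : (e.toLinearMap ∘ₗ (A.tens B).ρ g) = (C.ρ g ∘ₗ e.toLinearMap) := by
    apply tens_ext
    intro a b
    exact h g a b
  exact congrArg (fun T => T v) this

theorem Iso.tens_congr (h : A.Iso B) (h' : C.Iso D) : (A.tens C).Iso (B.tens D) := by
  obtain ⟨e, he⟩ := h.exists_equiv
  obtain ⟨e', he'⟩ := h'.exists_equiv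
  refine Iso.tens_mk (TensorProduct.congr e e') (fun g a b => ?_)
  simp only [TensorProduct.congr_tmul, he, he']
  rfl

theorem tens_comm (A B : Ob k G) : (A.tens B).Iso (B.tens A) :=
  Iso.tens_mk (TensorProduct.comm k A.V B.V) (fun g a b => rfl)

theorem one_tens (A : Ob k G) : ((one k G).tens A).Iso A := by
  refine Iso.tens_mk (TensorProduct.lid k A.V) (fun g a b => ?_)
  change (a : k) • A.ρ g b = A.ρ g ((a : k) • b)
  simp

theorem tens_one (A : Ob k G) : (A.tens (one k G)).Iso A := (tens_comm _ _).trans (one_tens A)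

theorem tens_assoc (A B C : Ob k G) : ((A.tens B).tens C).Iso (A.tens (B.tens C)) := by
  refine Iso.mk' (TensorProduct.assoc k A.V B.V C.V) (fun g v => ?_)
  have : ((TensorProduct.assoc k A.V B.V C.V).toLinearMap ∘ₗ ((A.tens B).tens C).ρ g) =
      ((A.tens (B.tens C)).ρ g ∘ₗ (TensorProduct.assoc k A.V B.V C.V).toLinearMap) := by
    apply TensorProduct.ext_threefold
    intro a b c
    rfl
  exact congrArg (fun T => T v) this

theorem prod_comm (A B : Ob k G) : (A.prod B).Iso (B.prod A) :=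
  Iso.mk' (LinearEquiv.prodComm k A.V B.V) (fun g v => rfl)

theorem prod_assoc (A B C : Ob k G) : ((A.prod B).prod C).Iso (A.prod (B.prod C)) :=
  Iso.mk' (LinearEquiv.prodAssoc k A.V B.V C.V) (fun g v => rfl)

theorem tens_prod (A B C : Ob k G) : (A.tens (B.prod C)).Iso ((A.tens B).prod (A.tens C)) := by
  refine Iso.tens_mk (TensorProduct.prodRight k k A.V B.V C.V) (fun g a b => ?_)
  obtain ⟨b, c⟩ := b
  rfl

theorem prod_tens (A B C : Ob k G) : ((B.prod C).tens A).Iso ((B.tens A).prod (C.tens A)) :=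
  (tens_comm _ _).trans ((tens_prod A B C).trans
    (Iso.prod_congr (tens_comm _ _) (tens_comm _ _)))

theorem dim_eq_of_iso (h : A.Iso B) : A.dim = B.dim := by
  obtain ⟨e, -⟩ := h.exists_equiv
  exact e.finrank_eq

theorem dim_prod (A B : Ob k G) : (A.prod B).dim = A.dim + B.dim :=
  Module.finrank_prod

theorem dim_tens (A B : Ob k G) : (A.tens B).dim = A.dim * B.dim :=
  Module.finrank_tensorProduct

theorem dim_one : (one k G).dim = 1 := Module.finrank_self k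

theorem dim_dual (A : Ob k G) : A.dual.dim = A.dim := Subspace.dual_finrank_eq

theorem compl_aux (A W : Ob k G) (S : A.V →ₗ[k] W.V) (T : W.V →ₗ[k] A.V) (hS : Eqv A W S)
    (hT : Eqv W A T) (hST : ∀ a, T (S a) = a) :
    ∃ (C : Ob k G) (I : C.V →ₗ[k] W.V) (P : W.V →ₗ[k] C.V), Function.Injective I ∧ Eqv C W I ∧
      (∀ w, I (P w) = w - S (T w)) ∧ (∀ c, T (I c) = 0) := by
  have hinv : ∀ g, LinearMap.ker T ≤ (LinearMap.ker T).comap (W.ρ g) := by
    intro g v hv
    simp only [Submodule.mem_comap, LinearMap.mem_ker] at hv ⊢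
    rw [hT, hv, map_zero]
  have hker : ∀ w, (w - S (T w)) ∈ LinearMap.ker T := by
    intro w; simp [LinearMap.mem_ker, hST]
  exact ⟨⟨LinearMap.ker T, W.ρ.subrepresentation (LinearMap.ker T) hinv⟩,
    (LinearMap.ker T).subtype,
    LinearMap.codRestrict (LinearMap.ker T) (LinearMap.id - S ∘ₗ T) hker,
    Subtype.val_injective, fun g v => rfl, fun w => rfl, fun c => c.2⟩

/-- Complement of a retract. -/
theorem compl (A W : Ob k G) (S : A.V →ₗ[k] W.V) (T : W.V →ₗ[k] A.V) (hS : Eqv A W S)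
    (hT : Eqv W A T) (hST : ∀ a, T (S a) = a) :
    ∃ (C : Ob k G) (I : C.V →ₗ[k] W.V) (P : W.V →ₗ[k] C.V), Eqv C W I ∧ Eqv W C P ∧
      (∀ c, P (I c) = c) ∧ (∀ w, I (P w) = w - S (T w)) ∧ (∀ c, T (I c) = 0) ∧
      W.Iso (A.prod C) := by
  obtain ⟨C, I, P, hinj, hI, hIP, hTI⟩ := compl_aux A W S T hS hT hST
  have hP : Eqv W C P := by
    intro g v
    apply hinj
    rw [hI, hIP, hIP, hT, hS, map_sub]
  have hPI : ∀ c, P (I c) = c := by
    intro c
    apply hinj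
    rw [hIP, hTI, map_zero, sub_zero]
  have hPS : ∀ a, P (S a) = 0 := by
    intro a
    apply hinj
    rw [hIP, hST, sub_self, map_zero]
  refine ⟨C, I, P, hI, hP, hPI, hIP, hTI, ?_⟩
  refine Iso.mk' (LinearEquiv.ofLinearMap (T.prod P) (S.coprod I) ?_ ?_) ?_
  · apply LinearMap.ext
    rintro ⟨a, c⟩
    simp [hST, hTI, hPS, hPI]
  · apply LinearMap.ext
    intro w
    simp [hIP]
  · intro g v
    change ((T (W.ρ g v), P (W.ρ g v)) : A.V × C.V) = (A.ρ g (T v), C.ρ g (P v))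
    rw [hT, hP]

end Ob

end Pool.Agent.H398.Gam
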