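import Pool.Agent.H398.Gam.Iface

set_option autoImplicit false
set_option linter.unusedVariables false
set_option linter.unusedSimpArgs false
set_option linter.unusedSectionVars false

open scoped TensorProduct

namespace Pool.Agent.H398.Gam

universe u v

variable {k : Type u} [Field k] {G : Type v} [Group G] [Fintype G]

open Ob

theorem IsTr.comp_left {A B C : Ob k G} {T : A.V →ₗ[k] B.V} (hT : IsTr A B T)
    {S : B.V →ₗ[k] C.V} (hS : Eqv B C S) : IsTr A C (S ∘ₗ T) := by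
  obtain ⟨θ, hθ⟩ := hT
  refine ⟨S ∘ₗ θ, fun v => ?_⟩
  rw [LinearMap.comp_apply, hθ, map_sum]
  exact Finset.sum_congr rfl (fun g _ => hS g _)

theorem IsTr.comp_right {A B C : Ob k G} {T : B.V →ₗ[k] C.V} (hT : IsTr B C T)
    {S : A.V →ₗ[k] B.V} (hS : Eqv A B S) : IsTr A C (T ∘ₗ S) := by
  obtain ⟨θ, hθ⟩ := hT
  refine ⟨θ ∘ₗ S, fun v => ?_⟩
  rw [LinearMap.comp_apply, hθ]
  refine Finset.sum_congr rfl (fun g _ => ?_)
  rw [LinearMap.comp_apply, hS]

theorem IsTr.add {A B : Ob k G} {S T : A.V →ₗ[k] B.V} (hS : IsTr A B S) (hT : IsTr A B T) :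
    IsTr A B (S + T) := by
  obtain ⟨θ, hθ⟩ := hS
  obtain ⟨η, hη⟩ := hT
  refine ⟨θ + η, fun v => ?_⟩
  rw [LinearMap.add_apply, hθ, hη, ← Finset.sum_add_distrib]
  refine Finset.sum_congr rfl (fun g _ => ?_)
  rw [LinearMap.add_apply, map_add]

theorem IsTr.retract {A W : Ob k G} (S : A.V →ₗ[k] W.V) (T : W.V →ₗ[k] A.V) (hS : Eqv A W S)
    (hT : Eqv W A T) (hST : ∀ a, T (S a) = a) (hW : IsTr W W LinearMap.id) :
    IsTr A A LinearMap.id := by
  have h := (hW.comp_right hS).comp_left hT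
  have e : T ∘ₗ (LinearMap.id ∘ₗ S) = LinearMap.id := LinearMap.ext hST
  rwa [e] at h

theorem IsTr.id_iso {A B : Ob k G} (h : A.Iso B) (hA : IsTr A A LinearMap.id) :
    IsTr B B LinearMap.id := by
  obtain ⟨e, he⟩ := h.exists_equiv
  obtain ⟨f, hf⟩ := h.symm.exists_equiv
  refine IsTr.retract e.symm.toLinearMap e.toLinearMap ?_ he (fun a => by simp) hA
  intro g v
  apply e.injective
  change e (e.symm (B.ρ g v)) = e (A.ρ g (e.symm v))
  rw [he]; simp

theorem IsTr.id_prod {A B : Ob k G} (hA : IsTr A A LinearMap.id) (hB : IsTr B B LinearMap.id) :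
    IsTr (A.prod B) (A.prod B) LinearMap.id := by
  have h1 : IsTr (A.prod B) (A.prod B)
      (LinearMap.inl k A.V B.V ∘ₗ (LinearMap.id ∘ₗ LinearMap.fst k A.V B.V)) := by
    apply IsTr.comp_left (B := A)
    · exact IsTr.comp_right (B := A) hA (fun g v => rfl)
    · intro g v
      change ((A.ρ g v, 0) : A.V × B.V) = (A.ρ g v, B.ρ g 0)
      rw [map_zero]
  have h2 : IsTr (A.prod B) (A.prod B)
      (LinearMap.inr k A.V B.V ∘ₗ (LinearMap.id ∘ₗ LinearMap.snd k A.V B.V)) := by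
    apply IsTr.comp_left (B := B)
    · exact IsTr.comp_right (B := B) hB (fun g v => rfl)
    · intro g v
      change ((0, B.ρ g v) : A.V × B.V) = (A.ρ g 0, B.ρ g v)
      rw [map_zero]
  have h3 := h1.add h2
  have e : (LinearMap.inl k A.V B.V ∘ₗ (LinearMap.id ∘ₗ LinearMap.fst k A.V B.V)) +
      (LinearMap.inr k A.V B.V ∘ₗ (LinearMap.id ∘ₗ LinearMap.snd k A.V B.V)) =
      (LinearMap.id : (A.prod B).V →ₗ[k] (A.prod B).V) := by
    apply LinearMap.ext
    rintro ⟨a, b⟩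
    simp
  rwa [e] at h3

theorem IsTr.id_left {A B : Ob k G} (h : IsTr (A.prod B) (A.prod B) LinearMap.id) :
    IsTr A A LinearMap.id := by
  refine IsTr.retract (LinearMap.inl k A.V B.V) (LinearMap.fst k A.V B.V) ?_ (fun g v => rfl)
    (fun a => rfl) h
  intro g v
  change ((A.ρ g v, 0) : A.V × B.V) = (A.ρ g v, B.ρ g 0)
  rw [map_zero]

theorem IsTr.id_tens {A : Ob k G} (hA : IsTr A A LinearMap.id) (B : Ob k G) :
    IsTr (A.tens B) (A.tens B) LinearMap.id := by
  obtain ⟨θ, hθ⟩ := hA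
  refine ⟨TensorProduct.map θ LinearMap.id, fun v => ?_⟩
  have e : (∑ g, (A.tens B).ρ g ∘ₗ TensorProduct.map θ LinearMap.id ∘ₗ (A.tens B).ρ g⁻¹) =
      (LinearMap.id : (A.tens B).V →ₗ[k] (A.tens B).V) := by
    apply tens_ext
    intro a b
    rw [LinearMap.sum_apply]
    have h1 : ∀ g : G, ((A.tens B).ρ g ∘ₗ TensorProduct.map θ LinearMap.id ∘ₗ (A.tens B).ρ g⁻¹)
        (a ⊗ₜ[k] b : A.V ⊗[k] B.V) =
        ((A.ρ g (θ (A.ρ g⁻¹ a))) ⊗ₜ[k] b : A.V ⊗[k] B.V) := by
      intro g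
      change ((A.ρ g (θ (A.ρ g⁻¹ a))) ⊗ₜ[k] (B.ρ g (B.ρ g⁻¹ b)) : A.V ⊗[k] B.V) = _
      have : B.ρ g (B.ρ g⁻¹ b) = b := by
        rw [← Module.End.mul_apply, ← map_mul, mul_inv_cancel, map_one, Module.End.one_apply]
      rw [this]
    rw [Finset.sum_congr rfl (fun g _ => h1 g), ← TensorProduct.sum_tmul, ← hθ]
    rfl
  have e2 := congrArg (fun T => T v) e
  simp only [LinearMap.sum_apply, LinearMap.comp_apply] at e2
  exact e2.symm

theorem IsTr.id_dual {A : Ob k G} (hA : IsTr A A LinearMap.id) :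
    IsTr A.dual A.dual LinearMap.id := by
  obtain ⟨θ, hθ⟩ := hA
  refine ⟨θ.dualMap, fun φ => ?_⟩
  apply LinearMap.ext
  intro a
  rw [LinearMap.sum_apply]
  have h1 : ∀ g : G, (A.dual.ρ g (θ.dualMap (A.dual.ρ g⁻¹ φ)) : Module.Dual k A.V) a =
      φ (A.ρ g (θ (A.ρ g⁻¹ a))) := by
    intro g
    change φ (A.ρ (g⁻¹)⁻¹ (θ (A.ρ g⁻¹ a))) = _
    rw [inv_inv]
  rw [Finset.sum_congr rfl (fun g _ => h1 g), ← map_sum, ← hθ]
  rfl

section

variable (H : S_higman.{u, v})

include H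

theorem isProj_iff (A : Ob k G) : A.IsProj ↔ IsTr A A LinearMap.id := H k G A

theorem isProj_iso {A B : Ob k G} (h : A.Iso B) (hA : A.IsProj) : B.IsProj :=
  (isProj_iff H B).mpr (((isProj_iff H A).mp hA).id_iso h)

theorem isProj_prod {A B : Ob k G} (hA : A.IsProj) (hB : B.IsProj) : (A.prod B).IsProj :=
  (isProj_iff H _).mpr (((isProj_iff H A).mp hA).id_prod ((isProj_iff H B).mp hB))

theorem isProj_left {A B : Ob k G} (h : (A.prod B).IsProj) : A.IsProj :=
  (isProj_iff H _).mpr (((isProj_iff H _).mp h).id_left)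

theorem isProj_tens {A : Ob k G} (hA : A.IsProj) (B : Ob k G) : (A.tens B).IsProj :=
  (isProj_iff H _).mpr (((isProj_iff H A).mp hA).id_tens B)

theorem isProj_tens' {A : Ob k G} (hA : A.IsProj) (B : Ob k G) : (B.tens A).IsProj :=
  isProj_iso H (tens_comm _ _) (isProj_tens H hA B)

theorem isProj_dual {A : Ob k G} (hA : A.IsProj) : A.dual.IsProj :=
  (isProj_iff H _).mpr (((isProj_iff H A).mp hA).id_dual)

end

namespace Ob

omit [Fintype G] in
theorem coreDim_le {A B P : Ob k G} (hP : P.IsProj) (h : A.Iso (B.prod P)) :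
    A.coreDim ≤ B.dim :=
  Nat.sInf_le ⟨B, P, hP, h, rfl⟩

variable (k G) in
/-- The zero object. -/
abbrev zero : Ob k G where
  V := PUnit.{u + 1}
  ρ := 1

omit [Fintype G] in
theorem zero_dim : (zero k G).dim = 0 := Module.finrank_zero_of_subsingleton (R := k) (M := PUnit.{u + 1})

omit [Fintype G] in
theorem iso_of_dim_zero {A B : Ob k G} (hA : A.dim = 0) (hB : B.dim = 0) : A.Iso B := by
  have h1 : Subsingleton A.V := Module.finrank_zero_iff.mp hA
  have h2 : Subsingleton B.V := Module.finrank_zero_iff.mp hB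
  exact Iso.mk' ⟨0, 0, fun _ => Subsingleton.elim _ _, fun _ => Subsingleton.elim _ _⟩
    (fun g v => Subsingleton.elim _ _)

omit [Fintype G] in
theorem prod_zero (A : Ob k G) : A.Iso (A.prod (zero k G)) := by
  refine Iso.mk' ⟨LinearMap.inl k A.V PUnit.{u + 1}, LinearMap.fst k A.V PUnit.{u + 1}, fun _ => rfl, fun _ => rfl⟩
    (fun g v => rfl)

theorem zero_isProj (H : S_higman.{u, v}) : (zero k G).IsProj := by
  rw [isProj_iff H]
  exact ⟨0, fun v => rfl⟩

theorem exists_core (H : S_higman.{u, v}) (A : Ob k G) :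
    ∃ B P : Ob k G, P.IsProj ∧ A.Iso (B.prod P) ∧ B.dim = A.coreDim := by
  have hne : {n : ℕ | ∃ B P : Ob k G, P.IsProj ∧ A.Iso (B.prod P) ∧ B.dim = n}.Nonempty :=
    ⟨A.dim, A, zero k G, zero_isProj H, prod_zero A, rfl⟩
  exact Nat.sInf_mem hne

theorem coreDim_iso {A B : Ob k G} (h : A.Iso B) : A.coreDim = B.coreDim := by
  unfold coreDim
  congr 1
  ext n
  constructor
  · rintro ⟨C, P, hP, h1, h2⟩
    exact ⟨C, P, hP, h.symm.trans h1, h2⟩
  · rintro ⟨C, P, hP, h1, h2⟩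
    exact ⟨C, P, hP, h.trans h1, h2⟩

theorem coreDim_tens_le (H : S_higman.{u, v}) (A B : Ob k G) :
    (A.tens B).coreDim ≤ A.coreDim * B.coreDim := by
  obtain ⟨A₀, P, hP, hA, hdA⟩ := exists_core H A
  obtain ⟨B₀, Q, hQ, hB, hdB⟩ := exists_core H B
  rw [← hdA, ← hdB, ← dim_tens]
  refine coreDim_le (P := (A₀.tens Q).prod (P.tens (B₀.prod Q))) ?_ ?_
  · exact isProj_prod H (isProj_tens' H hQ _) (isProj_tens H hP _)
  · refine (Iso.tens_congr hA hB).trans ((prod_tens _ _ _).trans ?_)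
    exact (Iso.prod_congr (tens_prod _ _ _) (Iso.refl _)).trans (prod_assoc _ _ _)

theorem coreDim_dual_le (H : S_higman.{u, v}) (A : Ob k G) : A.dual.coreDim ≤ A.coreDim := by
  obtain ⟨A₀, P, hP, hA, hdA⟩ := exists_core H A
  rw [← hdA, ← dim_dual]
  exact coreDim_le (isProj_dual H hP) (hA.dual_congr.trans (dual_prod _ _).symm)

theorem coreDim_dual (H : S_higman.{u, v}) (A : Ob k G) : A.dual.coreDim = A.coreDim := by
  apply le_antisymm (coreDim_dual_le H A)
  rw [coreDim_iso (dual_dual A)]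
  exact coreDim_dual_le H A.dual

theorem coreDim_eq_zero (H : S_higman.{u, v}) (A : Ob k G) : A.coreDim = 0 ↔ A.IsProj := by
  constructor
  · intro h
    obtain ⟨B, P, hP, hA, hd⟩ := exists_core H A
    rw [h] at hd
    have h1 : B.Iso (zero k G) := iso_of_dim_zero hd zero_dim
    have h2 : A.Iso (P.prod (zero k G)) :=
      hA.trans ((Iso.prod_congr h1 (Iso.refl P)).trans (prod_comm _ _))
    exact isProj_iso H (h2.trans (prod_zero P).symm).symm hP
  · intro h
    have h1 := coreDim_le (A := A) (B := zero k G) h ((prod_zero A).trans (prod_comm _ _))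
    rw [zero_dim] at h1
    omega

theorem one_coreDim (H : S_higman.{u, v}) (M : Ob k G) (hM : ¬ M.IsProj) :
    (one k G).coreDim = 1 := by
  have h1 : (one k G).coreDim ≤ 1 := by
    have := coreDim_le (A := one k G) (B := one k G) (zero_isProj H) (prod_zero (one k G))
    rwa [dim_one] at this
  have h2 : (one k G).coreDim ≠ 0 := by
    intro h
    rw [coreDim_eq_zero H] at h
    exact hM (isProj_iso H (one_tens M) (isProj_tens H h M))
  omega

end Ob

end Pool.Agent.H398.Gam
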