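import Mathlib

/-!
# Finite-dimensional representations, their cores, and the invariant gamma

`Ob k G` : finite-dimensional representations of `G` over `k` (finite-dimensional `kG`-modules).
-/

set_option autoImplicit false

open scoped TensorProduct

namespace Pool.Agent.H398.Gam

universe u v

/-- A finite-dimensional representation of the group `G` over the field `k`. -/
structure Ob (k : Type u) [Field k] (G : Type v) [Group G] where
  /-- the underlying vector space -/
  V : Type u
  [acg : AddCommGroup V]
  [mod : Module k V]
  [fin : FiniteDimensional k V]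
  /-- the action -/
  ρ : Representation k G V

attribute [instance] Ob.acg Ob.mod Ob.fin

variable {k : Type u} [Field k] {G : Type v} [Group G]

namespace Ob

/-- Isomorphism of representations. -/
def Iso (A B : Ob k G) : Prop := Nonempty (A.ρ.Equiv B.ρ)

/-- The dimension. -/
noncomputable def dim (A : Ob k G) : ℕ := Module.finrank k A.V

variable (k G) in
/-- The trivial one-dimensional representation. -/
abbrev one : Ob k G where
  V := k
  ρ := Representation.trivial k G k

/-- Direct sum. -/
noncomputable abbrev prod (A B : Ob k G) : Ob k G where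
  V := A.V × B.V
  ρ := A.ρ.prod B.ρ

/-- Tensor product over `k`, with the diagonal action. -/
noncomputable abbrev tens (A B : Ob k G) : Ob k G where
  V := A.V ⊗[k] B.V
  ρ := A.ρ.tprod B.ρ

/-- The dual (contragredient) representation. -/
noncomputable abbrev dual (A : Ob k G) : Ob k G where
  V := Module.Dual k A.V
  ρ := A.ρ.dual

/-- `Hom_k (A, B)` with the conjugation action. -/
noncomputable abbrev hom (A B : Ob k G) : Ob k G where
  V := A.V →ₗ[k] B.V
  ρ := A.ρ.linHom B.ρ

/-- Tensor powers, `M^{⊗ 0} = k`. -/
noncomputable def pow (A : Ob k G) : ℕ → Ob k G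
  | 0 => one k G
  | n + 1 => (pow A n).tens A

/-- The `kG`-module `P` is projective. -/
def IsProj (P : Ob k G) : Prop := Module.Projective (MonoidAlgebra k G) P.ρ.asModule

/-- The dimension of the core of `A`, the direct sum of the non-projective indecomposable summands:
by the Krull-Schmidt theorem it is the least dimension of a `B` with `A ≅ B ⊕ P`, `P` projective. -/
noncomputable def coreDim (A : Ob k G) : ℕ :=
  sInf {n : ℕ | ∃ B P : Ob k G, P.IsProj ∧ A.Iso (B.prod P) ∧ B.dim = n}

/-- The invariant `γ_G(M) = limsup (dim core M^{⊗ n}) ^ (1 / n)` of Benson and Symonds. -/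
noncomputable def gamma (A : Ob k G) : ℝ :=
  Filter.limsup (fun n : ℕ => ((A.pow n).coreDim : ℝ) ^ ((n : ℝ)⁻¹)) Filter.atTop

/-- `L` is endotrivial: `L ⊗ L* ≅ k ⊕ (projective)`. -/
def Endotrivial (L : Ob k G) : Prop :=
  ∃ P : Ob k G, P.IsProj ∧ (L.tens L.dual).Iso ((one k G).prod P)

end Ob

/-- A positive character: a positive, additive and multiplicative function on representations. -/
structure PosChar (k : Type u) [Field k] (G : Type v) [Group G] where
  /-- the function -/
  f : Ob k G → ℝ
  nonneg : ∀ A, 0 ≤ f A
  iso : ∀ A B, A.Iso B → f A = f B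
  prod : ∀ A B, f (A.prod B) = f A + f B
  tens : ∀ A B, f (A.tens B) = f A * f B
  one : f (Ob.one k G) = 1

end Pool.Agent.H398.Gam
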