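import Pool.Agent.H398.Gam.Basic

set_option autoImplicit false
set_option linter.unusedVariables false

open scoped TensorProduct

namespace Pool.Agent.H398.Gam

universe u v

variable {k : Type u} [Field k] {G : Type v} [Group G] {J : Type} [Fintype J] [DecidableEq J]

/-- The contragredient matrix representation. -/
def dualMat (R : G →* Matrix J J k) : G →* Matrix J J k where
  toFun g := (R g⁻¹).transpose
  map_one' := by simp
  map_mul' g h := by simp [Matrix.transpose_mul]

theorem dualMat_apply (R : G →* Matrix J J k) (g : G) (i j : J) :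
    dualMat R g i j = R g⁻¹ j i := rfl

theorem sum_mul_inv (R : G →* Matrix J J k) (g : G) (a b : J) :
    ∑ l, R g a l * R g⁻¹ l b = if a = b then 1 else 0 := by
  have : R g * R g⁻¹ = 1 := by rw [← map_mul, mul_inv_cancel, map_one]
  have h2 := congrFun (congrFun this a) b
  rwa [Matrix.mul_apply, Matrix.one_apply] at h2

theorem sum_inv_mul (R : G →* Matrix J J k) (g : G) (a b : J) :
    ∑ l, R g⁻¹ a l * R g l b = if a = b then 1 else 0 := by
  have : R g⁻¹ * R g = 1 := by rw [← map_mul, inv_mul_cancel, map_one]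
  have h2 := congrFun (congrFun this a) b
  rwa [Matrix.mul_apply, Matrix.one_apply] at h2

namespace Ob

/-- The action on functions `J → A` which corresponds to `A ⊗ k^J`, `G` acting on `k^J` by `R`. -/
noncomputable def extRep (A : Ob k G) (R : G →* Matrix J J k) :
    Representation k G (J → A.V) where
  toFun g := LinearMap.pi (fun j => ∑ l, R g j l • (A.ρ g ∘ₗ LinearMap.proj l))
  map_one' := by
    apply LinearMap.ext
    intro φ
    funext j
    simp [LinearMap.pi_apply, Matrix.one_apply]
  map_mul' g h := by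
    apply LinearMap.ext
    intro φ
    funext j
    simp only [LinearMap.pi_apply, LinearMap.sum_apply, LinearMap.smul_apply, LinearMap.comp_apply,
      LinearMap.proj_apply, map_mul, Module.End.mul_apply, Matrix.mul_apply, map_sum, map_smul,
      Finset.smul_sum, Finset.sum_smul, smul_smul]
    rw [Finset.sum_comm]

/-- `A ⊗ k^J`. -/
noncomputable abbrev ext (A : Ob k G) (R : G →* Matrix J J k) : Ob k G where
  V := J → A.V
  ρ := extRep A R

theorem ext_ρ (A : Ob k G) (R : G →* Matrix J J k) (g : G) (φ : J → A.V) (j : J) :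
    (A.ext R).ρ g φ j = ∑ l, R g j l • A.ρ g (φ l) := by
  change (LinearMap.pi (fun j => ∑ l, R g j l • (A.ρ g ∘ₗ LinearMap.proj l))) φ j = _
  simp [LinearMap.pi_apply]

theorem dim_ext (A : Ob k G) (R : G →* Matrix J J k) :
    (A.ext R).dim = Fintype.card J * A.dim := by
  change Module.finrank k (J → A.V) = _
  rw [Module.finrank_pi_fintype]
  simp [dim]

/-- `k^J` with the action `R`. -/
noncomputable abbrev ofMat (R : G →* Matrix J J k) : Ob k G := (one k G).ext R

theorem ext_iso (A : Ob k G) (R : G →* Matrix J J k) : (A.tens (ofMat R)).Iso (A.ext R) := by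
  refine Iso.tens_mk (TensorProduct.piScalarRight k k A.V J) (fun g a b => ?_)
  funext j
  rw [ext_ρ]
  have h1 : ∀ (x : A.V) (y : J → k) (j : J),
      TensorProduct.piScalarRight k k A.V J (x ⊗ₜ[k] y) j = y j • x := fun x y j => rfl
  have h2 : (ofMat R).ρ g b j = ∑ l, R g j l * (b l : k) := ext_ρ (one k G) R g b j
  refine (h1 _ _ _).trans ?_
  have h3 : ∀ l, TensorProduct.piScalarRight k k A.V J (a ⊗ₜ[k] (b : J → k)) l = (b l : k) • a :=
    fun l => h1 a b l
  refine (congrArg (fun c : k => c • A.ρ g a) h2).trans ?_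
  rw [Finset.sum_smul]
  refine Finset.sum_congr rfl (fun l _ => ?_)
  refine Eq.trans ?_ (congrArg (fun x => R g j l • A.ρ g x) (h3 l).symm)
  rw [map_smul, smul_smul]

/-- The matrix representation of `M` in a basis. -/
noncomputable def mat (M : Ob k G) (b : Module.Basis J k M.V) : G →* Matrix J J k where
  toFun g := LinearMap.toMatrix b b (M.ρ g)
  map_one' := by simp
  map_mul' g h := by rw [map_mul, LinearMap.toMatrix_mul]

theorem mat_iso (M : Ob k G) (b : Module.Basis J k M.V) : M.Iso (ofMat (M.mat b)) := by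
  refine Iso.mk' b.equivFun (fun g v => ?_)
  funext j
  rw [ext_ρ]
  change b.equivFun (M.ρ g v) j = ∑ l, LinearMap.toMatrix b b (M.ρ g) j l • (b.equivFun v l)
  have := congrFun (LinearMap.toMatrix_mulVec_repr b b (M.ρ g) v) j
  rw [Module.Basis.equivFun_apply, ← this]
  rfl

theorem mat_dual_iso (M : Ob k G) (b : Module.Basis J k M.V) :
    M.dual.Iso (ofMat (dualMat (M.mat b))) := by
  refine Iso.mk' b.dualBasis.equivFun (fun g v => ?_)
  funext j
  rw [ext_ρ]
  change b.dualBasis.equivFun (v ∘ₗ M.ρ g⁻¹) j =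
    ∑ l, LinearMap.toMatrix b b (M.ρ g⁻¹) l j • (b.dualBasis.equivFun v l)
  simp only [Module.Basis.equivFun_apply, Module.Basis.dualBasis_repr, LinearMap.comp_apply,
    LinearMap.toMatrix_apply, smul_eq_mul]
  have h := congrArg (v : M.V →ₗ[k] k) (b.sum_repr (M.ρ g⁻¹ (b j)))
  refine h.symm.trans ?_
  rw [map_sum]
  refine Finset.sum_congr rfl (fun l _ => ?_)
  rw [map_smul, smul_eq_mul]

end Ob

end Pool.Agent.H398.Gam
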