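import Pool.Agent.H398.Gam.OddChar

set_option autoImplicit false
set_option linter.unusedVariables false
set_option linter.unusedSimpArgs false
set_option linter.unusedSectionVars false

open scoped TensorProduct
open Filter Topology

namespace Pool.Agent.H398.Gam

universe u v

variable {k : Type u} [Field k] {G : Type v} [Group G]

open Ob

theorem first_zero_unique (δ : k) (l l' : ℕ) (h1 : 1 ≤ l) (h0 : qn δ l = 0)
    (hm : ∀ j, 1 ≤ j → j < l → qn δ j ≠ 0) (h1' : 1 ≤ l') (h0' : qn δ l' = 0)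
    (hm' : ∀ j, 1 ≤ j → j < l' → qn δ j ≠ 0) : l = l' := by
  rcases lt_trichotomy l l' with h | h | h
  · exact absurd h0 (hm' l h1 h)
  · exact h
  · exact absurd h0' (hm l' h1' h)

theorem first_zero_two (p : ℕ) [hp : Fact p.Prime] [CharP k p] (δ : k) (hδ : δ = 2 ∨ δ = -2)
    (l : ℕ) (h1 : 1 ≤ l) (h0 : qn δ l = 0) (hm : ∀ j, 1 ≤ j → j < l → qn δ j ≠ 0) : l = p := by
  have hqH : ∀ j, qn δ j = 0 ↔ (j : k) = 0 := by
    intro j
    rcases hδ with h | h
    · rw [h, qn_two]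
    · rw [h, qn_neg_two]
      constructor
      · intro h3
        rcases mul_eq_zero.mp h3 with h4 | h4
        · exact absurd h4 (pow_ne_zero _ (by simp))
        · exact h4
      · intro h3
        rw [h3, mul_zero]
  apply first_zero_unique δ l p h1 h0 hm hp.out.one_lt.le ((hqH p).mpr (CharP.cast_eq_zero k p))
  intro j hj1 hj2 hj0
  have := (CharP.cast_eq_zero_iff k p j).mp ((hqH j).mp hj0)
  exact absurd (Nat.le_of_dvd hj1 this) (by omega)

/-- The value of `√t` for a positive character. -/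
theorem value (p : ℕ) [hp : Fact p.Prime] [CharP k p] (φ : PosChar k G) (M : Ob k G) (s : ℝ)
    (hs1 : 1 ≤ s) (hs2 : s < 2) (hs : φ.f M * φ.f M.dual = s ^ 2) :
    ∃ l i : ℕ, 1 ≤ l ∧ qn (M.dim : k) l = 0 ∧ (∀ j, 1 ≤ j → j < l → qn (M.dim : k) j ≠ 0) ∧
      3 ≤ l * p ^ i ∧ s = 2 * Real.cos (Real.pi / (l * p ^ i : ℕ)) := by
  have hpi := Real.pi_pos
  let θ := Real.arccos (s / 2)
  have hc : 2 * Real.cos θ = s := by
    rw [Real.cos_arccos (by linarith) (by linarith)]
    ring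
  have h0 : 0 < θ := Real.arccos_pos.mpr (by linarith)
  have h3 : θ ≤ Real.pi / 3 := by
    have : Real.arccos (Real.cos (Real.pi / 3)) = Real.pi / 3 :=
      Real.arccos_cos (by positivity) (by linarith)
    rw [← this, Real.cos_pi_div_three]
    exact Real.arccos_le_arccos (by linarith)
  obtain ⟨N, hN⟩ : ∃ N : ℕ, Real.pi / θ < 2 ^ N := pow_unbounded_of_one_lt _ one_lt_two
  rw [div_lt_iff₀ h0] at hN
  obtain ⟨l, i, hl1, hl0, hlm, hli⟩ := TL p N M φ θ h0 (by linarith) (by rw [hc]; exact hs) hN.le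
  have hcast : ((l * p ^ i : ℕ) : ℝ) = l * p ^ i := by push_cast; ring
  have hpos : (0 : ℝ) < ((l * p ^ i : ℕ) : ℝ) := by
    rw [hcast]
    by_contra h
    push Not at h
    nlinarith
  refine ⟨l, i, hl1, hl0, hlm, ?_, ?_⟩
  · by_contra h
    push Not at h
    have h4 : l * p ^ i ≤ 2 := by omega
    have h5 : ((l * p ^ i : ℕ) : ℝ) ≤ 2 := by exact_mod_cast h4
    rw [hcast] at h5
    nlinarith
  · have : θ = Real.pi / (l * p ^ i : ℕ) := by
      rw [eq_div_iff hpos.ne', hcast]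
      exact hli
    rw [← this, hc]

theorem cos_inj (n N : ℕ) (hn : 1 ≤ n) (hN : 1 ≤ N)
    (h : 2 * Real.cos (Real.pi / n) = 2 * Real.cos (Real.pi / N)) : n = N := by
  have hpi := Real.pi_pos
  have h1 : (1 : ℝ) ≤ n := by exact_mod_cast hn
  have h2 : (1 : ℝ) ≤ N := by exact_mod_cast hN
  have h3 : Real.pi / n = Real.pi / N := by
    apply Real.injOn_cos
    · exact ⟨by positivity, div_le_self hpi.le h1⟩
    · exact ⟨by positivity, div_le_self hpi.le h2⟩
    · linarith
  rw [div_eq_div_iff (by positivity) (by positivity)] at h3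
  have h4 : (N : ℝ) = n := mul_left_cancel₀ hpi.ne' h3
  exact_mod_cast h4.symm

theorem four_le_of_one_lt (N : ℕ) (hN : 3 ≤ N) (s : ℝ) (hs : 1 < s)
    (h : s = 2 * Real.cos (Real.pi / (N : ℕ))) : 4 ≤ N := by
  by_contra h4
  have h5 : N = 3 := by omega
  rw [h5] at h
  push_cast at h
  rw [Real.cos_pi_div_three] at h
  linarith

section

variable (HS : S_sqExists.{u, v}) (HR : S_sqEnd.{u, v}) (HT : S_sqTraceless.{u, v})
  (HC : S_sqContract.{u, v})

include HS HR HT

/-- `p` odd: values of a positive character in `(1, 2)`. -/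
theorem valueOdd (p : ℕ) [hp : Fact p.Prime] [CharP k p] (hp2 : p ≠ 2) (φ : PosChar k G)
    (M : Ob k G) (s : ℝ) (hs1 : 1 < s) (hs2 : s < 2) (hs : φ.f M * φ.f M.dual = s ^ 2) :
    ((M.dim : k) = 2 ∨ (M.dim : k) = -2) ∧
      ∃ i : ℕ, 4 ≤ p ^ i ∧ s = 2 * Real.cos (Real.pi / (p ^ i : ℕ)) := by
  have h2 : (2 : k) ≠ 0 := by
    intro h
    have h3 : ((2 : ℕ) : k) = 0 := by exact_mod_cast h
    have h4 := (CharP.cast_eq_zero_iff k p 2).mp h3
    exact hp2 ((Nat.prime_dvd_prime_iff_eq hp.out Nat.prime_two).mp h4)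
  have ht4 : φ.f M * φ.f M.dual < 4 := by rw [hs]; nlinarith
  have ht1 : 1 < φ.f M * φ.f M.dual := by rw [hs]; nlinarith
  have hδ : (M.dim : k) = 2 ∨ (M.dim : k) = -2 := by
    by_contra hne
    push Not at hne
    by_cases h1 : (M.dim : k) = 1 ∨ (M.dim : k) = -1
    · by_cases h3 : (3 : k) = 0
      · rcases h1 with h1 | h1
        · apply hne.2
          rw [h1]; linear_combination h3
        · apply hne.1
          rw [h1]; linear_combination -h3
      · rcases h1 with h1 | h1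
        · have := one_vals HS HR HT h2 h3 φ M (-1) (by ring) (by rw [h1]; ring) ht4
          linarith
        · have := one_vals HS HR HT h2 h3 φ M 1 (by ring) h1 ht4
          linarith
    · push Not at h1
      rcases four_le HS HR h2 φ M h1.1 h1.2 hne.1 hne.2 with h | h
      · linarith
      · linarith
  refine ⟨hδ, ?_⟩
  obtain ⟨l, i, hl1, hl0, hlm, h3, hval⟩ := value p φ M s hs1.le hs2 hs
  have hlp := first_zero_two p (M.dim : k) hδ l hl1 hl0 hlm
  rw [hlp] at h3 hval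
  have e : p * p ^ i = p ^ (i + 1) := by rw [pow_succ]; ring
  rw [e] at h3 hval
  exact ⟨i + 1, four_le_of_one_lt _ h3 s hs1 hval, hval⟩

end

variable [Fintype G]

theorem good_le_gamma (H : S_higman.{u, v}) (φ : PosChar k G) (hφ : ∀ A, φ.f A ≤ A.coreDim)
    (M : Ob k G) (hM : ¬ M.IsProj) : φ.f M ≤ M.gamma := by
  have hpow : ∀ n, φ.f (M.pow n) = φ.f M ^ n := by
    intro n
    induction n with
    | zero => rw [pow_zero]; exact φ.one
    | succ n ih => rw [pow_succ, ← ih]; exact φ.tens _ _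
  refine le_of_forall_pos_le_add (fun ε hε => ?_)
  obtain ⟨m, hm, hle⟩ := cn_le_pow H M hM ε hε
  have h1 : φ.f M ^ m ≤ (M.gamma + ε) ^ m := by
    rw [← hpow]
    exact (hφ _).trans hle
  exact le_of_pow_le_pow_left₀ hm.ne' (by linarith [gamma_pos H M hM]) h1

theorem good_star (H : S_higman.{u, v}) (φ : PosChar k G) (hφ : ∀ A, φ.f A ≤ A.coreDim) :
    ∀ A, φ.star.f A ≤ A.coreDim := by
  intro A
  rw [← coreDim_dual H A]
  exact hφ _

theorem good_proj (H : S_higman.{u, v}) (φ : PosChar k G) (hφ : ∀ A, φ.f A ≤ A.coreDim)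
    (P : Ob k G) (hP : P.IsProj) : φ.f P = 0 := by
  have h1 := hφ P
  rw [(coreDim_eq_zero H P).mpr hP] at h1
  have h2 := φ.nonneg P
  push_cast at h1
  linarith

section

variable (H : S_higman.{u, v}) (HA : S_additive.{u, v}) (HE : S_existsChar.{max (u + 1) v})

include H HA HE

theorem isProj_of_null (Z : Ob k G)
    (h : ∀ φ : PosChar k G, (∀ A, φ.f A ≤ A.coreDim) → φ.f Z = 0) : Z.IsProj := by
  by_contra hZ
  obtain ⟨φ, hφ, hv⟩ := exists_posChar H HA HE Z hZ
  have h1 := gamma_pos H Z hZ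
  rw [← hv, h φ hφ] at h1
  linarith

/-- `γ(M ⊗ M^*)` -/
theorem tensDual_value (p : ℕ) [hp : Fact p.Prime] [CharP k p] (M : Ob k G) (hM : ¬ M.IsProj)
    (hlt : (M.tens M.dual).gamma < 4) :
    ∃ l i : ℕ, 1 ≤ l ∧ qn (M.dim : k) l = 0 ∧ (∀ j, 1 ≤ j → j < l → qn (M.dim : k) j ≠ 0) ∧
      3 ≤ l * p ^ i ∧
      (M.tens M.dual).gamma = (2 * Real.cos (Real.pi / (l * p ^ i : ℕ))) ^ 2 := by
  have hMM := tens_dual_not_isProj H M hM
  obtain ⟨φ, hφ, hv⟩ := exists_posChar H HA HE _ hMM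
  have h1 := gamma_pos H _ hMM
  have hsq := Real.sq_sqrt (show (0 : ℝ) ≤ (M.tens M.dual).gamma by linarith)
  obtain ⟨l, i, a1, a2, a3, a4, a5⟩ := value p φ M (Real.sqrt (M.tens M.dual).gamma)
    (Real.one_le_sqrt.mpr h1)
    (by
      rw [show (2 : ℝ) = Real.sqrt 4 by
        rw [show (4 : ℝ) = 2 ^ 2 by norm_num, Real.sqrt_sq (by norm_num)]]
      exact Real.sqrt_lt_sqrt (by linarith) hlt)
    (by rw [hsq, ← hv, φ.tens])
  exact ⟨l, i, a1, a2, a3, a4, by rw [← a5, hsq]⟩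

/-- self-dual modules -/
theorem selfDual_value (p : ℕ) [hp : Fact p.Prime] [CharP k p] (M : Ob k G) (hM : ¬ M.IsProj)
    (hsd : ∃ P Q : Ob k G, P.IsProj ∧ Q.IsProj ∧ (M.prod P).Iso (M.dual.prod Q))
    (hlt : M.gamma < 2) :
    ∃ φ : PosChar k G, φ.f M = M.gamma ∧ φ.f M * φ.f M.dual = M.gamma ^ 2 := by
  obtain ⟨φ, hφ, hv⟩ := exists_posChar H HA HE _ hM
  obtain ⟨P, Q, hP, hQ, hiso⟩ := hsd
  have h1 := φ.iso _ _ hiso
  rw [φ.prod, φ.prod, good_proj H φ hφ P hP, good_proj H φ hφ Q hQ] at h1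
  refine ⟨φ, hv, ?_⟩
  have h2 : φ.f M.dual = φ.f M := by linarith
  rw [h2, hv]
  ring

end

section

variable (H : S_higman.{u, v}) (HA : S_additive.{u, v}) (HE : S_existsChar.{max (u + 1) v})
  (HS : S_sqExists.{u, v}) (HR : S_sqEnd.{u, v}) (HT : S_sqTraceless.{u, v})
  (HC : S_sqContract.{u, v})

include H HA HE HS HR HT HC

/-- `p` odd: the structure theorem. -/
theorem structure_odd (p : ℕ) [hp : Fact p.Prime] [CharP k p] (hp2 : p ≠ 2) (M : Ob k G)
    (hM : ¬ M.IsProj) (hlt : (M.tens M.dual).gamma < 4) :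
    M.Endotrivial ∨ ∃ L P : Ob k G, L.Endotrivial ∧ P.IsProj ∧
      (M.dual.tens L).Iso (M.prod P) := by
  have h2 : (2 : k) ≠ 0 := by
    intro h
    have h3 : ((2 : ℕ) : k) = 0 := by exact_mod_cast h
    have h4 := (CharP.cast_eq_zero_iff k p 2).mp h3
    exact hp2 ((Nat.prime_dvd_prime_iff_eq hp.out Nat.prime_two).mp h4)
  have hMM := tens_dual_not_isProj H M hM
  have hall : ∀ φ : PosChar k G, (∀ A, φ.f A ≤ A.coreDim) → φ.f M * φ.f M.dual < 4 := by
    intro φ hφ
    rw [← φ.tens]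
    exact (good_le_gamma H φ hφ _ hMM).trans_lt hlt
  by_cases hδ : (M.dim : k) = 2 ∨ (M.dim : k) = -2
  · right
    obtain ⟨ε, hε, hd⟩ : ∃ ε : k, ε * ε = 1 ∧ (M.dim : k) = -2 * ε := by
      rcases hδ with h | h
      · exact ⟨-1, by ring, by rw [h]; ring⟩
      · exact ⟨1, by ring, by rw [h]; ring⟩
    obtain ⟨Z, Z', ⟨sq⟩, ⟨sq'⟩, hiso, hdZ, hdZ'⟩ := HS k G M ε h2 hε
    have hε0 : ε ≠ 0 := by
      intro h
      rw [h, mul_zero] at hε
      exact zero_ne_one hε
    obtain ⟨Y, hY⟩ := HC k G M Z ε h2 hε sq (by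
      intro h
      rw [hd] at h
      apply hε0
      linear_combination -h)
    have hvals := fun (φ : PosChar k G) (hφ : ∀ A, φ.f A ≤ A.coreDim) =>
      twist_vals HS HR HT h2 φ M Z Z' Y ε hε sq sq' hiso hdZ hdZ' hY hd (hall φ hφ)
    have hYp : Y.IsProj := isProj_of_null H HA HE Y (fun φ hφ => (hvals φ hφ).1)
    have hZ1 : (Z.dim : k) = 1 := by
      rw [hdZ, hd]
      have : (-2 * ε) ^ 2 + ε * (-2 * ε) = 2 * (ε * ε) := by ring
      rw [this, hε, mul_one, inv_mul_cancel₀ h2]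
    obtain ⟨X, -, hX⟩ := step (Stage.first (mm Z)) (by
      simp only [Fintype.card_fin]
      rw [hZ1]; exact one_ne_zero)
    have hXiso : (Z.tens Z.dual).Iso ((one k G).prod X) := by
      have a1 : Z.Iso (ofMat (mm Z)) := Z.mat_iso _
      have a2 : Z.dual.Iso (ofMat (dualMat (mm Z))) := Z.mat_dual_iso _
      exact (Iso.tens_congr a1 a2).trans ((ext_iso _ _).trans hX)
    have hXp : X.IsProj := by
      apply isProj_of_null H HA HE X
      intro φ hφ
      have b1 := φ.iso _ _ hXiso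
      rw [φ.tens, φ.prod, φ.one, (hvals φ hφ).2.2] at b1
      linarith
    exact ⟨Z, Y, ⟨X, hXp, hXiso⟩, hYp, hY⟩
  · left
    push Not at hδ
    have h3 : (3 : k) ≠ 0 ∧ ((M.dim : k) = 1 ∨ (M.dim : k) = -1) := by
      by_cases h1 : (M.dim : k) = 1 ∨ (M.dim : k) = -1
      · refine ⟨?_, h1⟩
        intro h3
        rcases h1 with h1 | h1
        · apply hδ.2
          rw [h1]; linear_combination h3
        · apply hδ.1
          rw [h1]; linear_combination -h3
      · exfalso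
        push Not at h1
        apply hMM
        apply isProj_of_null H HA HE
        intro φ hφ
        rw [φ.tens]
        rcases four_le HS HR h2 φ M h1.1 h1.2 hδ.1 hδ.2 with h | h
        · exact h
        · exact absurd (hall φ hφ) (by linarith)
    have hM0 : (M.dim : k) ≠ 0 := by
      rcases h3.2 with h | h
      · rw [h]; exact one_ne_zero
      · rw [h]; exact neg_ne_zero.mpr one_ne_zero
    obtain ⟨X, -, hX⟩ := step (Stage.first (mm M)) (by
      simp only [Fintype.card_fin]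
      exact hM0)
    have hXiso : (M.tens M.dual).Iso ((one k G).prod X) := by
      have a1 : M.Iso (ofMat (mm M)) := M.mat_iso _
      have a2 : M.dual.Iso (ofMat (dualMat (mm M))) := M.mat_dual_iso _
      exact (Iso.tens_congr a1 a2).trans ((ext_iso _ _).trans hX)
    refine ⟨X, ?_, hXiso⟩
    apply isProj_of_null H HA HE X
    intro φ hφ
    have b1 := φ.iso _ _ hXiso
    rw [φ.tens, φ.prod, φ.one] at b1
    have b2 : φ.f M * φ.f M.dual = 1 := by
      rcases h3.2 with h | h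
      · exact one_vals HS HR HT h2 h3.1 φ M (-1) (by ring) (by rw [h]; ring) (hall φ hφ)
      · exact one_vals HS HR HT h2 h3.1 φ M 1 (by ring) h (hall φ hφ)
    linarith

end

end Pool.Agent.H398.Gam
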