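import Pool.Agent.H398.Gam.Growth

set_option autoImplicit false
set_option linter.unusedVariables false
set_option linter.unusedSimpArgs false
set_option linter.unusedSectionVars false

open scoped TensorProduct
open Filter Topology

namespace Pool.Agent.H398.Gam

universe u v

variable {k : Type u} [Field k] {G : Type v} [Group G] [Fintype G]

namespace Ob

theorem isProj_of_tens_dual (H : S_higman.{u, v}) (M : Ob k G) (h : (M.tens M).IsProj) :
    M.IsProj := by
  obtain ⟨C, hC⟩ := retract_triple M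
  have h1 : ((M.tens M.dual).tens M).Iso ((M.tens M).tens M.dual) :=
    (tens_assoc _ _ _).trans ((Iso.tens_congr (Iso.refl M) (tens_comm _ _)).trans
      (tens_assoc _ _ _).symm)
  exact isProj_left H (isProj_iso H (h1.symm.trans hC) (isProj_tens H h _))

theorem pow_not_isProj (H : S_higman.{u, v}) (M : Ob k G) (hM : ¬ M.IsProj) (n : ℕ) :
    ¬ (M.pow n).IsProj := by
  induction n with
  | zero =>
    intro h
    exact hM (isProj_iso H (one_tens M) (isProj_tens H (A := one k G) h M))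
  | succ n ih =>
    intro h
    cases n with
    | zero =>
      exact hM (isProj_iso H (one_tens M) h)
    | succ n =>
      apply ih
      obtain ⟨C, hC⟩ := retract_triple M
      -- `pow (n+2) ⊗ M^* = pow n ⊗ (M ⊗ M ⊗ M^*)`
      have h0 : (((M.pow n).tens M).tens M).IsProj := h
      have h2 := isProj_tens H h0 M.dual
      have h1 : ((((M.pow n).tens M).tens M).tens M.dual).Iso
          ((M.pow n).tens ((M.tens M.dual).tens M)) := by
        refine (Iso.tens_congr (tens_assoc _ _ _) (Iso.refl _)).trans ?_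
        refine (tens_assoc _ _ _).trans ?_
        refine Iso.tens_congr (Iso.refl _) ?_
        exact (tens_assoc _ _ _).trans ((Iso.tens_congr (Iso.refl M) (tens_comm _ _)).trans
          (tens_assoc _ _ _).symm)
      have h3 : ((((M.pow n).tens M).tens M).tens M.dual).Iso
          (((M.pow n).tens M).prod ((M.pow n).tens C)) :=
        h1.trans ((Iso.tens_congr (Iso.refl _) hC).trans (tens_prod _ _ _))
      exact isProj_left H (isProj_iso H h3 h2)

/-- The dimension of the core of the `n`-th tensor power. -/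
noncomputable def cn (M : Ob k G) (n : ℕ) : ℕ := (M.pow n).coreDim

theorem cn_pos (H : S_higman.{u, v}) (M : Ob k G) (hM : ¬ M.IsProj) (n : ℕ) : 1 ≤ M.cn n := by
  have : M.cn n ≠ 0 := fun h => pow_not_isProj H M hM n ((coreDim_eq_zero H _).mp h)
  omega

theorem cn_add_le (H : S_higman.{u, v}) (M : Ob k G) (m n : ℕ) :
    M.cn (m + n) ≤ M.cn m * M.cn n := by
  unfold cn
  rw [coreDim_iso (pow_add_iso M m n)]
  exact coreDim_tens_le H _ _

theorem subadditive (H : S_higman.{u, v}) (M : Ob k G) (hM : ¬ M.IsProj) :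
    Subadditive (fun n => Real.log (M.cn n)) := by
  intro m n
  have h1 : (0 : ℝ) < M.cn m := by exact_mod_cast cn_pos H M hM m
  have h2 : (0 : ℝ) < M.cn n := by exact_mod_cast cn_pos H M hM n
  have h3 : (0 : ℝ) < M.cn (m + n) := by exact_mod_cast cn_pos H M hM (m + n)
  rw [← Real.log_mul h1.ne' h2.ne']
  exact Real.log_le_log h3 (by exact_mod_cast cn_add_le H M m n)

theorem bdd (H : S_higman.{u, v}) (M : Ob k G) (hM : ¬ M.IsProj) :
    BddBelow (Set.range fun n : ℕ => Real.log (M.cn n) / n) := by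
  refine ⟨0, ?_⟩
  rintro _ ⟨n, rfl⟩
  have h1 : (1 : ℝ) ≤ M.cn n := by exact_mod_cast cn_pos H M hM n
  exact div_nonneg (Real.log_nonneg h1) (Nat.cast_nonneg n)

theorem rpow_eq (H : S_higman.{u, v}) (M : Ob k G) (hM : ¬ M.IsProj) (n : ℕ) :
    ((M.cn n : ℝ)) ^ ((n : ℝ)⁻¹) = Real.exp (Real.log (M.cn n) / n) := by
  have h1 : (0 : ℝ) < M.cn n := by exact_mod_cast cn_pos H M hM n
  rw [Real.rpow_def_of_pos h1, div_eq_mul_inv]

theorem gamma_tendsto (H : S_higman.{u, v}) (M : Ob k G) (hM : ¬ M.IsProj) :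
    Tendsto (fun n : ℕ => (M.cn n : ℝ) ^ ((n : ℝ)⁻¹)) atTop
      (𝓝 (Real.exp (subadditive H M hM).lim)) := by
  have h := (Real.continuous_exp.tendsto _).comp
    ((subadditive H M hM).tendsto_lim (bdd H M hM))
  refine h.congr (fun n => ?_)
  exact (rpow_eq H M hM n).symm

theorem gamma_eq (H : S_higman.{u, v}) (M : Ob k G) (hM : ¬ M.IsProj) :
    M.gamma = Real.exp (subadditive H M hM).lim :=
  (gamma_tendsto H M hM).limsup_eq

theorem gamma_tendsto' (H : S_higman.{u, v}) (M : Ob k G) (hM : ¬ M.IsProj) :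
    Tendsto (fun n : ℕ => (M.cn n : ℝ) ^ ((n : ℝ)⁻¹)) atTop (𝓝 M.gamma) := by
  rw [gamma_eq H M hM]
  exact gamma_tendsto H M hM

theorem gamma_pow_le (H : S_higman.{u, v}) (M : Ob k G) (hM : ¬ M.IsProj) (n : ℕ) :
    M.gamma ^ n ≤ M.cn n := by
  have h1 : (0 : ℝ) < M.cn n := by exact_mod_cast cn_pos H M hM n
  cases n with
  | zero =>
    have : (1 : ℝ) ≤ M.cn 0 := by exact_mod_cast cn_pos H M hM 0
    simpa using this
  | succ n =>
    rw [gamma_eq H M hM, ← Real.exp_nat_mul]
    have h2 := (subadditive H M hM).lim_le_div (bdd H M hM) (n := n + 1) (by omega)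
    have h3 : (0 : ℝ) < ((n + 1 : ℕ) : ℝ) := by positivity
    rw [le_div_iff₀ h3] at h2
    calc Real.exp (((n + 1 : ℕ) : ℝ) * (subadditive H M hM).lim)
        ≤ Real.exp (Real.log (M.cn (n + 1))) := by
          apply Real.exp_le_exp.mpr
          linarith
      _ = M.cn (n + 1) := Real.exp_log h1

theorem gamma_pos (H : S_higman.{u, v}) (M : Ob k G) (hM : ¬ M.IsProj) : 1 ≤ M.gamma := by
  refine ge_of_tendsto' (gamma_tendsto' H M hM) (fun n => ?_)
  have h1 : (1 : ℝ) ≤ M.cn n := by exact_mod_cast cn_pos H M hM n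
  exact Real.one_le_rpow h1 (by positivity)

theorem cn_le_pow (H : S_higman.{u, v}) (M : Ob k G) (hM : ¬ M.IsProj) (ε : ℝ) (hε : 0 < ε) :
    ∃ m : ℕ, 0 < m ∧ (M.cn m : ℝ) ≤ (M.gamma + ε) ^ m := by
  have h1 := gamma_tendsto' H M hM
  have h2 : ∀ᶠ n : ℕ in atTop, (M.cn n : ℝ) ^ ((n : ℝ)⁻¹) < M.gamma + ε :=
    h1.eventually_lt_const (by linarith)
  obtain ⟨m, hm1, hm2⟩ := (h2.and (eventually_gt_atTop 0)).exists
  refine ⟨m, hm2, ?_⟩
  have h3 : (0 : ℝ) ≤ M.cn m := Nat.cast_nonneg _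
  have h4 : ((M.cn m : ℝ) ^ ((m : ℝ)⁻¹)) ^ m = M.cn m := Real.rpow_inv_natCast_pow h3 hm2.ne'
  rw [← h4]
  exact pow_le_pow_left₀ (Real.rpow_nonneg h3 _) hm1.le m

theorem gamma_dual (H : S_higman.{u, v}) (M : Ob k G) : M.dual.gamma = M.gamma := by
  unfold gamma
  congr 1
  ext n
  rw [coreDim_iso (dual_pow M n), coreDim_dual H]

theorem gamma_isProj (H : S_higman.{u, v}) (M : Ob k G) (hM : M.IsProj) : M.gamma = 0 := by
  have : Tendsto (fun n : ℕ => ((M.pow n).coreDim : ℝ) ^ ((n : ℝ)⁻¹)) atTop (𝓝 0) := by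
    refine tendsto_const_nhds.congr' ?_
    filter_upwards [eventually_gt_atTop 0] with n hn
    obtain ⟨m, rfl⟩ : ∃ m, n = m + 1 := ⟨n - 1, by omega⟩
    have h : (M.pow (m + 1)).IsProj := isProj_tens' H hM _
    rw [(coreDim_eq_zero H _).mpr h]
    rw [Nat.cast_zero, Real.zero_rpow]
    positivity
  exact this.limsup_eq

theorem gamma_tens_le (H : S_higman.{u, v}) (A B : Ob k G) (hA : ¬ A.IsProj) (hB : ¬ B.IsProj) :
    (A.tens B).gamma ≤ A.gamma * B.gamma := by
  by_cases hAB : (A.tens B).IsProj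
  · rw [gamma_isProj H _ hAB]
    have h1 := gamma_pos H A hA
    have h2 := gamma_pos H B hB
    positivity
  · refine le_of_tendsto_of_tendsto' (gamma_tendsto' H _ hAB)
      ((gamma_tendsto' H A hA).mul (gamma_tendsto' H B hB)) (fun n => ?_)
    rw [← Real.mul_rpow (Nat.cast_nonneg _) (Nat.cast_nonneg _)]
    refine Real.rpow_le_rpow (Nat.cast_nonneg _) ?_ (by positivity)
    unfold cn
    rw [coreDim_iso (tens_pow A B n)]
    exact_mod_cast coreDim_tens_le H _ _

theorem tens_dual_not_isProj (H : S_higman.{u, v}) (M : Ob k G) (hM : ¬ M.IsProj) :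
    ¬ (M.tens M.dual).IsProj := by
  intro h
  obtain ⟨C, hC⟩ := retract_triple M
  exact hM (isProj_left H (isProj_iso H hC (isProj_tens H h _)))

theorem dual_not_isProj (H : S_higman.{u, v}) (M : Ob k G) (hM : ¬ M.IsProj) :
    ¬ M.dual.IsProj := fun h => hM (isProj_iso H (dual_dual M).symm (isProj_dual H h))

end Ob

end Pool.Agent.H398.Gam
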