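import Pool.Agent.H398.Gam.Core

set_option autoImplicit false
set_option linter.unusedVariables false
set_option linter.unusedSimpArgs false
set_option linter.unusedSectionVars false

open scoped TensorProduct

namespace Pool.Agent.H398.Gam

universe u v

variable {k : Type u} [Field k] {G : Type v} [Group G] [Fintype G]

namespace Ob

omit [Fintype G] in
theorem pow_add_iso (A : Ob k G) (m n : ℕ) : (A.pow (m + n)).Iso ((A.pow m).tens (A.pow n)) := by
  induction n with
  | zero => exact (tens_one _).symm
  | succ n ih =>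
    have h1 : (A.pow (m + (n + 1))) = (A.pow (m + n)).tens A := rfl
    have h2 : (A.pow (n + 1)) = (A.pow n).tens A := rfl
    rw [h1, h2]
    exact (Iso.tens_congr ih (Iso.refl A)).trans (tens_assoc _ _ _)

omit [Fintype G] in
theorem pow_congr {A B : Ob k G} (h : A.Iso B) (n : ℕ) : (A.pow n).Iso (B.pow n) := by
  induction n with
  | zero => exact Iso.refl _
  | succ n ih => exact Iso.tens_congr ih h

omit [Fintype G] in
theorem tens_four (A B C D : Ob k G) :
    ((A.tens B).tens (C.tens D)).Iso ((A.tens C).tens (B.tens D)) := by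
  refine (tens_assoc A B (C.tens D)).trans ?_
  refine (Iso.tens_congr (Iso.refl A) ((tens_assoc B C D).symm)).trans ?_
  refine (Iso.tens_congr (Iso.refl A) (Iso.tens_congr (tens_comm B C) (Iso.refl D))).trans ?_
  refine (Iso.tens_congr (Iso.refl A) (tens_assoc C B D)).trans ?_
  exact (tens_assoc A C (B.tens D)).symm

omit [Fintype G] in
theorem tens_pow (A B : Ob k G) (n : ℕ) : ((A.tens B).pow n).Iso ((A.pow n).tens (B.pow n)) := by
  induction n with
  | zero => exact (tens_one _).symm
  | succ n ih => exact (Iso.tens_congr ih (Iso.refl _)).trans (tens_four _ _ _ _)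

omit [Fintype G] in
theorem dual_pow (A : Ob k G) (n : ℕ) : (A.dual.pow n).Iso (A.pow n).dual := by
  induction n with
  | zero => exact dual_one.symm
  | succ n ih => exact (Iso.tens_congr ih (Iso.refl _)).trans (dual_tens _ _)

omit [Fintype G] in
/-- `M` is a direct summand of `M ⊗ M^* ⊗ M`. -/
theorem retract_triple (M : Ob k G) : ∃ C : Ob k G, ((M.tens M.dual).tens M).Iso (M.prod C) := by
  let R := mm M
  have hM : M.Iso (ofMat R) := M.mat_iso _
  have hM' : M.dual.Iso (ofMat (dualMat R)) := M.mat_dual_iso _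
  let A' : Ob k G := (ofMat R).ext (dualMat R)
  have h1 : ((M.tens M.dual).tens M).Iso (A'.ext R) := by
    refine (Iso.tens_congr (Iso.tens_congr hM hM') hM).trans ?_
    exact (Iso.tens_congr (ext_iso _ _) (Iso.refl _)).trans (ext_iso _ _)
  let J := Fin M.dim
  let co : J → (J → k) := fun l => Pi.single l 1
  have hco : ∀ g, A'.ρ g co = co := by
    intro g
    funext l
    rw [ext_ρ]
    funext m
    rw [Finset.sum_apply]
    have h2 : ∀ n : J, (dualMat R g l n • (ofMat R).ρ g (co n)) m = R g⁻¹ n l * R g m n := by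
      intro n
      change dualMat R g l n * ((ofMat R).ρ g (co n)) m = _
      rw [ext_ρ (one k G) R g (co n) m]
      rw [Finset.sum_eq_single n]
      · change dualMat R g l n * (R g m n * (Pi.single n (1 : k) : J → k) n) = _
        rw [Pi.single_eq_same, mul_one]
        rfl
      · intro b _ hb
        change R g m b * (Pi.single n (1 : k) : J → k) b = 0
        rw [Pi.single_eq_of_ne hb, mul_zero]
      · intro h
        exact absurd (Finset.mem_univ _) h
    rw [Finset.sum_congr rfl (fun n _ => h2 n)]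
    have h3 := sum_mul_inv R g m l
    have h4 : ∑ n, R g⁻¹ n l * R g m n = ∑ n, R g m n * R g⁻¹ n l :=
      Finset.sum_congr rfl (fun n _ => mul_comm _ _)
    rw [h4, h3]
    change _ = (Pi.single l (1 : k) : J → k) m
    by_cases h : m = l
    · subst h; simp
    · simp [h]
  let S : (J → k) →ₗ[k] (J → (J → (J → k))) :=
    LinearMap.pi (fun j => (LinearMap.toSpanSingleton k (J → (J → k)) co) ∘ₗ LinearMap.proj j)
  have hSa : ∀ (v : J → k) (j : J), S v j = v j • co := fun v j => rfl
  let T : (J → (J → (J → k))) →ₗ[k] (J → k) :=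
    ∑ j : J, (LinearMap.proj j : (J → (J → k)) →ₗ[k] (J → k)) ∘ₗ
      (LinearMap.proj j : (J → (J → (J → k))) →ₗ[k] (J → (J → k)))
  have hTa : ∀ φ : (J → (J → (J → k))), T φ = ∑ j, φ j j := by
    intro φ
    simp [T, LinearMap.sum_apply]
  have hS : Eqv (ofMat R) (A'.ext R) S := by
    intro g v
    funext j
    have e1 : (A'.ext R).ρ g (S v) j = ∑ l, R g j l • A'.ρ g (S v l) := ext_ρ A' R g (S v) j
    rw [e1]
    have e2 : ∀ l, A'.ρ g (S v l) = v l • co := by
      intro l
      rw [hSa, map_smul, hco]
    simp only [e2]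
    rw [hSa, ext_ρ (one k G) R g v j, Finset.sum_smul]
    refine Finset.sum_congr rfl (fun l _ => ?_)
    rw [smul_smul]
    rfl
  have hT : Eqv (A'.ext R) (ofMat R) T := by
    intro g φ
    have e0 : T ((A'.ext R).ρ g φ) = ∑ j, (A'.ext R).ρ g φ j j := hTa _
    rw [e0]
    have e1 : ∀ j, (A'.ext R).ρ g φ j = ∑ l, R g j l • A'.ρ g (φ l) := fun j => ext_ρ A' R g φ j
    have e2 : ∀ l j, A'.ρ g (φ l) j = ∑ n, R g⁻¹ n j • (ofMat R).ρ g (φ l n) :=
      fun l j => ext_ρ (ofMat R) (dualMat R) g (φ l) j
    have e3 : ∀ j, (A'.ext R).ρ g φ j j =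
        ∑ l, ∑ n, (R g j l * R g⁻¹ n j) • (ofMat R).ρ g (φ l n) := by
      intro j
      rw [e1, Finset.sum_apply]
      refine Finset.sum_congr rfl (fun l _ => ?_)
      change R g j l • (A'.ρ g (φ l) j) = _
      rw [e2, Finset.smul_sum]
      exact Finset.sum_congr rfl (fun n _ => smul_smul _ _ _)
    rw [Finset.sum_congr rfl (fun j _ => e3 j), Finset.sum_comm]
    have e4 : ∀ l, ∑ j, ∑ n, (R g j l * R g⁻¹ n j) • (ofMat R).ρ g (φ l n) =
        (ofMat R).ρ g (φ l l) := by
      intro l
      rw [Finset.sum_comm]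
      have e5 : ∀ n, ∑ j, (R g j l * R g⁻¹ n j) • (ofMat R).ρ g (φ l n) =
          (if n = l then 1 else 0 : k) • (ofMat R).ρ g (φ l n) := by
        intro n
        rw [← Finset.sum_smul, ← sum_inv_mul R g n l]
        congr 1
        exact Finset.sum_congr rfl (fun _ _ => mul_comm _ _)
      rw [Finset.sum_congr rfl (fun n _ => e5 n), Finset.sum_eq_single l]
      · simp
      · intro b _ hb
        simp [hb]
      · simp
    rw [Finset.sum_congr rfl (fun l _ => e4 l), hTa, map_sum]
  have hTS : ∀ a : (J → k), T (S a) = a := by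
    intro a
    rw [hTa]
    have : ∀ j, S a j j = Pi.single j (a j) := by
      intro j
      rw [hSa]
      funext m
      change a j * (Pi.single j (1 : k) : J → k) m = _
      by_cases h : m = j
      · subst h; simp
      · simp [h]
    rw [Finset.sum_congr rfl (fun j _ => this j)]
    exact Finset.univ_sum_single a
  obtain ⟨C, -, -, -, -, -, -, -, hiso⟩ := compl (ofMat R) (A'.ext R) S T hS hT hTS
  exact ⟨C, h1.trans (hiso.trans (Iso.prod_congr hM.symm (Iso.refl C)))⟩

end Ob

end Pool.Agent.H398.Gam
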