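import Pool.Agent.H398.Gam.SES

set_option autoImplicit false
set_option linter.unusedVariables false
set_option linter.unusedSimpArgs false

open scoped TensorProduct

namespace Pool.Agent.H398.Gam

universe u v

variable {k : Type u} [Field k] {G : Type v} [Group G] {J : Type} [Fintype J] [DecidableEq J]

open Ob

namespace Stage

variable {R : G →* Matrix J J k} {A B : Ob k G} {κ : k} (St : Stage R A B κ)

/-- `(B ⊗ X*) ⊗ B → A ⊗ B`. -/
noncomputable def tau : (B.ext (dualMat R)).V ⊗[k] B.V →ₗ[k] A.V ⊗[k] B.V :=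
  ∑ s, ∑ j, TensorProduct.map (St.i s ∘ₗ LinearMap.proj j) (St.r s ∘ₗ St.i j)

/-- `A ⊗ B → (B ⊗ X*) ⊗ B`. -/
noncomputable def sig : A.V ⊗[k] B.V →ₗ[k] (B.ext (dualMat R)).V ⊗[k] B.V :=
  ∑ j, ∑ s, TensorProduct.map (LinearMap.single k (fun _ : J => B.V) j ∘ₗ St.r s) (St.r j ∘ₗ St.i s)

theorem tau_tmul (φ : J → B.V) (u : B.V) :
    St.tau (φ ⊗ₜ[k] u) = ∑ s, ∑ j, (St.i s (φ j)) ⊗ₜ[k] (St.r s (St.i j u)) := by
  simp [tau, LinearMap.sum_apply]

theorem sig_tmul (a : A.V) (u : B.V) :
    St.sig (a ⊗ₜ[k] u) = ∑ j, ∑ s, ((Pi.single j (St.r s a) : J → B.V)) ⊗ₜ[k] (St.r j (St.i s u)) := by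
  simp [sig, LinearMap.sum_apply]

theorem tau_S (v : A.V ⊗[k] B.V) : St.tau (St.S.rTensor B.V v) = EE St.i St.r v := by
  have : St.tau ∘ₗ (St.S.rTensor B.V) = EE St.i St.r := by
    apply TensorProduct.ext'
    intro a u
    rw [LinearMap.comp_apply, LinearMap.rTensor_tmul, tau_tmul, St.EE_apply]
    simp only [TensorProduct.map_tmul, LinearMap.comp_apply]
    rfl
  exact congrArg (fun T => T v) this

theorem T_sig (v : A.V ⊗[k] B.V) : (St.T.rTensor B.V) (St.sig v) = EE St.i St.r v := by
  have : (St.T.rTensor B.V) ∘ₗ St.sig = EE St.i St.r := by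
    apply TensorProduct.ext'
    intro a u
    rw [LinearMap.comp_apply, sig_tmul, St.EE_apply, map_sum]
    refine Finset.sum_congr rfl (fun j _ => ?_)
    rw [map_sum]
    refine Finset.sum_congr rfl (fun s _ => ?_)
    rw [LinearMap.rTensor_tmul, T_apply, Finset.sum_eq_single j]
    · simp
    · intro b _ hb
      simp [hb]
    · simp
  exact congrArg (fun T => T v) this

theorem tau_eqv : Eqv ((B.ext (dualMat R)).tens B) (A.tens B) St.tau := by
  intro g v
  have : St.tau ∘ₗ ((B.ext (dualMat R)).tens B).ρ g = (A.tens B).ρ g ∘ₗ St.tau := by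
    apply TensorProduct.ext'
    intro φ u
    change St.tau (((B.ext (dualMat R)).ρ g φ) ⊗ₜ[k] (B.ρ g u)) = (A.tens B).ρ g (St.tau (φ ⊗ₜ[k] u))
    rw [tau_tmul, tau_tmul, map_sum]
    have e1 : ∀ s j, St.i s ((B.ext (dualMat R)).ρ g φ j) =
        ∑ l, R g⁻¹ l j • St.i s (B.ρ g (φ l)) := by
      intro s j
      rw [ext_ρ, map_sum]
      exact Finset.sum_congr rfl (fun l _ => (St.i s).map_smul _ _)
    have e2 : ∀ s j, St.r s (St.i j (B.ρ g u)) = ∑ q, R g j q • St.r s (A.ρ g (St.i q u)) := by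
      intro s j
      rw [St.hi, map_sum]
      exact Finset.sum_congr rfl (fun l _ => (St.r s).map_smul _ _)
    have e3 : ∀ s, ∑ j, (St.i s ((B.ext (dualMat R)).ρ g φ j)) ⊗ₜ[k] (St.r s (St.i j (B.ρ g u))) =
        ∑ q, (St.i s (B.ρ g (φ q))) ⊗ₜ[k] (St.r s (A.ρ g (St.i q u))) := by
      intro s
      simp only [e1, e2, TensorProduct.sum_tmul, TensorProduct.tmul_sum, TensorProduct.smul_tmul_smul]
      have : ∀ j l q : J, (R g⁻¹ l j * R g j q) • ((St.i s (B.ρ g (φ l))) ⊗ₜ[k]
          (St.r s (A.ρ g (St.i q u)))) = (R g⁻¹ l j * R g j q) • ((St.i s (B.ρ g (φ l))) ⊗ₜ[k]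
          (St.r s (A.ρ g (St.i q u)))) := fun _ _ _ => rfl
      rw [Finset.sum_comm]
      have h4 : ∀ q : J, ∑ j, ∑ l, (R g⁻¹ l j * R g j q) • ((St.i s (B.ρ g (φ l))) ⊗ₜ[k]
          (St.r s (A.ρ g (St.i q u)))) = (St.i s (B.ρ g (φ q))) ⊗ₜ[k]
          (St.r s (A.ρ g (St.i q u))) := by
        intro q
        rw [Finset.sum_comm]
        simp only [← Finset.sum_smul, sum_inv_mul]
        rw [Finset.sum_eq_single q]
        · simp
        · intro b _ hb
          simp [hb]
        · simp
      rw [Finset.sum_comm]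
      simp only [Finset.sum_comm (f := fun j q => ∑ l, (R g⁻¹ l j * R g j q) • _)]
      exact Finset.sum_congr rfl (fun q _ => h4 q)
    simp only [e3]
    have e4 : ∀ s q, St.i s (B.ρ g (φ q)) = ∑ t, R g s t • A.ρ g (St.i t (φ q)) := fun s q => St.hi g s _
    simp only [e4, TensorProduct.sum_tmul, map_sum]
    rw [Finset.sum_comm]
    refine Eq.trans ?_ Finset.sum_comm
    refine Finset.sum_congr rfl (fun q _ => ?_)
    rw [Finset.sum_comm]
    refine Finset.sum_congr rfl (fun t _ => ?_)
    change _ = (A.ρ g (St.i t (φ q))) ⊗ₜ[k] (B.ρ g (St.r t (St.i q u)))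
    rw [← St.hr, TensorProduct.tmul_sum]
    refine Finset.sum_congr rfl (fun s _ => ?_)
    rw [TensorProduct.tmul_smul, TensorProduct.smul_tmul']
  exact congrArg (fun T => T v) this

theorem sig_eqv : Eqv (A.tens B) ((B.ext (dualMat R)).tens B) St.sig := by
  intro g v
  have : St.sig ∘ₗ (A.tens B).ρ g = ((B.ext (dualMat R)).tens B).ρ g ∘ₗ St.sig := by
    apply TensorProduct.ext'
    intro a u
    change St.sig ((A.ρ g a) ⊗ₜ[k] (B.ρ g u)) = ((B.ext (dualMat R)).tens B).ρ g (St.sig (a ⊗ₜ[k] u))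
    rw [sig_tmul, sig_tmul]
    -- left-hand side
    have e1 : ∀ j, ∑ s, (Pi.single j (St.r s (A.ρ g a)) : J → B.V) ⊗ₜ[k]
          (St.r j (St.i s (B.ρ g u))) =
        ∑ q, (Pi.single j (B.ρ g (St.r q a)) : J → B.V) ⊗ₜ[k] (St.r j (A.ρ g (St.i q u))) := by
      intro j
      have h1 : ∀ s, St.r j (St.i s (B.ρ g u)) = ∑ q, R g s q • St.r j (A.ρ g (St.i q u)) := by
        intro s
        rw [St.hi, map_sum]
        exact Finset.sum_congr rfl (fun l _ => (St.r j).map_smul _ _)
      simp only [h1, TensorProduct.tmul_sum]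
      rw [Finset.sum_comm]
      refine Finset.sum_congr rfl (fun q _ => ?_)
      have h2 : (Pi.single j (B.ρ g (St.r q a)) : J → B.V) =
          ∑ s, R g s q • (Pi.single j (St.r s (A.ρ g a)) : J → B.V) := by
        rw [← St.hr g q a]
        funext n
        rw [Finset.sum_apply]
        by_cases h : n = j
        · subst h
          simp
        · simp [h]
      rw [h2, TensorProduct.sum_tmul]
      exact Finset.sum_congr rfl (fun s _ => by
        rw [TensorProduct.tmul_smul, TensorProduct.smul_tmul'])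
    simp only [e1, map_sum]
    -- right-hand side
    have e2 : ∀ j q, ((B.ext (dualMat R)).tens B).ρ g
          ((Pi.single j (St.r q a) : J → B.V) ⊗ₜ[k] (St.r j (St.i q u))) =
        ∑ n, ∑ m, (R g⁻¹ j n * R g m j) • ((Pi.single n (B.ρ g (St.r q a)) : J → B.V) ⊗ₜ[k]
          (St.r m (A.ρ g (St.i q u)))) := by
      intro j q
      change ((B.ext (dualMat R)).ρ g (Pi.single j (St.r q a) : J → B.V)) ⊗ₜ[k]
        (B.ρ g (St.r j (St.i q u))) = _
      have h3 : (B.ext (dualMat R)).ρ g (Pi.single j (St.r q a) : J → B.V) =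
          ∑ n, R g⁻¹ j n • (Pi.single n (B.ρ g (St.r q a)) : J → B.V) := by
        funext n
        rw [ext_ρ, Finset.sum_apply, Finset.sum_eq_single j, Finset.sum_eq_single n]
        · simp [dualMat_apply]
        · intro b _ hb
          simp [Ne.symm hb]
        · simp
        · intro b _ hb
          simp [hb]
        · simp
      rw [h3, ← St.hr g j (St.i q u), TensorProduct.sum_tmul]
      refine Finset.sum_congr rfl (fun n _ => ?_)
      rw [TensorProduct.tmul_sum]
      refine Finset.sum_congr rfl (fun m _ => ?_)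
      rw [TensorProduct.smul_tmul_smul]
    simp only [e2]
    -- now sum over j first
    have e3 : ∀ q, ∑ j, ∑ n, ∑ m, (R g⁻¹ j n * R g m j) •
          ((Pi.single n (B.ρ g (St.r q a)) : J → B.V) ⊗ₜ[k] (St.r m (A.ρ g (St.i q u)))) =
        ∑ n, (Pi.single n (B.ρ g (St.r q a)) : J → B.V) ⊗ₜ[k] (St.r n (A.ρ g (St.i q u))) := by
      intro q
      rw [Finset.sum_comm]
      refine Finset.sum_congr rfl (fun n _ => ?_)
      rw [Finset.sum_comm]
      have h5 : ∀ m, ∑ j, (R g⁻¹ j n * R g m j) •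
          ((Pi.single n (B.ρ g (St.r q a)) : J → B.V) ⊗ₜ[k] (St.r m (A.ρ g (St.i q u)))) =
          (if m = n then 1 else 0 : k) •
          ((Pi.single n (B.ρ g (St.r q a)) : J → B.V) ⊗ₜ[k] (St.r m (A.ρ g (St.i q u)))) := by
        intro m
        rw [← Finset.sum_smul, ← sum_mul_inv R g m n]
        congr 1
        exact Finset.sum_congr rfl (fun _ _ => mul_comm _ _)
      simp only [h5]
      rw [Finset.sum_eq_single n]
      · simp
      · intro b _ hb
        simp [hb]
      · simp
    rw [Finset.sum_comm]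
    refine Eq.trans ?_ Finset.sum_comm
    exact Finset.sum_congr rfl (fun q _ => (e3 q).symm)
  exact congrArg (fun T => T v) this

end Stage

/-- The homology `H` at the end of the tower, and its splitting after tensoring with `B`. -/
theorem homology {R : G →* Matrix J J k} {A B : Ob k G} (St : Stage R A B 0) (hB : B.dim ≠ 0) :
    ∃ H : Ob k G, H.dim + 2 * A.dim = Fintype.card J * B.dim ∧
      ((B.ext (dualMat R)).tens B).Iso (((A.tens B).prod (H.tens B)).prod (A.tens B)) := by
  have hbij : Function.Bijective (EE St.i St.r) := by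
    have h1 : Function.Injective (EE St.i St.r) := by
      rw [← LinearMap.ker_eq_bot, LinearMap.ker_eq_bot']
      exact St.inj
    exact ⟨h1, LinearMap.injective_iff_surjective.mp h1⟩
  obtain ⟨u, hu⟩ : ∃ u : B.V, u ≠ 0 := by
    by_contra hcon
    push Not at hcon
    apply hB
    have : Subsingleton B.V := ⟨fun a b => by rw [hcon a, hcon b]⟩
    exact Module.finrank_zero_of_subsingleton
  have hTS : ∀ a, St.T (St.S a) = 0 := by
    intro a; rw [St.TS, zero_smul]
  obtain ⟨f, hf⟩ : ∃ f : Module.Dual k B.V, f u ≠ 0 := by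
    by_contra hcon
    push Not at hcon
    exact hu ((Module.forall_dual_apply_eq_zero_iff k u).mp hcon)
  let F : ∀ (X : Type u) [AddCommGroup X] [Module k X], X ⊗[k] B.V →ₗ[k] X := fun X _ _ =>
    (TensorProduct.rid k X).toLinearMap ∘ₗ (f.lTensor X)
  have hF : ∀ (X : Type u) [AddCommGroup X] [Module k X] (x : X) (b : B.V),
      F X (x ⊗ₜ[k] b) = f b • x := by
    intro X _ _ x b
    simp [F]
  clear_value F
  have hSi : Function.Injective St.S := by
    rw [← LinearMap.ker_eq_bot, LinearMap.ker_eq_bot']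
    intro a ha
    have h1 : EE St.i St.r (a ⊗ₜ[k] u) = 0 := by
      rw [← St.tau_S, LinearMap.rTensor_tmul, ha, TensorProduct.zero_tmul, map_zero]
    have h2 := St.inj _ h1
    have h3 := congrArg (F A.V) h2
    rw [hF, map_zero] at h3
    exact (smul_eq_zero.mp h3).resolve_left hf
  have hTs : Function.Surjective St.T := by
    intro a
    obtain ⟨w, hw⟩ := hbij.2 ((f u)⁻¹ • (a ⊗ₜ[k] u))
    rw [← St.T_sig] at hw
    refine ⟨F _ (St.sig w), ?_⟩
    have h1 : ∀ z, St.T (F _ z) = F A.V (St.T.rTensor B.V z) := by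
      intro z
      have : St.T ∘ₗ F _ = F A.V ∘ₗ St.T.rTensor B.V := by
        apply TensorProduct.ext'
        intro x b
        rw [LinearMap.comp_apply, LinearMap.comp_apply, hF, LinearMap.rTensor_tmul, hF, map_smul]
      exact congrArg (fun T => T z) this
    rw [h1, hw, map_smul, hF, smul_smul, inv_mul_cancel₀ hf, one_smul]
  obtain ⟨K, H, s₁, s₂, hβ, hα⟩ := homology_aux A (B.ext (dualMat R)) St.S St.T St.S_eqv St.T_eqv
    hTS hSi hTs
  refine ⟨H, ?_, ?_⟩
  · have h1 := s₁.dim_eq
    have h2 := s₂.dim_eq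
    have h3 := dim_ext B (dualMat R)
    omega
  · have hsplit1 : ((B.ext (dualMat R)).tens B).Iso ((K.tens B).prod (A.tens B)) := by
      refine (s₁.tens B).split_right St.sig St.sig_eqv (fun q hq => ?_)
      apply St.inj
      rw [← St.T_sig]
      have : (s₁.tens B).β = St.T.rTensor B.V := by
        change s₁.β.rTensor B.V = _
        rw [hβ]
      rw [this] at hq
      exact hq
    have hsplit2 : (K.tens B).Iso ((A.tens B).prod (H.tens B)) := by
      refine (s₂.tens B).split_left (St.tau ∘ₗ s₁.α.rTensor B.V) ?_ (fun a ha => ?_)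
      · intro g v
        have h1 := (SES.eqv_rTensor B s₁.α s₁.hα) g v
        have h2 := St.tau_eqv g (s₁.α.rTensor B.V v)
        rw [LinearMap.comp_apply, LinearMap.comp_apply]
        exact (congrArg St.tau h1).trans h2
      · apply St.inj
        rw [← St.tau_S]
        have h3 : ∀ z, s₁.α.rTensor B.V (s₂.α.rTensor B.V z) = St.S.rTensor B.V z := by
          intro z
          have : s₁.α.rTensor B.V ∘ₗ s₂.α.rTensor B.V = St.S.rTensor B.V := by
            rw [← LinearMap.rTensor_comp]
            congr 1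
            exact LinearMap.ext hα
          exact congrArg (fun T => T z) this
        have h4 := h3 a
        rw [← h4]
        exact ha
    exact hsplit1.trans (Iso.prod_congr hsplit2 (Iso.refl _))

end Pool.Agent.H398.Gam
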