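import Pool.Agent.H398.Gam.Gamma

set_option autoImplicit false
set_option linter.unusedVariables false
set_option linter.unusedSimpArgs false
set_option linter.unusedSectionVars false

open scoped TensorProduct
open Filter Topology

namespace Pool.Agent.H398.Gam

universe u v

variable {k : Type u} [Field k] {G : Type v} [Group G]

open Ob

variable (k G) in
/-- Isomorphism as a setoid. -/
def isoSetoid : Setoid (Ob k G) where
  r := Ob.Iso
  iseqv := ⟨Iso.refl, Iso.symm, Iso.trans⟩

variable (k G) in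
/-- Isomorphism classes. -/
def IsoCl : Type (max (u + 1) v) := Quotient (isoSetoid k G)

/-- The class of a representation. -/
def cls (A : Ob k G) : IsoCl k G := Quotient.mk (isoSetoid k G) A

theorem cls_eq {A B : Ob k G} (h : A.Iso B) : cls A = cls B := Quotient.sound h

theorem cls_exact {A B : Ob k G} (h : cls A = cls B) : A.Iso B := Quotient.exact h

theorem cls_surj (x : IsoCl k G) : ∃ A, cls A = x := Quotient.exists_rep x

noncomputable instance : Add (IsoCl k G) :=
  ⟨Quotient.lift₂ (fun A B => cls (A.prod B)) (fun _ _ _ _ h1 h2 => cls_eq (Iso.prod_congr h1 h2))⟩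

noncomputable instance : Mul (IsoCl k G) :=
  ⟨Quotient.lift₂ (fun A B => cls (A.tens B)) (fun _ _ _ _ h1 h2 => cls_eq (Iso.tens_congr h1 h2))⟩

noncomputable instance : Zero (IsoCl k G) := ⟨cls (zero k G)⟩

noncomputable instance : One (IsoCl k G) := ⟨cls (one k G)⟩

theorem cls_add (A B : Ob k G) : cls A + cls B = cls (A.prod B) := rfl

theorem cls_mul (A B : Ob k G) : cls A * cls B = cls (A.tens B) := rfl

theorem cls_zero : (0 : IsoCl k G) = cls (zero k G) := rfl

theorem cls_one : (1 : IsoCl k G) = cls (one k G) := rfl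

noncomputable instance : CommSemiring (IsoCl k G) where
  add := (· + ·)
  mul := (· * ·)
  zero := 0
  one := 1
  add_assoc x y z := by
    obtain ⟨A, rfl⟩ := cls_surj x
    obtain ⟨B, rfl⟩ := cls_surj y
    obtain ⟨C, rfl⟩ := cls_surj z
    exact cls_eq (prod_assoc A B C)
  zero_add x := by
    obtain ⟨A, rfl⟩ := cls_surj x
    exact cls_eq ((prod_comm _ _).trans (prod_zero A).symm)
  add_zero x := by
    obtain ⟨A, rfl⟩ := cls_surj x
    exact cls_eq (prod_zero A).symm
  add_comm x y := by
    obtain ⟨A, rfl⟩ := cls_surj x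
    obtain ⟨B, rfl⟩ := cls_surj y
    exact cls_eq (prod_comm A B)
  nsmul := nsmulRec
  left_distrib x y z := by
    obtain ⟨A, rfl⟩ := cls_surj x
    obtain ⟨B, rfl⟩ := cls_surj y
    obtain ⟨C, rfl⟩ := cls_surj z
    exact cls_eq (tens_prod A B C)
  right_distrib x y z := by
    obtain ⟨A, rfl⟩ := cls_surj x
    obtain ⟨B, rfl⟩ := cls_surj y
    obtain ⟨C, rfl⟩ := cls_surj z
    exact cls_eq (prod_tens C A B)
  zero_mul x := by
    obtain ⟨A, rfl⟩ := cls_surj x
    exact cls_eq (iso_of_dim_zero (by rw [dim_tens, zero_dim, zero_mul]) zero_dim)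
  mul_zero x := by
    obtain ⟨A, rfl⟩ := cls_surj x
    exact cls_eq (iso_of_dim_zero (by rw [dim_tens, zero_dim, mul_zero]) zero_dim)
  mul_assoc x y z := by
    obtain ⟨A, rfl⟩ := cls_surj x
    obtain ⟨B, rfl⟩ := cls_surj y
    obtain ⟨C, rfl⟩ := cls_surj z
    exact cls_eq (tens_assoc A B C)
  one_mul x := by
    obtain ⟨A, rfl⟩ := cls_surj x
    exact cls_eq (one_tens A)
  mul_one x := by
    obtain ⟨A, rfl⟩ := cls_surj x
    exact cls_eq (tens_one A)
  mul_comm x y := by
    obtain ⟨A, rfl⟩ := cls_surj x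
    obtain ⟨B, rfl⟩ := cls_surj y
    exact cls_eq (tens_comm A B)

theorem cls_pow (A : Ob k G) (n : ℕ) : cls (A.pow n) = cls A ^ n := by
  induction n with
  | zero => rw [pow_zero]; rfl
  | succ n ih => rw [pow_succ, ← ih]; rfl

variable [Fintype G]

/-- The dimension of the core on isomorphism classes. -/
noncomputable def cc (x : IsoCl k G) : ℝ :=
  Quotient.lift (fun A : Ob k G => (A.coreDim : ℝ))
    (fun _ _ h => congrArg Nat.cast (coreDim_iso h)) x

theorem cc_cls (A : Ob k G) : cc (cls A) = A.coreDim := rfl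

/-- **Existence of positive characters** with `φ ≤ coreDim` and `φ(M) = γ(M)`. -/
theorem exists_posChar (H : S_higman.{u, v}) (HA : S_additive.{u, v})
    (HE : S_existsChar.{max (u + 1) v}) (M : Ob k G) (hM : ¬ M.IsProj) :
    ∃ φ : PosChar k G, (∀ A, φ.f A ≤ A.coreDim) ∧ φ.f M = M.gamma := by
  obtain ⟨φ, h0, h1, hadd, hmul, hle, ha⟩ := HE (IsoCl k G) cc
    (fun x => by
      obtain ⟨A, rfl⟩ := cls_surj x
      exact Nat.cast_nonneg _)
    (by
      rw [cls_one, cc_cls, one_coreDim H M hM, Nat.cast_one])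
    (fun x y => by
      obtain ⟨A, rfl⟩ := cls_surj x
      obtain ⟨B, rfl⟩ := cls_surj y
      rw [cls_add, cc_cls, cc_cls, cc_cls, HA k G A B, Nat.cast_add])
    (fun x y => by
      obtain ⟨A, rfl⟩ := cls_surj x
      obtain ⟨B, rfl⟩ := cls_surj y
      rw [cls_mul, cc_cls, cc_cls, cc_cls]
      exact_mod_cast coreDim_tens_le H A B)
    (cls M) M.gamma (by linarith [gamma_pos H M hM])
    (fun m => by rw [← cls_pow]; exact gamma_pow_le H M hM m)
    (fun ε hε => by
      obtain ⟨m, hm, h⟩ := cn_le_pow H M hM ε hε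
      exact ⟨m, hm, by rw [← cls_pow]; exact h⟩)
  exact ⟨⟨fun A => φ (cls A), fun A => h0 _, fun A B h => congrArg φ (cls_eq h),
    fun A B => hadd (cls A) (cls B), fun A B => hmul (cls A) (cls B), h1⟩, fun A => hle _, ha⟩

end Pool.Agent.H398.Gam
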