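import Pool.Agent.H398.Gam.Num

set_option autoImplicit false
set_option linter.unusedVariables false
set_option linter.unusedSimpArgs false

open scoped TensorProduct

namespace Pool.Agent.H398.Gam

universe u v

variable {k : Type u} [Field k] {G : Type v} [Group G]

open Ob

theorem PosChar.f_zero (φ : PosChar k G) (A : Ob k G) (h : A.dim = 0) : φ.f A = 0 := by
  have hs : Subsingleton A.V := Module.finrank_zero_iff.mp h
  have hiso : A.Iso (A.prod A) := by
    refine Iso.mk' ⟨LinearMap.inl k A.V A.V, LinearMap.fst k A.V A.V, fun _ => Subsingleton.elim _ _,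
      fun _ => Subsingleton.elim _ _⟩ (fun g v => Subsingleton.elim _ _)
  have h1 := φ.iso _ _ hiso
  rw [φ.prod] at h1
  linarith

theorem PosChar.le_of_compl (φ : PosChar k G) {A W C : Ob k G} (h : W.Iso (A.prod C)) :
    φ.f A ≤ φ.f W := by
  have h1 := φ.iso _ _ h
  rw [φ.prod] at h1
  have := φ.nonneg C
  linarith

/-- The matrix form of `M`. -/
noncomputable def mm (M : Ob k G) : G →* Matrix (Fin M.dim) (Fin M.dim) k :=
  M.mat (Module.finBasis k M.V)

theorem mm_f (M : Ob k G) (φ : PosChar k G) : φ.f (ofMat (mm M)) = φ.f M :=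
  (φ.iso _ _ (M.mat_iso (Module.finBasis k M.V))).symm

theorem mm_dual_f (M : Ob k G) (φ : PosChar k G) : φ.f (ofMat (dualMat (mm M))) = φ.f M.dual :=
  (φ.iso _ _ (M.mat_dual_iso (Module.finBasis k M.V))).symm

theorem one_le_of_dim (M : Ob k G) (φ : PosChar k G) (h : (M.dim : k) ≠ 0) :
    1 ≤ φ.f M * φ.f M.dual := by
  obtain ⟨C, -, hiso⟩ := step (Stage.first (mm M)) (by simpa using h)
  have h1 := φ.le_of_compl hiso
  rw [φ.one, φ.ext_f, mm_f, mm_dual_f] at h1
  exact h1

theorem tower' (M : Ob k G) (n : ℕ) (hq : ∀ j, 1 ≤ j → j ≤ n + 1 → qn (M.dim : k) j ≠ 0) :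
    ∃ A B : Ob k G, Nonempty (Stage (RR (mm M) n) A B
        (qn (M.dim : k) (n + 2) / qn (M.dim : k) (n + 1))) ∧
      (A.dim : k) = qn (M.dim : k) (n + 1) ∧
      (B.dim : k) = qn (M.dim : k) (n + 2) ∧
      ∀ ψ : PosChar k G, ψ.f A = vv (ψ.f M) (ψ.f M.dual) n ∧
        ψ.f B = vv (ψ.f M) (ψ.f M.dual) (n + 1) := by
  have hc : Fintype.card (Fin M.dim) = M.dim := by simp
  have h := tower (mm M) n (by rw [hc]; exact hq)
  simp only [hc, mm_f, mm_dual_f] at h
  exact h

theorem sc_pos (a x : ℝ) (n : ℕ) (ha : 0 < a) (hx : 0 < x) : 0 < sc a x n := by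
  unfold sc
  split_ifs
  · exact one_pos
  · positivity

theorem claimA (M : Ob k G) (φ : PosChar k G) (θ : ℝ) (h0 : 0 < θ) (h1 : θ < Real.pi / 2)
    (ht : φ.f M * φ.f M.dual = (2 * Real.cos θ) ^ 2) (n : ℕ)
    (hq : ∀ j, 1 ≤ j → j ≤ n → qn (M.dim : k) j ≠ 0) : (n + 1) * θ ≤ Real.pi := by
  have hpi := Real.pi_pos
  have hcos : 0 < Real.cos θ := Real.cos_pos_of_mem_Ioo ⟨by linarith, h1⟩
  have hsin : 0 < Real.sin θ := Real.sin_pos_of_pos_of_lt_pi h0 (by linarith)
  have hM : 0 < φ.f M := by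
    rcases (φ.nonneg M).lt_or_eq with h | h
    · exact h
    · exfalso
      rw [← h, zero_mul] at ht
      have : 0 < (2 * Real.cos θ) ^ 2 := by positivity
      linarith
  induction n with
  | zero => push_cast; linarith
  | succ n ih =>
    have ih' := ih (fun j h1 h2 => hq j h1 (by omega))
    obtain ⟨A, B, -, -, -, hψ⟩ := tower' M n hq
    have hB := (hψ φ).2
    have h2 := vv_sin (φ.f M) (φ.f M.dual) θ (by positivity) ht (n + 1)
    rw [← hB] at h2
    have h3 : 0 ≤ φ.f B * Real.sin θ := mul_nonneg (φ.nonneg B) hsin.le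
    rw [h2] at h3
    have h4 := sc_pos (φ.f M) (2 * Real.cos θ) (n + 1) hM (by positivity)
    have h5 : 0 ≤ Real.sin (((n + 1 : ℕ) + 1 : ℝ) * θ) := by
      by_contra h
      push Not at h
      nlinarith
    by_contra h6
    push Not at h6
    have h7 : Real.sin (((n + 1 : ℕ) + 1 : ℝ) * θ - 2 * Real.pi) < 0 := by
      apply Real.sin_neg_of_neg_of_neg_pi_lt
      · push_cast
        nlinarith
      · linarith
    rw [Real.sin_sub_two_pi] at h7
    linarith

theorem sc_mul_sc (a b x : ℝ) (hx : x ≠ 0) (hab : a * b = x ^ 2) (n : ℕ) :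
    sc a x n * sc b x n = 1 := by
  unfold sc
  split_ifs
  · simp
  · field_simp
    linarith

theorem H_val (ψ : PosChar k G) (M A B H : Ob k G) (n : ℕ) (θ : ℝ) (hcos : 0 < Real.cos θ)
    (hsin : 0 < Real.sin θ)
    (ht : ψ.f M * ψ.f M.dual = (2 * Real.cos θ) ^ 2)
    (hA : ψ.f A = vv (ψ.f M) (ψ.f M.dual) n) (hB : ψ.f B = vv (ψ.f M) (ψ.f M.dual) (n + 1))
    (hB0 : ψ.f B ≠ 0)
    (hiso : ((B.ext (dualMat (RR (mm M) n))).tens B).Iso
      (((A.tens B).prod (H.tens B)).prod (A.tens B))) :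
    ψ.f H = sc (ψ.f M) (2 * Real.cos θ) n * (2 * Real.cos ((n + 2) * θ)) := by
  have h1 := ψ.iso _ _ hiso
  rw [ψ.tens, ψ.ext_f, ψ.prod, ψ.prod, ψ.tens, ψ.tens] at h1
  have h4 : ψ.f (ofMat (dualMat (RR (mm M) n))) =
      (if Even n then (ψ.f M.dual) else (ψ.f M)) := by
    rw [RR_even]
    by_cases h : Even n
    · simp [h, mm_dual_f]
    · simp [h, dualMat_dualMat, mm_f]
  rw [h4] at h1
  have h2 : ψ.f B * (if Even n then (ψ.f M.dual) else (ψ.f M)) = 2 * ψ.f A + ψ.f H := by
    apply mul_right_cancel₀ hB0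
    linarith
  have h3 := vv_sin (ψ.f M) (ψ.f M.dual) θ (by positivity) ht (n + 1)
  have h5 := vv_sin (ψ.f M) (ψ.f M.dual) θ (by positivity) ht n
  rw [← hB] at h3
  rw [← hA] at h5
  have h6 := sc_mul (ψ.f M) (ψ.f M.dual) (2 * Real.cos θ) (by positivity) ht n
  have h7 : ψ.f H * Real.sin θ = (2 * Real.cos θ) * sc (ψ.f M) (2 * Real.cos θ) n *
      Real.sin (((n + 1 : ℕ) + 1 : ℝ) * θ) -
      2 * (sc (ψ.f M) (2 * Real.cos θ) n * Real.sin ((n + 1) * θ)) := by
    rw [← h5, ← h6]
    linear_combination (if Even n then (ψ.f M.dual) else (ψ.f M)) * h3 - Real.sin θ * h2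
  have e2 : ((n + 1 : ℕ) + 1 : ℝ) * θ = ((n : ℝ) + 2) * θ := by push_cast; ring
  have e3 : ((n : ℝ) + 1) * θ = ((n : ℝ) + 2) * θ - θ := by ring
  rw [e2, e3, Real.sin_sub] at h7
  apply mul_right_cancel₀ hsin.ne'
  rw [h7]
  ring

/-- **The tower theorem.** If the value `t = φ(M) φ(M^*)` of a positive character is in `(0, 4)`,
then `t = 4 cos² (π / (ℓ p^i))`, `ℓ ≥ 1` least with `q ℓ = 0`. -/
theorem TL (p : ℕ) [hp : Fact p.Prime] [CharP k p] (N : ℕ) :
    ∀ (M : Ob k G) (φ : PosChar k G) (θ : ℝ), 0 < θ → θ < Real.pi / 2 →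
      φ.f M * φ.f M.dual = (2 * Real.cos θ) ^ 2 → Real.pi ≤ 2 ^ N * θ →
      ∃ l i : ℕ, 1 ≤ l ∧ qn (M.dim : k) l = 0 ∧ (∀ j, 1 ≤ j → j < l → qn (M.dim : k) j ≠ 0) ∧
        θ * (l * p ^ i) = Real.pi := by
  induction N with
  | zero =>
    intro M φ θ h0 h1 ht hN
    exfalso
    have := Real.pi_pos
    simp at hN
    linarith
  | succ N ih =>
    intro M φ θ h0 h1 ht hN
    have hpi := Real.pi_pos
    have hcos : 0 < Real.cos θ := Real.cos_pos_of_mem_Ioo ⟨by linarith, h1⟩
    have hsin : 0 < Real.sin θ := Real.sin_pos_of_pos_of_lt_pi h0 (by linarith)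
    have hex : ∃ j, 1 ≤ j ∧ qn (M.dim : k) j = 0 := by
      by_contra hne
      push Not at hne
      obtain ⟨n, hn⟩ := exists_nat_gt (Real.pi / θ)
      have := claimA M φ θ h0 h1 ht n (fun j hj _ => hne j hj)
      rw [div_lt_iff₀ h0] at hn
      nlinarith
    classical
    let l := Nat.find hex
    have hl : 1 ≤ l ∧ qn (M.dim : k) l = 0 := Nat.find_spec hex
    have hmin : ∀ j, 1 ≤ j → j < l → qn (M.dim : k) j ≠ 0 := fun j h1 h2 h3 =>
      Nat.find_min hex h2 ⟨h1, h3⟩
    have hl1 : l ≠ 1 := by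
      intro h
      have := hl.2
      rw [h] at this
      simp [qn] at this
    obtain ⟨n, hn⟩ : ∃ n, l = n + 2 := ⟨l - 2, by omega⟩
    have hle : (n + 2) * θ ≤ Real.pi := by
      have := claimA M φ θ h0 h1 ht (n + 1) (fun j h1 h2 => hmin j h1 (by omega))
      push_cast at this
      linarith
    rcases hle.lt_or_eq with hlt | heq
    swap
    · refine ⟨l, 0, hl.1, hl.2, hmin, ?_⟩
      rw [hn]
      push_cast
      linarith
    obtain ⟨A, B, ⟨St⟩, hA, hB, hψ⟩ := tower' M n (fun j h1 h2 => hmin j h1 (by omega))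
    have hq0 : qn (M.dim : k) (n + 2) = 0 := by rw [← hn]; exact hl.2
    have hκ : qn (M.dim : k) (n + 2) / qn (M.dim : k) (n + 1) = 0 := by rw [hq0, zero_div]
    rw [hκ] at St
    have hprod : 0 < φ.f M * φ.f M.dual := by rw [ht]; positivity
    have hM : 0 < φ.f M := by
      rcases (φ.nonneg M).lt_or_eq with h | h
      · exact h
      · rw [← h, zero_mul] at hprod; exact absurd hprod (lt_irrefl _)
    have hM' : 0 < φ.f M.dual := by
      rcases (φ.nonneg M.dual).lt_or_eq with h | h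
      · exact h
      · rw [← h, mul_zero] at hprod; exact absurd hprod (lt_irrefl _)
    have hs2 : 0 < Real.sin ((n + 2) * θ) :=
      Real.sin_pos_of_pos_of_lt_pi (by positivity) hlt
    have hBpos : ∀ ψ : PosChar k G, 0 < ψ.f M → ψ.f M * ψ.f M.dual = (2 * Real.cos θ) ^ 2 →
        0 < ψ.f B := by
      intro ψ hψM hψt
      have h2 := vv_sin (ψ.f M) (ψ.f M.dual) θ (by positivity) hψt (n + 1)
      rw [← (hψ ψ).2] at h2
      have e2 : ((n + 1 : ℕ) + 1 : ℝ) * θ = ((n : ℝ) + 2) * θ := by push_cast; ring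
      rw [e2] at h2
      have h4 := sc_pos (ψ.f M) (2 * Real.cos θ) (n + 1) hψM (by positivity)
      have h5 : 0 < ψ.f B * Real.sin θ := by rw [h2]; positivity
      exact pos_of_mul_pos_left h5 hsin.le
    have ht' : φ.star.f M * φ.star.f M.dual = (2 * Real.cos θ) ^ 2 := by
      rw [φ.star_dual, φ.star_f, mul_comm]; exact ht
    have hBφ := hBpos φ hM ht
    have hBφ' := hBpos φ.star hM' ht'
    have hBdim : B.dim ≠ 0 := fun h => hBφ.ne' (φ.f_zero B h)
    obtain ⟨H, hHdim, hiso⟩ := homology St hBdim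
    have hc : Fintype.card (Fin M.dim) = M.dim := by simp
    have hv := H_val φ M A B H n θ hcos hsin ht (hψ φ).1 (hψ φ).2 hBφ.ne' hiso
    have hv' := H_val φ.star M A B H n θ hcos hsin ht' (hψ φ.star).1 (hψ φ.star).2 hBφ'.ne' hiso
    have hHk : (H.dim : k) = -2 * qn (M.dim : k) (n + 1) := by
      have h2 : ((H.dim + 2 * A.dim : ℕ) : k) = ((Fintype.card (Fin M.dim) * B.dim : ℕ) : k) := by
        rw [hHdim]
      rw [hc] at h2
      push_cast at h2
      rw [hB, hq0, mul_zero, hA] at h2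
      linear_combination h2
    have hsq : qn (M.dim : k) (n + 1) ^ 2 = 1 := by
      have := qn_cassini (M.dim : k) (n + 1)
      have e : qn (M.dim : k) (n + 1 + 1) = 0 := hq0
      rw [e] at this
      linear_combination this
    have hH2 : (H.dim : k) = 2 ∨ (H.dim : k) = -2 := by
      rcases sq_eq_one_iff.mp hsq with h | h
      · right; rw [hHk, h]; ring
      · left; rw [hHk, h]; ring
    have hscp := sc_pos (φ.f M) (2 * Real.cos θ) n hM (by positivity)
    have htH : φ.f H * φ.f H.dual = (2 * Real.cos ((n + 2) * θ)) ^ 2 := by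
      rw [← φ.star_f, hv, hv']
      have := sc_mul_sc (φ.f M) (φ.star.f M) (2 * Real.cos θ) (by positivity)
        (by rw [φ.star_f]; exact ht) n
      linear_combination (2 * Real.cos ((n + 2) * θ)) ^ 2 * this
    have hcn : 0 ≤ Real.cos ((n + 2) * θ) := by
      by_contra h
      push Not at h
      have := φ.nonneg H
      rw [hv] at this
      nlinarith
    rcases hcn.lt_or_eq with hcp | hc0
    · have hhalf : (n + 2) * θ < Real.pi / 2 := by
        by_contra h
        push Not at h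
        have := Real.cos_nonpos_of_pi_div_two_le_of_le h (by linarith)
        linarith
      have hN' : Real.pi ≤ 2 ^ N * ((n + 2) * θ) := by
        have e : (2 : ℝ) ^ (N + 1) * θ = 2 ^ N * (2 * θ) := by ring
        rw [e] at hN
        have : 2 ^ N * (2 * θ) ≤ (2 : ℝ) ^ N * ((n + 2) * θ) := by
          apply mul_le_mul_of_nonneg_left _ (by positivity)
          nlinarith [(Nat.cast_nonneg n : (0 : ℝ) ≤ n)]
        linarith
      obtain ⟨l', i, hl'1, hl'0, hl'min, hl'⟩ := ih H φ ((n + 2) * θ) (by positivity) hhalf htH hN'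
      have hqH : ∀ j, qn (H.dim : k) j = 0 ↔ (j : k) = 0 := by
        intro j
        rcases hH2 with h | h
        · rw [h, qn_two]
        · rw [h, qn_neg_two]
          constructor
          · intro h3
            rcases mul_eq_zero.mp h3 with h4 | h4
            · exact absurd h4 (pow_ne_zero _ (by simp))
            · exact h4
          · intro h3
            rw [h3, mul_zero]
      have hlp : l' = p := by
        have h3 : p ∣ l' := (CharP.cast_eq_zero_iff k p l').mp ((hqH l').mp hl'0)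
        have h4 : p ≤ l' := Nat.le_of_dvd hl'1 h3
        rcases h4.lt_or_eq with h5 | h5
        · exact absurd ((hqH p).mpr (CharP.cast_eq_zero k p)) (hl'min p hp.out.one_lt.le h5)
        · exact h5.symm
      refine ⟨l, i + 1, hl.1, hl.2, hmin, ?_⟩
      rw [hn]
      rw [hlp] at hl'
      push_cast
      rw [pow_succ]
      linarith
    · have hhalf : (n + 2) * θ = Real.pi / 2 := by
        apply Real.injOn_cos
        · exact ⟨by positivity, hlt.le⟩
        · exact ⟨by positivity, by linarith⟩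
        · rw [← hc0, Real.cos_pi_div_two]
      have hp2 : p = 2 := by
        by_contra hp2
        have h2k : (2 : k) ≠ 0 := by
          intro h
          have h3 : ((2 : ℕ) : k) = 0 := by exact_mod_cast h
          have h4 := (CharP.cast_eq_zero_iff k p 2).mp h3
          exact hp2 ((Nat.prime_dvd_prime_iff_eq hp.out Nat.prime_two).mp h4)
        have hHne : (H.dim : k) ≠ 0 := by
          rcases hH2 with h | h
          · rw [h]; exact h2k
          · rw [h]; exact neg_ne_zero.mpr h2k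
        have := one_le_of_dim H φ hHne
        rw [htH, ← hc0] at this
        norm_num at this
      refine ⟨l, 1, hl.1, hl.2, hmin, ?_⟩
      rw [hn, hp2]
      push_cast
      linarith

end Pool.Agent.H398.Gam
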