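import Pool.Agent.H398.Gam.Star

set_option autoImplicit false
set_option linter.unusedVariables false
set_option linter.unusedSimpArgs false

open scoped TensorProduct

namespace Pool.Agent.H398.Gam

universe u v

variable {k : Type u} [Field k] {G : Type v} [Group G] {J : Type} [Fintype J] [DecidableEq J]

open Ob

/-- The quantum numbers: `q 0 = 0`, `q 1 = 1`, `q (n+2) = δ q (n+1) - q n`. -/
def qn (δ : k) : ℕ → k
  | 0 => 0
  | 1 => 1
  | n + 2 => δ * qn δ (n + 1) - qn δ n

theorem qn_cassini (δ : k) (n : ℕ) :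
    qn δ (n + 1) ^ 2 + qn δ n ^ 2 - δ * qn δ n * qn δ (n + 1) = 1 := by
  induction n with
  | zero => simp [qn]
  | succ n ih =>
    have : qn δ (n + 2) = δ * qn δ (n + 1) - qn δ n := rfl
    rw [this]
    linear_combination ih

theorem qn_two (n : ℕ) : qn (2 : k) n = n := by
  induction n using Nat.twoStepInduction with
  | zero => simp [qn]
  | one => simp [qn]
  | more n h1 h2 =>
    have : qn (2 : k) (n + 2) = 2 * qn 2 (n + 1) - qn 2 n := rfl
    rw [this, h1, h2]
    push_cast
    ring

theorem qn_neg_two (n : ℕ) : qn (-2 : k) n = (-1) ^ (n + 1) * n := by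
  induction n using Nat.twoStepInduction with
  | zero => simp [qn]
  | one => simp [qn]
  | more n h1 h2 =>
    have : qn (-2 : k) (n + 2) = -2 * qn (-2) (n + 1) - qn (-2) n := rfl
    rw [this, h1, h2]
    push_cast
    ring

/-- The values of a positive character on the tower. -/
noncomputable def vv (a b : ℝ) : ℕ → ℝ
  | 0 => 1
  | 1 => a
  | n + 2 => vv a b (n + 1) * (if Even n then b else a) - vv a b n

/-- The scale. -/
noncomputable def sc (a x : ℝ) (n : ℕ) : ℝ := if Even n then 1 else a / x

theorem sc_add_two (a x : ℝ) (n : ℕ) : sc a x (n + 2) = sc a x n := by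
  unfold sc
  have : Even (n + 2) ↔ Even n := by simp [Nat.even_add]
  simp [this]

theorem sc_mul (a b x : ℝ) (hx : x ≠ 0) (hab : a * b = x ^ 2) (n : ℕ) :
    sc a x (n + 1) * (if Even n then b else a) = x * sc a x n := by
  unfold sc
  by_cases h : Even n
  · have h2 : ¬ Even (n + 1) := by simpa [Nat.even_add_one] using h
    simp only [h, h2, if_true, if_false]
    field_simp
    linarith
  · have h2 : Even (n + 1) := by simpa [Nat.even_add_one] using h
    simp only [h, h2, if_true, if_false]
    field_simp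

theorem vv_sin (a b θ : ℝ) (hx : 2 * Real.cos θ ≠ 0) (hab : a * b = (2 * Real.cos θ) ^ 2) (n : ℕ) :
    vv a b n * Real.sin θ = sc a (2 * Real.cos θ) n * Real.sin ((n + 1) * θ) := by
  induction n using Nat.twoStepInduction with
  | zero => simp [vv, sc]
  | one =>
    have : ((1 : ℕ) + 1 : ℝ) * θ = 2 * θ := by norm_num
    rw [this, Real.sin_two_mul]
    have h : ¬ Even 1 := by decide
    have hc : Real.cos θ ≠ 0 := fun h0 => hx (by rw [h0]; ring)
    simp only [vv, sc, h, if_false]
    field_simp
  | more n h1 h2 =>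
    have h3 : vv a b (n + 2) = vv a b (n + 1) * (if Even n then b else a) - vv a b n := rfl
    have h4 := sc_mul a b _ hx hab n
    rw [h3, sub_mul, h1, sc_add_two]
    have h5 : vv a b (n + 1) * (if Even n then b else a) * Real.sin θ =
        2 * Real.cos θ * sc a (2 * Real.cos θ) n * Real.sin (((n + 1 : ℕ) + 1) * θ) := by
      rw [← h4]
      linear_combination (if Even n then b else a) * h2
    rw [h5]
    have e1 : ((n + 2 : ℕ) + 1 : ℝ) * θ = ((n : ℝ) + 2) * θ + θ := by push_cast; ring
    have e2 : ((n + 1 : ℕ) + 1 : ℝ) * θ = ((n : ℝ) + 2) * θ := by push_cast; ring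
    have e3 : ((n : ℝ) + 1) * θ = ((n : ℝ) + 2) * θ - θ := by ring
    rw [e1, e2, e3, Real.sin_add, Real.sin_sub]
    ring

/-- The alternating sequence of the matrix representation and its dual. -/
def RR (R : G →* Matrix J J k) : ℕ → (G →* Matrix J J k)
  | 0 => R
  | n + 1 => dualMat (RR R n)

theorem dualMat_dualMat (R : G →* Matrix J J k) : dualMat (dualMat R) = R := by
  ext g i j
  simp [dualMat_apply]

theorem RR_even (R : G →* Matrix J J k) (n : ℕ) : RR R n = if Even n then R else dualMat R := by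
  induction n with
  | zero => simp [RR]
  | succ n ih =>
    have : RR R (n + 1) = dualMat (RR R n) := rfl
    rw [this, ih]
    by_cases h : Even n
    · have h2 : ¬ Even (n + 1) := by simpa [Nat.even_add_one] using h
      simp [h, h2]
    · have h2 : Even (n + 1) := by simpa [Nat.even_add_one] using h
      simp [h, h2, dualMat_dualMat]

theorem tower (R : G →* Matrix J J k) (n : ℕ)
    (hq : ∀ j, 1 ≤ j → j ≤ n + 1 → qn (Fintype.card J : k) j ≠ 0) :
    ∃ A B : Ob k G, Nonempty (Stage (RR R n) A B
        (qn (Fintype.card J : k) (n + 2) / qn (Fintype.card J : k) (n + 1))) ∧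
      (A.dim : k) = qn (Fintype.card J : k) (n + 1) ∧
      (B.dim : k) = qn (Fintype.card J : k) (n + 2) ∧
      ∀ ψ : PosChar k G, ψ.f A = vv (ψ.f (ofMat R)) (ψ.f (ofMat (dualMat R))) n ∧
        ψ.f B = vv (ψ.f (ofMat R)) (ψ.f (ofMat (dualMat R))) (n + 1) := by
  induction n with
  | zero =>
    refine ⟨one k G, ofMat R, ⟨?_⟩, ?_, ?_, ?_⟩
    · have h : qn (Fintype.card J : k) (0 + 2) / qn (Fintype.card J : k) (0 + 1) =
          (Fintype.card J : k) := by simp [qn]
      rw [h]
      exact Stage.first R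
    · rw [dim_one]; simp [qn]
    · rw [dim_ext, dim_one]; simp [qn]
    · intro ψ
      exact ⟨ψ.one, rfl⟩
  | succ n ih =>
    obtain ⟨A, B, ⟨St⟩, hA, hB, hψ⟩ := ih (fun j h1 h2 => hq j h1 (by omega))
    have hne : qn (Fintype.card J : k) (n + 2) ≠ 0 := hq (n + 2) (by omega) (by omega)
    have hne1 : qn (Fintype.card J : k) (n + 1) ≠ 0 := hq (n + 1) (by omega) (by omega)
    obtain ⟨C, ⟨St'⟩, hiso⟩ := step St (div_ne_zero hne hne1)
    refine ⟨B, C, ⟨?_⟩, hB, ?_, ?_⟩
    · have h : qn (Fintype.card J : k) (n + 1 + 2) / qn (Fintype.card J : k) (n + 1 + 1) =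
          (Fintype.card J : k) -
            (qn (Fintype.card J : k) (n + 2) / qn (Fintype.card J : k) (n + 1))⁻¹ := by
        have h3 : qn (Fintype.card J : k) (n + 1 + 2) = (Fintype.card J : k) *
          qn (Fintype.card J : k) (n + 2) - qn (Fintype.card J : k) (n + 1) := rfl
        rw [h3]
        field_simp
      rw [h]
      exact St'
    · have h1 := dim_eq_of_iso hiso
      rw [dim_ext, dim_prod] at h1
      have h2 : ((Fintype.card J * B.dim : ℕ) : k) = ((A.dim + C.dim : ℕ) : k) := by rw [h1]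
      push_cast at h2
      have h3 : qn (Fintype.card J : k) (n + 1 + 2) = (Fintype.card J : k) *
          qn (Fintype.card J : k) (n + 2) - qn (Fintype.card J : k) (n + 1) := rfl
      rw [h3, ← hA, ← hB]
      linear_combination -h2
    · intro ψ
      refine ⟨(hψ ψ).2, ?_⟩
      have h1 := ψ.iso _ _ hiso
      rw [ψ.prod, ψ.ext_f, (hψ ψ).1, (hψ ψ).2] at h1
      have h3 : vv (ψ.f (ofMat R)) (ψ.f (ofMat (dualMat R))) (n + 1 + 1) =
        vv (ψ.f (ofMat R)) (ψ.f (ofMat (dualMat R))) (n + 1) *
          (if Even n then (ψ.f (ofMat (dualMat R))) else (ψ.f (ofMat R))) -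
        vv (ψ.f (ofMat R)) (ψ.f (ofMat (dualMat R))) n := rfl
      rw [h3]
      have h4 : ψ.f (ofMat (dualMat (RR R n))) =
          (if Even n then (ψ.f (ofMat (dualMat R))) else (ψ.f (ofMat R))) := by
        rw [RR_even]
        by_cases h : Even n
        · simp [h]
        · simp [h, dualMat_dualMat]
      rw [h4] at h1
      linarith

end Pool.Agent.H398.Gam
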