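import Pool.Agent.H398.Gam.IsoRing

set_option autoImplicit false
set_option linter.unusedVariables false
set_option linter.unusedSimpArgs false
set_option linter.unusedSectionVars false

open scoped TensorProduct
open Filter Topology

namespace Pool.Agent.H398.Gam

universe u v

variable {k : Type u} [Field k] {G : Type v} [Group G]

open Ob

theorem cs_ineq (z w z' w' s s' : ℝ) (hz : 0 ≤ z) (hw : 0 ≤ w) (hz' : 0 ≤ z') (hw' : 0 ≤ w')
    (hs : 0 ≤ s) (hs' : 0 ≤ s') (h : s ^ 2 ≤ z * w) (h' : s' ^ 2 ≤ z' * w') :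
    (s + s') ^ 2 ≤ (z + z') * (w + w') := by
  have h1 : (2 * (s * s')) ^ 2 ≤ (z * w' + z' * w) ^ 2 := by
    have h2 : s ^ 2 * s' ^ 2 ≤ (z * w) * (z' * w') :=
      mul_le_mul h h' (by positivity) (by positivity)
    nlinarith [sq_nonneg (z * w' - z' * w)]
  have h3 : 2 * (s * s') ≤ z * w' + z' * w :=
    le_of_sq_le_sq' h1 (by positivity)
  nlinarith
where
  le_of_sq_le_sq' {a b : ℝ} (h : a ^ 2 ≤ b ^ 2) (hb : 0 ≤ b) : a ≤ b := by
    by_contra hab
    push Not at hab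
    nlinarith

theorem le_of_sq (a b : ℝ) (h : a ^ 2 ≤ b ^ 2) (hb : 0 ≤ b) : a ≤ b := by
  by_contra hab
  push Not at hab
  nlinarith

theorem bound_a (t y s : ℝ) (h : (y + s) ^ 2 ≤ t ^ 2) (hs : s ^ 2 = t) (h1 : 1 ≤ s) (h2 : s < 2)
    (ht : 0 ≤ t) : y < 2 := by
  have h3 := le_of_sq _ _ h ht
  nlinarith

theorem bound_b (t y : ℝ) (h : (y + 2) ^ 2 ≤ t ^ 2) (ht : 0 ≤ t) (ht4 : t < 4) : y < 2 := by
  have h3 := le_of_sq _ _ h ht
  linarith

theorem bound_c (t y : ℝ) (h : (y + 0) ^ 2 ≤ t ^ 2) (ht : 0 ≤ t) (ht1 : t ≤ 1) : y < 2 := by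
  have h3 := le_of_sq _ _ h ht
  linarith

theorem am_gm (r a b : ℝ) (h : r ^ 2 = a * b) (ha : 0 ≤ a) (hb : 0 ≤ b) : 2 * r ≤ a + b := by
  apply le_of_sq _ _ _ (by linarith)
  nlinarith [sq_nonneg (a - b)]

theorem lt_four (t y z : ℝ) (h : z ≤ t * (y - 1) ^ 2) (ht0 : 0 ≤ t) (ht : t < 4) (h1 : 1 ≤ y)
    (h2 : y < 2) : z < 4 := by
  have a6 : (y - 1) ^ 2 ≤ 1 := by nlinarith
  have : t * (y - 1) ^ 2 ≤ t * 1 := mul_le_mul_of_nonneg_left a6 ht0
  linarith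

/-- `φ(V)² = φ(Z) + φ(Z')`, and for the dual. -/
theorem sq_vals (φ : PosChar k G) {V Z Z' : Ob k G} (h : (V.tens V).Iso (Z.prod Z')) :
    φ.f V * φ.f V = φ.f Z + φ.f Z' ∧
      φ.f V.dual * φ.f V.dual = φ.f Z.dual + φ.f Z'.dual := by
  constructor
  · have := φ.iso _ _ h
    rwa [φ.tens, φ.prod] at this
  · have := φ.star.iso _ _ h
    rwa [φ.star.tens, φ.star.prod] at this

theorem triple_le (φ : PosChar k G) (M : Ob k G) : φ.f M ≤ φ.f M * φ.f M.dual * φ.f M := by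
  obtain ⟨C, hC⟩ := retract_triple M
  have h1 := φ.le_of_compl hC
  rwa [φ.tens, φ.tens] at h1

/-- (b) -/
theorem four_le (HS : S_sqExists.{u, v}) (HR : S_sqEnd.{u, v}) (h2 : (2 : k) ≠ 0)
    (φ : PosChar k G) (V : Ob k G)
    (h1 : (V.dim : k) ≠ 1) (h1' : (V.dim : k) ≠ -1) (h3 : (V.dim : k) ≠ 2)
    (h3' : (V.dim : k) ≠ -2) :
    φ.f V * φ.f V.dual = 0 ∨ 4 ≤ φ.f V * φ.f V.dual := by
  obtain ⟨Z, Z', ⟨sq⟩, ⟨sq'⟩, hiso, -, -⟩ := HS k G V 1 h2 (by ring)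
  obtain ⟨C, hC⟩ := HR k G V Z 1 h2 (by ring) sq (by simpa using h3') (by simpa using h1')
  obtain ⟨C', hC'⟩ := HR k G V Z' (-1) h2 (by ring) sq' (by simpa using h3) (by simpa using h1)
  have e1 := φ.le_of_compl hC
  have e2 := φ.le_of_compl hC'
  rw [φ.tens, φ.tens] at e1 e2
  obtain ⟨e3, e4⟩ := sq_vals φ hiso
  set t := φ.f V * φ.f V.dual with ht
  have ht0 : 0 ≤ t := mul_nonneg (φ.nonneg _) (φ.nonneg _)
  have h5 := cs_ineq (φ.f Z) (φ.f Z.dual) (φ.f Z') (φ.f Z'.dual) (Real.sqrt t) (Real.sqrt t)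
    (φ.nonneg _) (φ.nonneg _) (φ.nonneg _) (φ.nonneg _) (Real.sqrt_nonneg _) (Real.sqrt_nonneg _)
    (by rw [Real.sq_sqrt ht0]; exact e1) (by rw [Real.sq_sqrt ht0]; exact e2)
  rw [← e3, ← e4] at h5
  have h6 : (φ.f V * φ.f V) * (φ.f V.dual * φ.f V.dual) = t ^ 2 := by rw [ht]; ring
  rw [h6] at h5
  have h7 : (Real.sqrt t + Real.sqrt t) ^ 2 = 4 * t := by
    have := Real.sq_sqrt ht0
    nlinarith
  rw [h7] at h5
  rcases ht0.lt_or_eq with hpos | h0
  · right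
    nlinarith
  · left
    exact h0.symm

/-- (C) The case `δ = -2ε`. -/
theorem twist_vals (HS : S_sqExists.{u, v}) (HR : S_sqEnd.{u, v}) (HT : S_sqTraceless.{u, v})
    (h2 : (2 : k) ≠ 0)
    (φ : PosChar k G) (V Z Z' Y : Ob k G) (ε : k) (hε : ε * ε = 1)
    (sq : SQ V ε Z) (sq' : SQ V (-ε) Z') (hiso : (V.tens V).Iso (Z.prod Z'))
    (hd : (Z.dim : k) = 2⁻¹ * ((V.dim : k) ^ 2 + ε * V.dim))
    (hd' : (Z'.dim : k) = 2⁻¹ * ((V.dim : k) ^ 2 - ε * V.dim))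
    (hY : (V.dual.tens Z).Iso (V.prod Y))
    (hδ : (V.dim : k) = -2 * ε) (ht : φ.f V * φ.f V.dual < 4) :
    φ.f Y = 0 ∧ φ.f V.dual * φ.f Z = φ.f V ∧ φ.f Z * φ.f Z.dual = 1 := by
  have hε0 : ε ≠ 0 := by
    intro h
    rw [h, mul_zero] at hε
    exact zero_ne_one hε
  have hδ0 : (V.dim : k) ≠ 0 := by
    rw [hδ]
    exact mul_ne_zero (neg_ne_zero.mpr h2) hε0
  have ht1 := one_le_of_dim V φ hδ0
  have hZ1 : (Z.dim : k) = 1 := by
    rw [hd, hδ]
    have : (-2 * ε) ^ 2 + ε * (-2 * ε) = 2 * (ε * ε) := by ring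
    rw [this, hε, mul_one, inv_mul_cancel₀ h2]
  have hZ3 : (Z'.dim : k) = 3 := by
    rw [hd', hδ]
    have : (-2 * ε) ^ 2 - ε * (-2 * ε) = 2 * (3 * (ε * ε)) := by ring
    rw [this, hε, mul_one, ← mul_assoc, inv_mul_cancel₀ h2, one_mul]
  have hx1 := one_le_of_dim Z φ (by rw [hZ1]; exact one_ne_zero)
  obtain ⟨e3, e4⟩ := sq_vals φ hiso
  set t := φ.f V * φ.f V.dual with htdef
  set x := φ.f Z * φ.f Z.dual with hxdef
  have ht0 : 0 ≤ t := by linarith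
  have hx0 : 0 ≤ x := by linarith
  have h6 : (φ.f V * φ.f V) * (φ.f V.dual * φ.f V.dual) = t ^ 2 := by rw [htdef]; ring
  have hst2 : Real.sqrt t < 2 := by
    rw [show (2 : ℝ) = Real.sqrt 4 by
      rw [show (4 : ℝ) = 2 ^ 2 by norm_num, Real.sqrt_sq (by norm_num)]]
    exact Real.sqrt_lt_sqrt ht0 ht
  have hst1 : 1 ≤ Real.sqrt t := Real.one_le_sqrt.mpr ht1
  have hsqt := Real.sq_sqrt ht0
  have hsqx := Real.sq_sqrt hx0
  have hsx1 : 1 ≤ Real.sqrt x := Real.one_le_sqrt.mpr hx1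
  have h22 : (V.dim : k) ≠ -2 * -ε := by
    intro h
    rw [hδ] at h
    have h4 : (2 * 2) * ε = 0 := by linear_combination -h
    rcases mul_eq_zero.mp h4 with h5 | h5
    · rcases mul_eq_zero.mp h5 with h6 | h6
      · exact h2 h6
      · exact h2 h6
    · exact hε0 h5
  -- the bound on `x`
  have hsx : Real.sqrt x < 2 := by
    by_cases h3 : (3 : k) = 0
    · obtain ⟨T, C, hT, hC⟩ := HT k G V Z' (-ε) h2 (by rw [neg_mul_neg]; exact hε) sq' h22 hδ0
      have e5 := φ.le_of_compl hC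
      have e6 := φ.iso _ _ hT
      rw [φ.tens, φ.prod, φ.one] at e6
      rw [φ.tens] at e5
      have e7 : t - 1 ≤ φ.f Z' * φ.f Z'.dual := by linarith
      have h0 : (Z'.dim : k) = 0 := by rw [hZ3, h3]
      rcases four_le HS HR h2 φ Z' (by rw [h0]; exact zero_ne_one)
        (by rw [h0]; exact (neg_ne_zero.mpr one_ne_zero).symm) (by rw [h0]; exact h2.symm)
        (by rw [h0]; exact (neg_ne_zero.mpr h2).symm) with h8 | h8
      · have h9 : t ≤ 1 := by rw [h8] at e7; linarith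
        have h10 := cs_ineq (φ.f Z) (φ.f Z.dual) (φ.f Z') (φ.f Z'.dual) (Real.sqrt x) 0
          (φ.nonneg _) (φ.nonneg _) (φ.nonneg _) (φ.nonneg _) (Real.sqrt_nonneg _) le_rfl
          (by rw [hsqx]) (by rw [h8]; norm_num)
        rw [← e3, ← e4, h6] at h10
        exact bound_c t _ h10 ht0 h9
      · have h10 := cs_ineq (φ.f Z) (φ.f Z.dual) (φ.f Z') (φ.f Z'.dual) (Real.sqrt x) 2
          (φ.nonneg _) (φ.nonneg _) (φ.nonneg _) (φ.nonneg _) (Real.sqrt_nonneg _) (by norm_num)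
          (by rw [hsqx]) (by linarith)
        rw [← e3, ← e4, h6] at h10
        exact bound_b t _ h10 ht0 ht
    · obtain ⟨C, hC⟩ := HR k G V Z' (-ε) h2 (by rw [neg_mul_neg]; exact hε) sq' h22
        (by
          intro h
          rw [hδ] at h
          have h4 : 3 * ε = 0 := by linear_combination -h
          rcases mul_eq_zero.mp h4 with h5 | h5
          · exact h3 h5
          · exact hε0 h5)
      have e5 := φ.le_of_compl hC
      rw [φ.tens, φ.tens] at e5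
      have h10 := cs_ineq (φ.f Z) (φ.f Z.dual) (φ.f Z') (φ.f Z'.dual) (Real.sqrt x) (Real.sqrt t)
          (φ.nonneg _) (φ.nonneg _) (φ.nonneg _) (φ.nonneg _) (Real.sqrt_nonneg _)
          (Real.sqrt_nonneg _) (by rw [hsqx]) (by rw [hsqt]; exact e5)
      rw [← e3, ← e4, h6] at h10
      exact bound_a t _ _ h10 hsqt hst1 hst2 ht0
  -- `Y`
  have hYk : (Y.dim : k) = 0 := by
    have h := dim_eq_of_iso hY
    rw [dim_tens, dim_prod, dim_dual] at h
    have h' : ((V.dim * Z.dim : ℕ) : k) = ((V.dim + Y.dim : ℕ) : k) := by rw [h]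
    push_cast at h'
    rw [hZ1, mul_one] at h'
    linear_combination -h'
  have y1 := φ.iso _ _ hY
  rw [φ.tens, φ.prod] at y1
  have y2 := φ.star.iso _ _ hY
  rw [φ.star.tens, φ.star.prod, φ.star_dual] at y2
  simp only [φ.star_f] at y2
  have hY0 := φ.nonneg Y
  have hY0' := φ.nonneg Y.dual
  have hYeq : φ.f Y = φ.f V.dual * φ.f Z - φ.f V := by linarith
  have hYeq' : φ.f Y.dual = φ.f V * φ.f Z.dual - φ.f V.dual := by linarith
  have hprod : φ.f Y * φ.f Y.dual < 4 := by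
    have a1 : φ.f Y * φ.f Y.dual = t * (x + 1) -
        (φ.f V.dual ^ 2 * φ.f Z + φ.f V ^ 2 * φ.f Z.dual) := by
      rw [hYeq, hYeq', htdef, hxdef]; ring
    have a3 : (t * Real.sqrt x) ^ 2 = (φ.f V.dual ^ 2 * φ.f Z) * (φ.f V ^ 2 * φ.f Z.dual) := by
      rw [mul_pow, hsqx, htdef, hxdef]; ring
    have a4 : 2 * (t * Real.sqrt x) ≤ φ.f V.dual ^ 2 * φ.f Z + φ.f V ^ 2 * φ.f Z.dual :=
      am_gm _ _ _ a3 (mul_nonneg (sq_nonneg _) (φ.nonneg _))
        (mul_nonneg (sq_nonneg _) (φ.nonneg _))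
    have a5 : φ.f Y * φ.f Y.dual ≤ t * (Real.sqrt x - 1) ^ 2 := by
      have a7 : t * (Real.sqrt x - 1) ^ 2 = t * (x + 1) - 2 * (t * Real.sqrt x) := by
        linear_combination t * hsqx
      rw [a1, a7]
      linarith
    exact lt_four t (Real.sqrt x) _ a5 ht0 ht hsx1 hsx
  have hYY : φ.f Y * φ.f Y.dual = 0 := by
    rcases four_le HS HR h2 φ Y (by rw [hYk]; exact zero_ne_one)
        (by rw [hYk]; exact (neg_ne_zero.mpr one_ne_zero).symm) (by rw [hYk]; exact h2.symm)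
        (by rw [hYk]; exact (neg_ne_zero.mpr h2).symm) with h8 | h8
    · exact h8
    · linarith
  have hYz : φ.f Y = 0 := by
    have := triple_le φ Y
    rw [hYY, zero_mul] at this
    linarith
  have hYz' : φ.f Y.dual = 0 := by
    have := triple_le φ.star Y
    rw [φ.star_dual, φ.star_f, mul_comm (φ.f Y.dual) (φ.f Y), hYY, zero_mul] at this
    linarith
  refine ⟨hYz, by linarith, ?_⟩
  have b1 : φ.f V.dual * φ.f Z = φ.f V := by linarith
  have b2 : φ.f V * φ.f Z.dual = φ.f V.dual := by linarith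
  have b3 : t * x = t * 1 := by
    rw [htdef, hxdef]
    calc φ.f V * φ.f V.dual * (φ.f Z * φ.f Z.dual)
        = (φ.f V.dual * φ.f Z) * (φ.f V * φ.f Z.dual) := by ring
      _ = φ.f V * φ.f V.dual * 1 := by rw [b1, b2, mul_one]
  exact mul_left_cancel₀ (by linarith : t ≠ 0) b3

/-- (a) The case `δ = ±1`, `p ≥ 5`. -/
theorem one_vals (HS : S_sqExists.{u, v}) (HR : S_sqEnd.{u, v}) (HT : S_sqTraceless.{u, v})
    (h2 : (2 : k) ≠ 0) (h3 : (3 : k) ≠ 0)
    (φ : PosChar k G) (V : Ob k G) (ε : k) (hε : ε * ε = 1)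
    (hδ : (V.dim : k) = -ε) (ht : φ.f V * φ.f V.dual < 4) :
    φ.f V * φ.f V.dual = 1 := by
  have hε0 : ε ≠ 0 := by
    intro h
    rw [h, mul_zero] at hε
    exact zero_ne_one hε
  have hδ0 : (V.dim : k) ≠ 0 := by
    rw [hδ]
    exact neg_ne_zero.mpr hε0
  obtain ⟨Z, Z', ⟨sq⟩, ⟨sq'⟩, hiso, hd, hd'⟩ := HS k G V ε h2 hε
  have ht1 := one_le_of_dim V φ hδ0
  have hZ0 : (Z.dim : k) = 0 := by
    rw [hd, hδ]; ring
  obtain ⟨e3, e4⟩ := sq_vals φ hiso
  set t := φ.f V * φ.f V.dual with htdef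
  have ht0 : 0 ≤ t := by linarith
  have h6 : (φ.f V * φ.f V) * (φ.f V.dual * φ.f V.dual) = t ^ 2 := by rw [htdef]; ring
  have hst2 : Real.sqrt t < 2 := by
    rw [show (2 : ℝ) = Real.sqrt 4 by
      rw [show (4 : ℝ) = 2 ^ 2 by norm_num, Real.sqrt_sq (by norm_num)]]
    exact Real.sqrt_lt_sqrt ht0 ht
  have hst1 : 1 ≤ Real.sqrt t := Real.one_le_sqrt.mpr ht1
  have hsqt := Real.sq_sqrt ht0
  obtain ⟨C, hC⟩ := HR k G V Z' (-ε) h2 (by rw [neg_mul_neg]; exact hε) sq'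
    (by
      intro h
      rw [hδ] at h
      have h4 : 3 * ε = 0 := by linear_combination -h
      rcases mul_eq_zero.mp h4 with h5 | h5
      · exact h3 h5
      · exact hε0 h5)
    (by
      intro h
      rw [hδ] at h
      have h4 : 2 * ε = 0 := by linear_combination -h
      rcases mul_eq_zero.mp h4 with h5 | h5
      · exact h2 h5
      · exact hε0 h5)
  have e5 := φ.le_of_compl hC
  rw [φ.tens, φ.tens] at e5
  obtain ⟨T, C', hT, hC'⟩ := HT k G V Z ε h2 hε sq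
    (by
      intro h
      rw [hδ] at h
      have h4 : ε = 0 := by linear_combination h
      exact hε0 h4) hδ0
  have e7 := φ.le_of_compl hC'
  have e6 := φ.iso _ _ hT
  rw [φ.tens, φ.prod, φ.one] at e6
  rw [φ.tens] at e7
  rcases four_le HS HR h2 φ Z (by rw [hZ0]; exact zero_ne_one)
    (by rw [hZ0]; exact (neg_ne_zero.mpr one_ne_zero).symm) (by rw [hZ0]; exact h2.symm)
    (by rw [hZ0]; exact (neg_ne_zero.mpr h2).symm) with h8 | h8
  · rw [h8] at e7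
    linarith
  · exfalso
    have h10 := cs_ineq (φ.f Z) (φ.f Z.dual) (φ.f Z') (φ.f Z'.dual) 2 (Real.sqrt t)
      (φ.nonneg _) (φ.nonneg _) (φ.nonneg _) (φ.nonneg _) (by norm_num)
      (Real.sqrt_nonneg _) (by linarith) (by rw [hsqt]; exact e5)
    rw [← e3, ← e4, h6] at h10
    have := bound_a t _ _ h10 hsqt hst1 hst2 ht0
    linarith

end Pool.Agent.H398.Gam
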