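import Pool.Agent.H398.Gam.Step

set_option autoImplicit false
set_option linter.unusedVariables false
set_option linter.unusedSimpArgs false

open scoped TensorProduct

namespace Pool.Agent.H398.Gam

universe u v

variable {k : Type u} [Field k] {G : Type v} [Group G] {J : Type} [Fintype J] [DecidableEq J]

open Ob

/-- A short exact sequence `0 → A → W → Q → 0`. -/
structure SES (A W Q : Ob k G) where
  α : A.V →ₗ[k] W.V
  β : W.V →ₗ[k] Q.V
  hα : Eqv A W α
  hβ : Eqv W Q β
  inj : Function.Injective α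
  surj : Function.Surjective β
  ex : ∀ w, β w = 0 ↔ ∃ a, α a = w

namespace SES

variable {A W Q : Ob k G} (s : SES A W Q)

include s in
theorem dim_eq : W.dim = A.dim + Q.dim := by
  have h1 := LinearMap.finrank_range_add_finrank_ker s.β
  have h2 : LinearMap.ker s.β = LinearMap.range s.α := by
    ext w
    simp only [LinearMap.mem_ker, LinearMap.mem_range]
    exact s.ex w
  rw [LinearMap.range_eq_top.mpr s.surj, finrank_top, h2,
    LinearMap.finrank_range_of_inj s.inj] at h1
  unfold Ob.dim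
  omega

theorem eqv_rTensor (X : Ob k G) {A B : Ob k G} (f : A.V →ₗ[k] B.V) (hf : Eqv A B f) :
    Eqv (A.tens X) (B.tens X) (f.rTensor X.V) := by
  intro g v
  have : (f.rTensor X.V) ∘ₗ (A.tens X).ρ g = (B.tens X).ρ g ∘ₗ (f.rTensor X.V) := by
    apply TensorProduct.ext'
    intro a x
    change (f.rTensor X.V) ((A.ρ g a) ⊗ₜ[k] (X.ρ g x)) = (B.tens X).ρ g (f a ⊗ₜ[k] x)
    rw [LinearMap.rTensor_tmul, hf]
    rfl
  exact congrArg (fun T => T v) this

/-- Tensoring with `X`. -/
noncomputable def tens (X : Ob k G) : SES (A.tens X) (W.tens X) (Q.tens X) where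
  α := s.α.rTensor X.V
  β := s.β.rTensor X.V
  hα := eqv_rTensor X s.α s.hα
  hβ := eqv_rTensor X s.β s.hβ
  inj := Module.Flat.rTensor_preserves_injective_linearMap s.α s.inj
  surj := LinearMap.rTensor_surjective X.V s.surj
  ex := by
    have hex : Function.Exact s.α s.β := fun w => s.ex w
    exact rTensor_exact X.V hex s.surj

/-- A sequence with a retraction up to an isomorphism splits. -/
theorem split_left (τ : W.V →ₗ[k] A.V) (hτ : Eqv W A τ)
    (h : ∀ a, τ (s.α a) = 0 → a = 0) : W.Iso (A.prod Q) := by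
  have hinj : Function.Injective (τ.prod s.β) := by
    rw [← LinearMap.ker_eq_bot, LinearMap.ker_eq_bot']
    intro w hw
    have h1 : τ w = 0 := congrArg Prod.fst hw
    have h2 : s.β w = 0 := congrArg Prod.snd hw
    obtain ⟨a, rfl⟩ := (s.ex w).mp h2
    rw [h a h1, map_zero]
  have hdim : Module.finrank k W.V = Module.finrank k (A.V × Q.V) := by
    rw [Module.finrank_prod]; exact s.dim_eq
  have hsurj : Function.Surjective (τ.prod s.β) :=
    (LinearMap.injective_iff_surjective_of_finrank_eq_finrank hdim).mp hinj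
  refine Iso.mk' (LinearEquiv.ofBijective (τ.prod s.β) ⟨hinj, hsurj⟩) (fun g v => ?_)
  change ((τ (W.ρ g v), s.β (W.ρ g v)) : A.V × Q.V) = (A.ρ g (τ v), Q.ρ g (s.β v))
  rw [hτ, s.hβ]

/-- A sequence with a section up to an isomorphism splits. -/
theorem split_right (σ : Q.V →ₗ[k] W.V) (hσ : Eqv Q W σ)
    (h : ∀ q, s.β (σ q) = 0 → q = 0) : W.Iso (A.prod Q) := by
  have hinj : Function.Injective (s.α.coprod σ) := by
    rw [← LinearMap.ker_eq_bot, LinearMap.ker_eq_bot']
    rintro ⟨a, q⟩ hw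
    rw [LinearMap.coprod_apply] at hw
    have h1 : s.β (s.α a) = 0 := (s.ex _).mpr ⟨a, rfl⟩
    have h2 := congrArg s.β hw
    rw [map_add, h1, zero_add, map_zero] at h2
    have hq := h q h2
    subst hq
    rw [map_zero, add_zero] at hw
    have := s.inj (hw.trans (map_zero s.α).symm)
    subst this
    rfl
  have hdim : Module.finrank k (A.V × Q.V) = Module.finrank k W.V := by
    rw [Module.finrank_prod]; exact s.dim_eq.symm
  have hsurj : Function.Surjective (s.α.coprod σ) :=
    (LinearMap.injective_iff_surjective_of_finrank_eq_finrank hdim).mp hinj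
  refine (Iso.mk' (LinearEquiv.ofBijective (s.α.coprod σ) ⟨hinj, hsurj⟩) (fun g v => ?_)).symm
  obtain ⟨a, q⟩ := v
  change s.α (A.ρ g a) + σ (Q.ρ g q) = W.ρ g (s.α a + σ q)
  rw [s.hα, hσ, map_add]

end SES

/-- Kernel and quotient: from `S : A → W`, `T : W → A` with `T S = 0`, `S` injective, `T` surjective,
the homology `H`. -/
theorem homology_aux (A W : Ob k G) (S : A.V →ₗ[k] W.V) (T : W.V →ₗ[k] A.V) (hS : Eqv A W S)
    (hT : Eqv W A T) (hTS : ∀ a, T (S a) = 0) (hSi : Function.Injective S)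
    (hTs : Function.Surjective T) :
    ∃ (K H : Ob k G) (s₁ : SES K W A) (s₂ : SES A K H), s₁.β = T ∧ ∀ a, s₁.α (s₂.α a) = S a := by
  have hinv : ∀ g, LinearMap.ker T ≤ (LinearMap.ker T).comap (W.ρ g) := by
    intro g v hv
    simp only [Submodule.mem_comap, LinearMap.mem_ker] at hv ⊢
    rw [hT, hv, map_zero]
  have hSK : ∀ a, S a ∈ LinearMap.ker T := fun a => hTS a
  let K : Ob k G := ⟨LinearMap.ker T, W.ρ.subrepresentation (LinearMap.ker T) hinv⟩
  let S' : A.V →ₗ[k] K.V := LinearMap.codRestrict (LinearMap.ker T) S hSK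
  have hS' : Eqv A K S' := by
    intro g a
    apply Subtype.ext
    exact hS g a
  have hinv2 : ∀ g, LinearMap.range S' ≤ (LinearMap.range S').comap (K.ρ g) := by
    rintro g _ ⟨a, rfl⟩
    exact ⟨A.ρ g a, hS' g a⟩
  let H : Ob k G := ⟨K.V ⧸ LinearMap.range S', K.ρ.quotient (LinearMap.range S') hinv2⟩
  refine ⟨K, H, ⟨(LinearMap.ker T).subtype, T, fun g v => rfl, hT, Subtype.val_injective, hTs, ?_⟩,
    ⟨S', (LinearMap.range S').mkQ, hS', ?_, ?_, Submodule.mkQ_surjective _, ?_⟩, rfl, fun a => rfl⟩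
  · intro w
    constructor
    · intro h; exact ⟨⟨w, h⟩, rfl⟩
    · rintro ⟨a, rfl⟩; exact a.2
  · intro g v
    rfl
  · intro a b hab
    exact hSi (congrArg Subtype.val hab)
  · intro w
    rw [← LinearMap.mem_ker, Submodule.ker_mkQ]
    exact LinearMap.mem_range

end Pool.Agent.H398.Gam
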