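import Pool.Agent.H398.Gam.HH

set_option autoImplicit false
set_option linter.unusedVariables false
set_option linter.unusedSimpArgs false

open scoped TensorProduct

namespace Pool.Agent.H398.Gam

universe u v

variable {k : Type u} [Field k] {G : Type v} [Group G] {J : Type} [Fintype J] [DecidableEq J]

namespace Ob

theorem dual_ρ (A : Ob k G) (g : G) (φ : Module.Dual k A.V) (a : A.V) :
    (A.dual.ρ g φ : Module.Dual k A.V) a = φ (A.ρ g⁻¹ a) := rfl

theorem Iso.dual_congr {A B : Ob k G} (h : A.Iso B) : A.dual.Iso B.dual := by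
  obtain ⟨e, he⟩ := h.symm.exists_equiv
  refine Iso.mk' e.dualMap (fun g φ => ?_)
  apply LinearMap.ext
  intro b
  change (A.dual.ρ g φ : Module.Dual k A.V) (e b) = (B.dual.ρ g (e.dualMap φ) : Module.Dual k B.V) b
  rw [dual_ρ, dual_ρ, LinearEquiv.dualMap_apply, he]

theorem dual_one : (one k G).dual.Iso (one k G) := by
  refine Iso.mk' (LinearMap.ringLmapEquivSelf k k k) (fun g φ => ?_)
  rfl

theorem dual_prod (A B : Ob k G) : (A.dual.prod B.dual).Iso (A.prod B).dual := by
  refine Iso.mk' (Module.dualProdDualEquivDual k A.V B.V) (fun g φ => ?_)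
  obtain ⟨φ, ψ⟩ := φ
  apply LinearMap.ext
  rintro ⟨a, b⟩
  rfl

theorem dual_tens (A B : Ob k G) : (A.dual.tens B.dual).Iso (A.tens B).dual := by
  refine Iso.tens_mk (TensorProduct.dualDistribEquiv k A.V B.V) (fun g φ ψ => ?_)
  apply TensorProduct.ext'
  intro a b
  rfl

theorem dual_dual (A : Ob k G) : A.Iso A.dual.dual := by
  refine Iso.mk' (Module.evalEquiv k A.V) (fun g a => ?_)
  apply LinearMap.ext
  intro φ
  change φ (A.ρ g a) = φ (A.ρ (g⁻¹)⁻¹ a)
  rw [inv_inv]

end Ob

open Ob

/-- The dual character `f^*(A) = f(A^*)`. -/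
noncomputable def PosChar.star (φ : PosChar k G) : PosChar k G where
  f A := φ.f A.dual
  nonneg A := φ.nonneg _
  iso A B h := φ.iso _ _ h.dual_congr
  prod A B := by rw [← φ.iso _ _ (dual_prod A B), φ.prod]
  tens A B := by rw [← φ.iso _ _ (dual_tens A B), φ.tens]
  one := by rw [φ.iso _ _ dual_one, φ.one]

theorem PosChar.star_f (φ : PosChar k G) (A : Ob k G) : φ.star.f A = φ.f A.dual := rfl

theorem PosChar.star_dual (φ : PosChar k G) (A : Ob k G) : φ.star.f A.dual = φ.f A := by
  rw [star_f, ← φ.iso _ _ (dual_dual A)]

theorem PosChar.ext_f (φ : PosChar k G) (A : Ob k G) (R : G →* Matrix J J k) :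
    φ.f (A.ext R) = φ.f A * φ.f (ofMat R) := by
  rw [← φ.iso _ _ (ext_iso A R), φ.tens]

/-- The first stage of the tower: `A = k`, `B = k^J`. -/
noncomputable def Stage.first (R : G →* Matrix J J k) :
    Stage R (one k G) (ofMat R) (Fintype.card J : k) where
  i j := LinearMap.proj j
  r j := LinearMap.single k (fun _ : J => k) j
  hi g j v := ext_ρ (one k G) R g v j
  hr g l a := by
    have h0 : ∑ j, R g j l • (Pi.single j a : J → k) = (ofMat R).ρ g (Pi.single l a) := by
      funext n
      rw [ext_ρ, Finset.sum_apply]
      rw [Finset.sum_eq_single n, Finset.sum_eq_single l]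
      · simp
      · intro b _ hb
        simp [hb]
      · simp
      · intro b _ hb
        simp [Ne.symm hb]
      · simp
    exact h0
  ri v := Finset.univ_sum_single v
  ir a := by
    have : ∀ j : J, (LinearMap.proj j : (J → k) →ₗ[k] k) (LinearMap.single k (fun _ : J => k) j a) = a := by
      intro j; simp
    refine (Finset.sum_congr rfl (fun j _ => this j)).trans ?_
    simp [Finset.card_univ]
  inj v hv := by
    have : EE (k := k) (X := k) (Y := J → k) (fun j => LinearMap.proj j)
        (fun j => LinearMap.single k (fun _ : J => k) j) = LinearMap.id := by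
      apply TensorProduct.ext'
      intro a b
      simp only [EE, LinearMap.sum_apply, TensorProduct.map_tmul, LinearMap.comp_apply,
        LinearMap.id_apply]
      have h1 : ∀ s j : J, (LinearMap.proj s : (J → k) →ₗ[k] k)
          (LinearMap.single k (fun _ : J => k) j a) = if s = j then a else 0 := by
        intro s j
        by_cases h : s = j
        · subst h; simp
        · simp [h]
      simp only [h1]
      have h2 : ∀ s : J, ∑ j, (if s = j then a else 0) ⊗ₜ[k]
          (LinearMap.single k (fun _ : J => k) s) ((LinearMap.proj j : (J → k) →ₗ[k] k) b) =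
          a ⊗ₜ[k] (Pi.single s (b s) : J → k) := by
        intro s
        rw [Finset.sum_eq_single s]
        · simp
        · intro x _ hx
          simp [Ne.symm hx]
        · simp
      simp only [h2, ← TensorProduct.tmul_sum]
      congr 1
      exact Finset.univ_sum_single b
    have h3 := congrArg (fun T => T v) this
    exact h3.symm.trans hv

end Pool.Agent.H398.Gam
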