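import Pool.Agent.H398.Gam.Tower

set_option autoImplicit false
set_option linter.unusedVariables false
set_option linter.unusedSimpArgs false

open scoped TensorProduct

namespace Pool.Agent.H398.Gam

universe u v

variable {k : Type u} [Field k] {G : Type v} [Group G] {J : Type} [Fintype J] [DecidableEq J]

open Ob

theorem step {R : G →* Matrix J J k} {A B : Ob k G} {κ : k} (St : Stage R A B κ) (hκ : κ ≠ 0) :
    ∃ C : Ob k G, Nonempty (Stage (dualMat R) B C ((Fintype.card J : k) - κ⁻¹)) ∧
      (B.ext (dualMat R)).Iso (A.prod C) := by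
  obtain ⟨C, I, P, hI, hP, hPI, hIP, hTI, hiso⟩ :=
    compl A (B.ext (dualMat R)) St.S (κ⁻¹ • St.T) St.S_eqv
      (by
        intro g v
        simp only [LinearMap.smul_apply, St.T_eqv g v, map_smul])
      (by
        intro a
        rw [LinearMap.smul_apply, St.TS, smul_smul, inv_mul_cancel₀ hκ, one_smul])
  refine ⟨C, ⟨?_⟩, hiso⟩
  let i' : J → C.V →ₗ[k] B.V := fun j => LinearMap.proj j ∘ₗ I
  let r' : J → B.V →ₗ[k] C.V := fun j => P ∘ₗ LinearMap.single k (fun _ : J => B.V) j
  have hi' : ∀ j c, i' j c = (I c) j := fun j c => rfl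
  have hr' : ∀ j b, r' j b = P (Pi.single j b) := fun j b => rfl
  have hT1 : ∀ l b, St.T (Pi.single l b : J → B.V) = St.i l b := by
    intro l b
    rw [St.T_apply, Finset.sum_eq_single l]
    · simp
    · intro j _ hj
      simp [hj]
    · simp
  have key : ∀ j l b, i' j (r' l b) = (if j = l then b else 0) - κ⁻¹ • St.r j (St.i l b) := by
    intro j l b
    rw [hr', hi', hIP, LinearMap.smul_apply, hT1, map_smul]
    change (Pi.single l b : J → B.V) j - κ⁻¹ • St.r j (St.i l b) = _
    congr 1
    by_cases h : j = l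
    · subst h; simp
    · simp [h]
  have ri' : ∀ v, ∑ j, r' j (i' j v) = v := by
    intro v
    simp only [hr', hi']
    rw [← map_sum]
    have h0 : ∑ x, (Pi.single x ((I v) x) : J → B.V) = I v := by
      exact Finset.univ_sum_single (I v)
    exact (congrArg P h0).trans (hPI v)
  refine ⟨i', r', ?_, ?_, ri', ?_, ?_⟩
  · intro g j v
    rw [hi', hI, ext_ρ]
    rfl
  · intro g l a
    have h0 : ∑ j, dualMat R g j l • (Pi.single j (B.ρ g a) : J → B.V) =
        (B.ext (dualMat R)).ρ g (Pi.single l a) := by
      funext n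
      rw [ext_ρ, Finset.sum_apply]
      rw [Finset.sum_eq_single n, Finset.sum_eq_single l]
      · simp
      · intro b _ hb
        simp [hb]
      · simp
      · intro b _ hb
        simp [Ne.symm hb]
      · simp
    simp only [hr']
    rw [← hP, ← h0, map_sum]
    exact Finset.sum_congr rfl (fun j _ => (P.map_smul _ _).symm)
  · intro a
    simp only [key, if_true, Finset.sum_sub_distrib, ← Finset.smul_sum, St.ri]
    simp [sub_smul, ← Nat.cast_smul_eq_nsmul k]
  · exact step_inj St.i St.r i' r' κ hκ St.ir St.inj ri' key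

end Pool.Agent.H398.Gam
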