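import Pool.Agent.H398.Gam.Ext

set_option autoImplicit false
set_option linter.unusedVariables false

open scoped TensorProduct

namespace Pool.Agent.H398.Gam

universe u v

variable {k : Type u} [Field k] {G : Type v} [Group G] {J : Type} [Fintype J] [DecidableEq J]

open Ob

/-- The operator `∑_{s,j} (i_s r_j) ⊗ (r_s i_j)` on `A ⊗ B`. -/
noncomputable def EE {X Y : Type u} [AddCommGroup X] [Module k X] [AddCommGroup Y] [Module k Y]
    (i : J → Y →ₗ[k] X) (r : J → X →ₗ[k] Y) : X ⊗[k] Y →ₗ[k] X ⊗[k] Y :=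
  ∑ s, ∑ j, TensorProduct.map (i s ∘ₗ r j) (r s ∘ₗ i j)

/-- A stage of the Jones-Wenzl tower: `B` is a summand of `A ⊗ k^J`. -/
structure Stage (R : G →* Matrix J J k) (A B : Ob k G) (κ : k) where
  i : J → B.V →ₗ[k] A.V
  r : J → A.V →ₗ[k] B.V
  hi : ∀ g j v, i j (B.ρ g v) = ∑ l, R g j l • A.ρ g (i l v)
  hr : ∀ g l a, ∑ j, R g j l • r j (A.ρ g a) = B.ρ g (r l a)
  ri : ∀ v, ∑ j, r j (i j v) = v
  ir : ∀ a, ∑ j, i j (r j a) = κ • a
  inj : ∀ v, EE i r v = 0 → v = 0

namespace Stage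

variable {R : G →* Matrix J J k} {A B : Ob k G} {κ : k} (St : Stage R A B κ)

include St in
theorem r_eq (g : G) (n : J) (a : A.V) :
    St.r n (A.ρ g a) = ∑ l, R g⁻¹ l n • B.ρ g (St.r l a) := by
  have h : ∀ l, B.ρ g (St.r l a) = ∑ j, R g j l • St.r j (A.ρ g a) := fun l => (St.hr g l a).symm
  simp only [h, Finset.smul_sum, smul_smul]
  rw [Finset.sum_comm]
  have h2 : ∀ y, ∑ x, (R g⁻¹ x n * R g y x) • St.r y (A.ρ g a) =
      (if y = n then 1 else 0 : k) • St.r y (A.ρ g a) := by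
    intro y
    rw [← Finset.sum_smul, ← sum_mul_inv R g y n]
    congr 1
    exact Finset.sum_congr rfl (fun _ _ => mul_comm _ _)
  simp [h2]

include St in
theorem i_eq (g : G) (n : J) (v : B.V) :
    A.ρ g (St.i n v) = ∑ j, R g⁻¹ n j • St.i j (B.ρ g v) := by
  simp only [St.hi, Finset.smul_sum, smul_smul]
  rw [Finset.sum_comm]
  have h2 : ∀ y, ∑ x, (R g⁻¹ n x * R g x y) • A.ρ g (St.i y v) =
      (if n = y then 1 else 0 : k) • A.ρ g (St.i y v) := by
    intro y
    rw [← Finset.sum_smul, ← sum_inv_mul R g n y]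
  simp [h2]

/-- The map `A → B ⊗ (k^J)^*`. -/
def S : A.V →ₗ[k] (B.ext (dualMat R)).V := LinearMap.pi St.r

/-- The map `B ⊗ (k^J)^* → A`. -/
def T : (B.ext (dualMat R)).V →ₗ[k] A.V := ∑ j, St.i j ∘ₗ LinearMap.proj j

theorem T_apply (φ : J → B.V) : St.T φ = ∑ j, St.i j (φ j) := by
  simp [T, LinearMap.sum_apply]

theorem S_apply (a : A.V) (j : J) : St.S a j = St.r j a := rfl

theorem S_eqv : Eqv A (B.ext (dualMat R)) St.S := by
  intro g a
  funext j
  rw [ext_ρ, S_apply, St.r_eq]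
  rfl

theorem T_eqv : Eqv (B.ext (dualMat R)) A St.T := by
  intro g φ
  rw [T_apply, T_apply, map_sum]
  have h1 : ∀ j, St.i j ((B.ext (dualMat R)).ρ g φ j) =
      ∑ l, R g⁻¹ l j • St.i j (B.ρ g (φ l)) := by
    intro j
    rw [ext_ρ, map_sum]
    simp only [map_smul]
    rfl
  rw [Finset.sum_congr rfl (fun j _ => h1 j), Finset.sum_comm]
  exact Finset.sum_congr rfl (fun l _ => (St.i_eq g l (φ l)).symm)

theorem TS (a : A.V) : St.T (St.S a) = κ • a := by
  rw [T_apply]
  exact St.ir a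

theorem EE_apply (v : A.V ⊗[k] B.V) : EE St.i St.r v =
    ∑ s, ∑ j, TensorProduct.map (St.i s ∘ₗ St.r j) (St.r s ∘ₗ St.i j) v := by
  simp [EE, LinearMap.sum_apply]

end Stage

theorem step_inj {X Y Z : Type u} [AddCommGroup X] [Module k X] [AddCommGroup Y] [Module k Y]
    [AddCommGroup Z] [Module k Z] (i : J → Y →ₗ[k] X) (r : J → X →ₗ[k] Y)
    (i' : J → Z →ₗ[k] Y) (r' : J → Y →ₗ[k] Z) (κ : k) (hκ : κ ≠ 0)
    (ir : ∀ a, ∑ j, i j (r j a) = κ • a) (inj : ∀ v, EE i r v = 0 → v = 0)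
    (ri' : ∀ v, ∑ j, r' j (i' j v) = v)
    (h : ∀ j l b, i' j (r' l b) = (if j = l then b else 0) - κ⁻¹ • r j (i l b)) :
    ∀ v, EE i' r' v = 0 → v = 0 := by
  intro v hv
  let C : Y ⊗[k] Z →ₗ[k] X ⊗[k] Y := ∑ j, TensorProduct.map (i j) (i' j)
  let D : X ⊗[k] Y →ₗ[k] Y ⊗[k] Z := ∑ j, TensorProduct.map (r j) (r' j)
  have hDC : EE i' r' + κ⁻¹ • (D ∘ₗ C) = LinearMap.id := by
    apply TensorProduct.ext'
    intro y z
    simp only [EE, C, D, LinearMap.add_apply, LinearMap.smul_apply, LinearMap.comp_apply,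
      LinearMap.sum_apply, TensorProduct.map_tmul, map_sum, h, TensorProduct.sub_tmul,
      Finset.sum_sub_distrib, LinearMap.id_apply]
    have h1 : ∀ x, (∑ x_1, (if x = x_1 then y else 0) ⊗ₜ[k] r' x (i' x_1 z)) =
        y ⊗ₜ[k] r' x (i' x z) := by
      intro x
      rw [Finset.sum_eq_single x]
      · simp
      · intro b _ hb
        simp [Ne.symm hb]
      · simp
    simp only [h1, ← TensorProduct.tmul_sum, ri', TensorProduct.smul_tmul', ← Finset.smul_sum]
    rw [Finset.smul_sum]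
    simp only [Finset.smul_sum, TensorProduct.smul_tmul']
    rw [Finset.sum_comm]
    abel
  have hCD : C ∘ₗ D = κ • LinearMap.id - κ⁻¹ • EE i r := by
    apply TensorProduct.ext'
    intro x y
    simp only [EE, C, D, LinearMap.sub_apply, LinearMap.smul_apply, LinearMap.comp_apply,
      LinearMap.sum_apply, TensorProduct.map_tmul, map_sum, h, TensorProduct.tmul_sub,
      Finset.sum_sub_distrib, LinearMap.id_apply]
    have h1 : ∀ x_1, (∑ x_2, (i x_2 (r x_1 x)) ⊗ₜ[k] (if x_2 = x_1 then y else 0)) =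
        (i x_1 (r x_1 x)) ⊗ₜ[k] y := by
      intro x_1
      rw [Finset.sum_eq_single x_1]
      · simp
      · intro b _ hb
        simp [hb]
      · simp
    rw [Finset.sum_congr rfl (fun a _ => h1 a), ← TensorProduct.sum_tmul, ir]
    simp only [TensorProduct.tmul_smul, TensorProduct.smul_tmul', Finset.smul_sum]
    rw [Finset.sum_comm]
  have e1 : v = κ⁻¹ • D (C v) := by
    have := congrArg (fun f => f v) hDC
    simp only [LinearMap.add_apply, hv, zero_add, LinearMap.smul_apply, LinearMap.comp_apply,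
      LinearMap.id_apply] at this
    exact this.symm
  have e2 : C v = C v - κ⁻¹ • κ⁻¹ • EE i r (C v) := by
    conv_lhs => rw [e1, map_smul]
    have := congrArg (fun f => f (C v)) hCD
    simp only [LinearMap.sub_apply, LinearMap.smul_apply, LinearMap.comp_apply,
      LinearMap.id_apply] at this
    rw [this, smul_sub, smul_smul, inv_mul_cancel₀ hκ, one_smul]
  have e3 : κ⁻¹ • κ⁻¹ • EE i r (C v) = 0 := by
    have := sub_eq_self.mp e2.symm
    exact this
  have e4 : EE i r (C v) = 0 := by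
    have hk : κ⁻¹ ≠ 0 := inv_ne_zero hκ
    rcases smul_eq_zero.mp e3 with h | h
    · exact absurd h hk
    · rcases smul_eq_zero.mp h with h | h
      · exact absurd h hk
      · exact h
  rw [e1, inj _ e4, map_zero, smul_zero]

end Pool.Agent.H398.Gam
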